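import Pool.Agent.L5helper32.GP.D.Defs
import Pool.Agent.L5helper32.GP.Final

/-!
# The proportion of the prime zeros
-/

set_option autoImplicit false

open Finset MeasureTheory ProbabilityTheory Filter Topology

namespace Pool.Agent.L5helper32.GP

open Pool.Agent.L5helper32.GR (Root w pr sg Dep lev q)

theorem dep_dq (p n : ℕ) : Dep (bx {n} (q p n + n + 2))
    {f : ℕ × ℕ × ℕ → ℕ | DQPrime p (cur f n) n} :=
  fun f g hfg => not_iff_not.1 (dep_q p n f g hfg)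

theorem dnprime_of_good {p : ℕ} (hp1 : 1 ≤ p) {T : ℕ → ℕ → ℕ → ℕ}
    (hω : ∀ᶠ z in Filter.atTop, dseq p T z = 0 → GoodRun p T z) :
    ∃ N, ∀ n ≥ N, dseq p T n = 0 → DNPrime (T n) n := by
  rw [Filter.eventually_atTop] at hω
  obtain ⟨N, hN⟩ := hω
  refine ⟨lev p N + 3, ?_⟩
  intro n hn h0
  obtain ⟨z, hz2, hzn, hz0, hnext⟩ := prev_zero hp1 T (by omega) h0
  have hle := nextZero_le hp1 T (z := z) (by omega)
  have hzN : N ≤ z := by
    by_contra hlt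
    push Not at hlt
    have : lev p z ≤ lev p N := by
      unfold lev
      have := Nat.pow_le_pow_left (show z + 1 ≤ N + 1 by omega) p
      omega
    omega
  have hgood := (hN z hzN hz0).2
  rw [hnext] at hgood hle
  exact nprime_of_sv hgood (by omega)

variable {Ω : Type} [MeasurableSpace Ω] {μ : Measure Ω} [IsProbabilityMeasure μ]
  {T : ℕ × ℕ × ℕ → Ω → ℕ}

open Classical in
/-- D10: from `ae_density`, `step_prime`, `step_comp`, `zeros_tendsto` (as hypotheses) and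
`all_good`. -/
theorem proportion_of {p : ℕ} (hp : p.Prime) (h5 : 5 ≤ p) (h : Res μ T)
    (AD : ∀ {P : ℕ → Set (ℕ × ℕ × ℕ → ℕ)} (_ : ∀ n, ∃ R, Dep (bx {n} R) (P n)) {q' : ℝ}
      (_ : 0 ≤ q') (_ : q' ≤ 1) {z₂ : ℕ}
      (_ : ∀ z ≥ z₂, ∀ (n R : ℕ) (A : Set (ℕ × ℕ × ℕ → ℕ)),
        Dep (bx (range ((lev p z + 3) / 4)) R) A →
        Pr μ T (A ∩ {f | (GoodRun p (cur f) z ∧ nextZero p (cur f) z = n) ∧ f ∈ P n})
          ≤ q' * Pr μ T (A ∩ {f | GoodRun p (cur f) z ∧ nextZero p (cur f) z = n}))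
      {α : ℝ} (_ : q' < α),
      ∀ᵐ ω ∂μ, ∀ᶠ X : ℕ in atTop,
        (#{n ∈ Icc 1 X | dseq p (res T ω) n = 0 ∧ (fun i => T i ω) ∈ P n} : ℝ)
          ≤ α * #{n ∈ Icc 1 X | dseq p (res T ω) n = 0})
    (SP : ∀ {ε : ℝ} (_ : 0 < ε), ∃ z₂ : ℕ, ∀ z ≥ z₂, ∀ (n R : ℕ) (A : Set (ℕ × ℕ × ℕ → ℕ)),
      Dep (bx (range ((lev p z + 3) / 4)) R) A →
      Pr μ T (A ∩ {f | (GoodRun p (cur f) z ∧ nextZero p (cur f) z = n) ∧ DQPrime p (cur f n) n})
        ≤ (2 / ((p : ℝ) - 1) + ε) *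
          Pr μ T (A ∩ {f | GoodRun p (cur f) z ∧ nextZero p (cur f) z = n}))
    (SC : ∀ {ε : ℝ} (_ : 0 < ε), ∃ z₂ : ℕ, ∀ z ≥ z₂, ∀ (n R : ℕ) (A : Set (ℕ × ℕ × ℕ → ℕ)),
      Dep (bx (range ((lev p z + 3) / 4)) R) A →
      Pr μ T (A ∩ {f | (GoodRun p (cur f) z ∧ nextZero p (cur f) z = n) ∧ ¬ DQPrime p (cur f n) n})
        ≤ (1 - 2 / ((p : ℝ) - 1) + ε) *
          Pr μ T (A ∩ {f | GoodRun p (cur f) z ∧ nextZero p (cur f) z = n}))
    (ZT : ∀ T : ℕ → ℕ → ℕ → ℕ,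
      Tendsto (fun X : ℕ => (#{n ∈ Icc 1 X | dseq p T n = 0} : ℝ)) atTop atTop) :
    ∀ᵐ ω ∂μ, Tendsto (fun X : ℕ =>
      (#{n ∈ Icc 1 X | dseq p (res T ω) n = 0 ∧ DNPrime (res T ω n) n ∧ DQPrime p (res T ω n) n} : ℝ)
        / #{n ∈ Icc 1 X | dseq p (res T ω) n = 0}) atTop (𝓝 (2 / ((p : ℝ) - 1))) := by
  have hp1 : 1 ≤ p := hp.one_lt.le
  have hp5 : (5 : ℝ) ≤ p := by exact_mod_cast h5
  set L : ℝ := 2 / ((p : ℝ) - 1) with hL
  have hL0 : 0 < L := by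
    rw [hL]
    exact div_pos (by norm_num) (by linarith)
  have hL1 : L ≤ 1 / 2 := by
    rw [hL, div_le_iff₀ (by linarith)]
    linarith
  have hε : ∀ k : ℕ, 0 < L / ((k : ℝ) + 1) ∧ L / ((k : ℝ) + 1) ≤ L := by
    intro k
    refine ⟨by positivity, div_le_self hL0.le ?_⟩
    have : (0 : ℝ) ≤ k := Nat.cast_nonneg k
    linarith
  have h1 : ∀ k : ℕ, ∀ᵐ ω ∂μ, ∀ᶠ X : ℕ in atTop,
      (#{n ∈ Icc 1 X | dseq p (res T ω) n = 0 ∧ DQPrime p (res T ω n) n} : ℝ)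
        ≤ (L + 2 * (L / ((k : ℝ) + 1))) * #{n ∈ Icc 1 X | dseq p (res T ω) n = 0} := by
    intro k
    obtain ⟨e1, e2⟩ := hε k
    obtain ⟨z₂, hz⟩ := SP e1
    exact AD (P := fun n => {f | DQPrime p (cur f n) n}) (fun n => ⟨_, dep_dq p n⟩)
      (q' := L + L / ((k : ℝ) + 1)) (by linarith) (by linarith) hz (by linarith)
  have h2 : ∀ k : ℕ, ∀ᵐ ω ∂μ, ∀ᶠ X : ℕ in atTop,
      (#{n ∈ Icc 1 X | dseq p (res T ω) n = 0 ∧ ¬ DQPrime p (res T ω n) n} : ℝ)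
        ≤ (1 - L + 2 * (L / ((k : ℝ) + 1))) * #{n ∈ Icc 1 X | dseq p (res T ω) n = 0} := by
    intro k
    obtain ⟨e1, e2⟩ := hε k
    obtain ⟨z₂, hz⟩ := SC e1
    obtain ⟨P, hP⟩ : ∃ P : ℕ → Set (ℕ × ℕ × ℕ → ℕ), ∀ n,
        P n = {f | ¬ DQPrime p (cur f n) n} := ⟨_, fun _ => rfl⟩
    have hm : ∀ n (f : ℕ × ℕ × ℕ → ℕ), f ∈ P n ↔ ¬ DQPrime p (cur f n) n := by
      intro n f
      rw [hP]
      exact Iff.rfl
    have := AD (P := P) (fun n => ⟨_, by rw [hP]; exact dep_q p n⟩)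
      (q' := 1 - L + L / ((k : ℝ) + 1)) (by linarith) (by linarith) (z₂ := z₂)
      (fun z hzz n R A hA => by
        have := hz z hzz n R A hA
        simp only [hm]
        exact this)
      (α := 1 - L + 2 * (L / ((k : ℝ) + 1))) (by linarith)
    filter_upwards [this] with ω hω
    filter_upwards [hω] with X hX
    refine le_trans (Nat.cast_le.2 (card_le_card fun n hn => ?_)) hX
    obtain ⟨a1, a2, a3⟩ := mem_filter.1 hn
    exact mem_filter.2 ⟨a1, a2, (hm n _).2 a3⟩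
  filter_upwards [ae_all_iff.2 h1, ae_all_iff.2 h2, all_good hp h] with ω ha hb hg
  obtain ⟨N, hN⟩ := dnprime_of_good hp1 hg
  rw [Metric.tendsto_nhds]
  intro δ hδ
  obtain ⟨k, hk⟩ := exists_nat_gt (3 * L / δ)
  obtain ⟨e1, e2⟩ := hε k
  have hkδ : 3 * (L / ((k : ℝ) + 1)) < δ := by
    rw [div_lt_iff₀ hδ] at hk
    rw [← mul_div_assoc, div_lt_iff₀ (by positivity)]
    nlinarith
  set ε : ℝ := L / ((k : ℝ) + 1) with hεdef
  filter_upwards [ha k, hb k, (ZT (res T ω)).eventually_ge_atTop ((N : ℝ) / ε),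
    (ZT (res T ω)).eventually_gt_atTop 0] with X x1 x2 x3 x4
  rw [div_le_iff₀ e1] at x3
  have c1 : #{n ∈ Icc 1 X | dseq p (res T ω) n = 0 ∧ DNPrime (res T ω n) n ∧
      DQPrime p (res T ω n) n} ≤
      #{n ∈ Icc 1 X | dseq p (res T ω) n = 0 ∧ DQPrime p (res T ω n) n} := by
    refine card_le_card fun n hn => ?_
    obtain ⟨a1, a2, a3, a4⟩ := mem_filter.1 hn
    exact mem_filter.2 ⟨a1, a2, a4⟩
  have c2 : #{n ∈ Icc 1 X | dseq p (res T ω) n = 0 ∧ DQPrime p (res T ω n) n} ≤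
      #{n ∈ Icc 1 X | dseq p (res T ω) n = 0 ∧ DNPrime (res T ω n) n ∧
        DQPrime p (res T ω n) n} + N := by
    have hs : {n ∈ Icc 1 X | dseq p (res T ω) n = 0 ∧ DQPrime p (res T ω n) n} ⊆
        {n ∈ Icc 1 X | dseq p (res T ω) n = 0 ∧ DNPrime (res T ω n) n ∧
          DQPrime p (res T ω n) n} ∪ range N := by
      intro n hn
      obtain ⟨a1, a2, a3⟩ := mem_filter.1 hn
      by_cases hnN : n < N
      · exact mem_union_right _ (mem_range.2 hnN)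
      · exact mem_union_left _ (mem_filter.2 ⟨a1, a2, hN n (not_lt.1 hnN) a2, a3⟩)
    refine (card_le_card hs).trans ((card_union_le _ _).trans ?_)
    rw [card_range]
  have c3 : #{n ∈ Icc 1 X | dseq p (res T ω) n = 0} ≤
      #{n ∈ Icc 1 X | dseq p (res T ω) n = 0 ∧ DQPrime p (res T ω n) n} +
        #{n ∈ Icc 1 X | dseq p (res T ω) n = 0 ∧ ¬ DQPrime p (res T ω n) n} := by
    refine le_trans (card_le_card fun n hn => ?_) (card_union_le _ _)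
    obtain ⟨a1, a2⟩ := mem_filter.1 hn
    by_cases hq : DQPrime p (res T ω n) n
    · exact mem_union_left _ (mem_filter.2 ⟨a1, a2, hq⟩)
    · exact mem_union_right _ (mem_filter.2 ⟨a1, a2, hq⟩)
  have c1' : (#{n ∈ Icc 1 X | dseq p (res T ω) n = 0 ∧ DNPrime (res T ω n) n ∧
      DQPrime p (res T ω n) n} : ℝ) ≤
      #{n ∈ Icc 1 X | dseq p (res T ω) n = 0 ∧ DQPrime p (res T ω n) n} := Nat.cast_le.2 c1
  have c2' : (#{n ∈ Icc 1 X | dseq p (res T ω) n = 0 ∧ DQPrime p (res T ω n) n} : ℝ) ≤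
      #{n ∈ Icc 1 X | dseq p (res T ω) n = 0 ∧ DNPrime (res T ω n) n ∧
        DQPrime p (res T ω n) n} + (N : ℝ) := by
    exact_mod_cast c2
  have c3' : (#{n ∈ Icc 1 X | dseq p (res T ω) n = 0} : ℝ) ≤
      #{n ∈ Icc 1 X | dseq p (res T ω) n = 0 ∧ DQPrime p (res T ω n) n} +
        (#{n ∈ Icc 1 X | dseq p (res T ω) n = 0 ∧ ¬ DQPrime p (res T ω n) n} : ℝ) := by
    exact_mod_cast c3
  rw [Real.dist_eq, abs_lt, lt_sub_iff_add_lt, sub_lt_iff_lt_add, lt_div_iff₀ x4,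
    div_lt_iff₀ x4]
  have hδZ := mul_lt_mul_of_pos_right hkδ x4
  constructor
  · nlinarith
  · nlinarith

end Pool.Agent.L5helper32.GP
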