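import Pool.Agent.L5helper32.GP.D.Defs
import Pool.Agent.L5helper2.GR.Chern

/-!
# The density of the zeros with a rare property
-/

set_option autoImplicit false

open Finset MeasureTheory ProbabilityTheory Filter Topology

namespace Pool.Agent.L5helper32.GP

open Pool.Agent.L5helper32.GR (Root w pr sg Dep lev q)

section orbit

variable {p : ℕ}

theorem orb_zero_spec (hp : 1 ≤ p) (T : ℕ → ℕ → ℕ → ℕ) {m : ℕ} (hm : 2 ≤ m) :
    m < orb p T m 0 ∧ dseq p T (orb p T m 0) = 0 ∧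
      ∀ n, m < n → n < orb p T m 0 → dseq p T n ≠ 0 := by
  have hne : {z | m < z ∧ dseq p T z = 0}.Nonempty := by
    obtain ⟨z, -, h1, h2, -⟩ := exists_FZ hp hm (fun i => T i.1 i.2.1 i.2.2)
    exact ⟨z, h1, h2⟩
  have h : orb p T m 0 ∈ {z | m < z ∧ dseq p T z = 0} := Nat.sInf_mem hne
  refine ⟨h.1, h.2, fun n h1 h2 h3 => ?_⟩
  exact Nat.notMem_of_lt_sInf (s := {z | m < z ∧ dseq p T z = 0}) h2 ⟨h1, h3⟩

theorem orb_spec (hp : 1 ≤ p) (T : ℕ → ℕ → ℕ → ℕ) {m : ℕ} (hm : 2 ≤ m) (j : ℕ) :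
    m < orb p T m j ∧ dseq p T (orb p T m j) = 0 := by
  induction j with
  | zero => exact ⟨(orb_zero_spec hp T hm).1, (orb_zero_spec hp T hm).2.1⟩
  | succ j ih =>
    have hlt : orb p T m j < nextZero p T (orb p T m j) := by unfold nextZero; omega
    exact ⟨ih.1.trans hlt, (dseq_next hp T (by omega) ih.2).1⟩

theorem orb_strictMono (T : ℕ → ℕ → ℕ → ℕ) (m : ℕ) : StrictMono (orb p T m) := by
  refine strictMono_nat_of_lt_succ fun j => ?_
  change orb p T m j < nextZero p T (orb p T m j)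
  unfold nextZero; omega

theorem orb_surj (hp : 1 ≤ p) (T : ℕ → ℕ → ℕ → ℕ) {m : ℕ} (hm : 2 ≤ m) (n : ℕ) (hn : m < n)
    (h0 : dseq p T n = 0) : ∃ j, orb p T m j = n := by
  classical
  have hex : ∃ j, n < orb p T m j :=
    ⟨n + 1, lt_of_lt_of_le (Nat.lt_succ_self n) (orb_strictMono T m).le_apply⟩
  obtain ⟨j, hj, hmin⟩ : ∃ j, n < orb p T m j ∧ ∀ i < j, ¬ n < orb p T m i :=
    ⟨Nat.find hex, Nat.find_spec hex, fun i hi => Nat.find_min hex hi⟩
  cases j with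
  | zero => exact absurd h0 ((orb_zero_spec hp T hm).2.2 n hn hj)
  | succ j =>
    have h1 := hmin j (Nat.lt_succ_self j)
    refine ⟨j, ?_⟩
    by_contra hne
    have h2 := orb_spec hp T hm j
    exact (dseq_next hp T (by omega) h2.2).2 n (by omega) hj h0

open Classical in
theorem orb_count_le (hp : 1 ≤ p) (T : ℕ → ℕ → ℕ → ℕ) {m : ℕ} (hm : 2 ≤ m) (Q : ℕ → Prop)
    (X : ℕ) :
    #{n ∈ Icc 1 X | dseq p T n = 0 ∧ Q n} ≤ m + 2 +
      #{k ∈ range (#{n ∈ Icc 1 X | dseq p T n = 0}) | Q (orb p T m (k + 2))} := by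
  set Z := #{n ∈ Icc 1 X | dseq p T n = 0} with hZ
  have hmono := orb_strictMono (p := p) T m
  have hj : ∀ j, orb p T m j ≤ X → j < Z := by
    intro j hjX
    have hsub : (range (j + 1)).image (orb p T m) ⊆ {n ∈ Icc 1 X | dseq p T n = 0} := by
      intro n hn
      obtain ⟨i, hi, rfl⟩ := mem_image.1 hn
      have h1 := orb_spec hp T hm i
      have h2 : orb p T m i ≤ orb p T m j := hmono.monotone (by
        have := mem_range.1 hi
        omega)
      exact mem_filter.2 ⟨mem_Icc.2 ⟨by omega, by omega⟩, h1.2⟩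
    have := card_le_card hsub
    rw [card_image_of_injective _ hmono.injective, card_range] at this
    omega
  have hsub : {n ∈ Icc 1 X | dseq p T n = 0 ∧ Q n} ⊆ (Icc 1 m ∪ {orb p T m 0, orb p T m 1}) ∪
      ({k ∈ range Z | Q (orb p T m (k + 2))}).image (fun k => orb p T m (k + 2)) := by
    intro n hn
    obtain ⟨h1, h2, h3⟩ := mem_filter.1 hn
    have h4 := mem_Icc.1 h1
    by_cases hnm : n ≤ m
    · exact mem_union_left _ (mem_union_left _ (mem_Icc.2 ⟨h4.1, hnm⟩))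
    · obtain ⟨j, rfl⟩ := orb_surj hp T hm n (by omega) h2
      rcases j with _ | _ | k
      · exact mem_union_left _ (mem_union_right _ (mem_insert_self _ _))
      · exact mem_union_left _ (mem_union_right _
          (mem_insert_of_mem (mem_singleton_self _)))
      · refine mem_union_right _ (mem_image.2 ⟨k, mem_filter.2 ⟨mem_range.2 ?_, h3⟩, rfl⟩)
        have := hj _ h4.2
        omega
  refine (card_le_card hsub).trans ?_
  refine (card_union_le _ _).trans (add_le_add ?_ card_image_le)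
  refine (card_union_le _ _).trans (add_le_add (by simp) card_le_two)

end orbit

variable {Ω : Type} [MeasurableSpace Ω] {μ : Measure Ω} [IsProbabilityMeasure μ]
  {T : ℕ × ℕ × ℕ → Ω → ℕ}

open Classical in
/-- D8: from `orb_bound`, `orb_meas`, `zeros_tendsto` (as hypotheses), `all_good` and
`Pool.Agent.L5helper2.GR.chern`. -/
theorem ae_density_of {p : ℕ} (hp : p.Prime) (h : Res μ T) {P : ℕ → Set (ℕ × ℕ × ℕ → ℕ)}
    {q' : ℝ} (hq : 0 ≤ q') (hq1 : q' ≤ 1) {z₂ : ℕ}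
    (hstep : ∀ z ≥ z₂, ∀ (n R : ℕ) (A : Set (ℕ × ℕ × ℕ → ℕ)),
      Dep (bx (range ((lev p z + 3) / 4)) R) A →
      Pr μ T (A ∩ {f | (GoodRun p (cur f) z ∧ nextZero p (cur f) z = n) ∧ f ∈ P n})
        ≤ q' * Pr μ T (A ∩ {f | GoodRun p (cur f) z ∧ nextZero p (cur f) z = n}))
    (OB : ∀ {z₂ : ℕ} (_ : 1 ≤ z₂)
      (_ : ∀ z ≥ z₂, ∀ (n R : ℕ) (A : Set (ℕ × ℕ × ℕ → ℕ)),
        Dep (bx (range ((lev p z + 3) / 4)) R) A →
        Pr μ T (A ∩ {f | (GoodRun p (cur f) z ∧ nextZero p (cur f) z = n) ∧ f ∈ P n})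
          ≤ q' * Pr μ T (A ∩ {f | GoodRun p (cur f) z ∧ nextZero p (cur f) z = n}))
      (_ : ∀ z ≥ z₂, ∀ n : ℕ, lev p z ≤ 4 * n → lev p z < (lev p n + 3) / 4 ∧ z < n)
      {m : ℕ} (_ : z₂ + 2 ≤ m) (S : Finset ℕ),
      μ (⋂ k ∈ S, {ω | (∀ j ≤ k + 1, GoodRun p (res T ω) (orb p (res T ω) m j)) ∧
        (fun i => T i ω) ∈ P (orb p (res T ω) m (k + 2))}) ≤ ENNReal.ofReal q' ^ S.card)
    (OM : ∀ {m : ℕ} (_ : 2 ≤ m) (k : ℕ),
      MeasurableSet {ω | (∀ j ≤ k + 1, GoodRun p (res T ω) (orb p (res T ω) m j)) ∧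
        (fun i => T i ω) ∈ P (orb p (res T ω) m (k + 2))})
    (ZT : ∀ T : ℕ → ℕ → ℕ → ℕ,
      Tendsto (fun X : ℕ => (#{n ∈ Icc 1 X | dseq p T n = 0} : ℝ)) atTop atTop)
    {α : ℝ} (hα : q' < α) :
    ∀ᵐ ω ∂μ, ∀ᶠ X : ℕ in atTop,
      (#{n ∈ Icc 1 X | dseq p (res T ω) n = 0 ∧ (fun i => T i ω) ∈ P n} : ℝ)
        ≤ α * #{n ∈ Icc 1 X | dseq p (res T ω) n = 0} := by
  have hp1 : 1 ≤ p := hp.one_lt.le
  obtain ⟨z₄, hlev⟩ := GR.lev_good hp.two_le
  set Z := max (max z₂ 1) z₄ with hZ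
  have hZ1 : z₂ ≤ Z := (le_max_left _ _).trans (le_max_left _ _)
  have hZ2 : 1 ≤ Z := (le_max_right _ _).trans (le_max_left _ _)
  have hZ3 : z₄ ≤ Z := le_max_right _ _
  obtain ⟨α', h1, h2⟩ := exists_between hα
  obtain ⟨G, hG⟩ : ∃ G : ℕ → ℕ → Set Ω, ∀ m k, G m k =
      {ω | (∀ j ≤ k + 1, GoodRun p (res T ω) (orb p (res T ω) m j)) ∧
        (fun i => T i ω) ∈ P (orb p (res T ω) m (k + 2))} := ⟨_, fun _ _ => rfl⟩
  have key : ∀ m : ℕ, Z + 2 ≤ m → ∀ᵐ ω ∂μ, ∀ᶠ K : ℕ in atTop,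
      (((range K).filter (fun k => ω ∈ G m k)).card : ℝ) ≤ α' * K := by
    intro m hm
    refine Pool.Agent.L5helper2.GR.chern (G m) (fun k => ?_) hq hq1 (fun S => ?_) h1
    · rw [hG]
      exact OM (by omega) k
    · simp only [hG]
      exact OB hZ2 (fun z hz => hstep z (hZ1.trans hz)) (fun z hz => hlev z (hZ3.trans hz))
        hm S
  have key2 : ∀ᵐ ω ∂μ, ∀ m : ℕ, Z + 2 ≤ m → ∀ᶠ K : ℕ in atTop,
      (((range K).filter (fun k => ω ∈ G m k)).card : ℝ) ≤ α' * K := by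
    rw [ae_all_iff]
    intro m
    by_cases hm : Z + 2 ≤ m
    · filter_upwards [key m hm] with ω hω _
      exact hω
    · exact Eventually.of_forall fun ω hm' => absurd hm' hm
  filter_upwards [key2, all_good hp h] with ω h3 h4
  obtain ⟨N, hN⟩ := eventually_atTop.1 h4
  obtain ⟨m, hm1, hm2⟩ : ∃ m, Z + 2 ≤ m ∧ N ≤ m :=
    ⟨max (Z + 2) N, le_max_left _ _, le_max_right _ _⟩
  have h5 := h3 m hm1
  have hZT := ZT (res T ω)
  have h6 := (tendsto_natCast_atTop_iff.1 hZT).eventually h5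
  have h7 := hZT.eventually_ge_atTop (((m : ℝ) + 2) / (α - α'))
  filter_upwards [h6, h7] with X h8 h9
  have h10 := orb_count_le hp1 (res T ω) (m := m) (by omega) (fun n => (fun i => T i ω) ∈ P n) X
  set Y := #{n ∈ Icc 1 X | dseq p (res T ω) n = 0} with hY
  have h11 : ∀ k, ω ∈ G m k ↔ (fun i => T i ω) ∈ P (orb p (res T ω) m (k + 2)) := by
    intro k
    rw [hG]
    refine ⟨fun hh => hh.2, fun hh => ⟨fun j _ => ?_, hh⟩⟩
    have := orb_spec hp1 (res T ω) (m := m) (by omega) j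
    exact hN _ (by omega) this.2
  have h12 : #{k ∈ range Y | (fun i => T i ω) ∈ P (orb p (res T ω) m (k + 2))} =
      ((range Y).filter (fun k => ω ∈ G m k)).card := by
    congr 1
    exact filter_congr fun k _ => (h11 k).symm
  rw [h12] at h10
  have h13 : (#{n ∈ Icc 1 X | dseq p (res T ω) n = 0 ∧ (fun i => T i ω) ∈ P n} : ℝ) ≤
      m + 2 + α' * Y := by
    refine le_trans (Nat.cast_le.2 h10) ?_
    push_cast
    linarith
  rw [div_le_iff₀ (by linarith)] at h9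
  linarith

end Pool.Agent.L5helper32.GP
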