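import Pool.Agent.L5helper32.GR.Seq
import Pool.Agent.L5helper32.GR.ZeroOne

set_option autoImplicit false

open Finset MeasureTheory ProbabilityTheory

namespace Pool.Agent.L5helper32.GR

variable {Ω : Type} [MeasurableSpace Ω] {μ : Measure Ω} [IsProbabilityMeasure μ]
  {T : ℕ × ℕ → Ω → ℕ}

/-- Infinitely many zeros with a property which has conditional probability at least `c`. -/
theorem inf_often {p : ℕ} (hp : p.Prime) (h : Res μ T) {H : ℕ → Set (ℕ × ℕ → ℕ)}
    (hH : ∀ z, MeasurableSet (H z)) {c : ℝ} (hc : 0 < c) {z₁ : ℕ}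
    (hP : ∀ z ≥ z₁, ∀ (R : ℕ) (A : Set (ℕ × ℕ → ℕ)), Dep (range (lev p (z - 1) + 1) ×ˢ range R) A →
      c * Pr μ T A ≤ Pr μ T (A ∩ H z)) :
    ∀ᵐ ω ∂μ, ∃ᶠ z in Filter.atTop, seq p (res T ω) z = 0 ∧ (fun i => T i ω) ∈ H z := by
  classical
  have hp1 : 1 ≤ p := hp.one_lt.le
  have hF : Measurable (fun (ω : Ω) (i : ℕ × ℕ) => T i ω) := measurable_pi_lambda _ fun i => h.meas i
  have hPr : ∀ A : Set (ℕ × ℕ → ℕ), Pr μ T A = μ.real ((fun (ω : Ω) (i : ℕ × ℕ) => T i ω) ⁻¹' A) :=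
    fun A => rfl
  have hE : ∀ m : ℕ, MeasurableSet {f : ℕ × ℕ → ℕ | ∃ z ≥ m, seq p (cur f) z = 0 ∧ f ∈ H z} := by
    intro m
    have e : {f : ℕ × ℕ → ℕ | ∃ z ≥ m, seq p (cur f) z = 0 ∧ f ∈ H z} =
        ⋃ z : ℕ, ⋃ _ : z ≥ m, ({f | seq p (cur f) z = 0} ∩ H z) := by
      ext f
      simp only [Set.mem_ofPred_eq, Set.mem_iUnion, Set.mem_inter_iff, exists_prop]
    rw [e]
    exact MeasurableSet.iUnion fun z => MeasurableSet.iUnion fun _ =>
      (dep_measurable (dep_seq hp1 z)).inter (hH z)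
  have key : ∀ m : ℕ, ∀ᵐ ω ∂μ, (fun i => T i ω) ∈
      {f : ℕ × ℕ → ℕ | ∃ z ≥ m, seq p (cur f) z = 0 ∧ f ∈ H z} := by
    intro m
    refine zero_one h.meas (hE m) hc fun m0 B hB => ?_
    set M := max m0 (max m (max z₁ 2)) with hM
    have hM0 : m0 ≤ M := le_max_left _ _
    have hM1 : m ≤ M := (le_max_left _ _).trans (le_max_right _ _)
    have hM2 : z₁ ≤ M := (le_max_left _ _).trans ((le_max_right _ _).trans (le_max_right _ _))
    have hM3 : 2 ≤ M := (le_max_right _ _).trans ((le_max_right _ _).trans (le_max_right _ _))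
    -- the pieces
    have hdep : ∀ z ∈ Ioc M (lev p M),
        Dep (range (lev p (z - 1) + 1) ×ˢ range (max m0 (lev p (z - 1) + 1))) (B ∩ FZ p M z) := by
      intro z hz f g hfg
      have hz1 := (mem_Ioc.1 hz).1
      have hlev : m0 ≤ lev p (z - 1) + 1 := by
        unfold lev
        have : 0 ≤ (z - 1 + 1) ^ p := Nat.zero_le _
        omega
      have h1 := hB f g fun i hi => hfg i (by
        rw [mem_product, mem_range, mem_range] at hi ⊢
        exact ⟨by omega, lt_of_lt_of_le hi.2 (le_max_left _ _)⟩)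
      have h2 := dep_FZ hp1 M z f g fun i hi => hfg i (by
        rw [mem_product, mem_range, mem_range] at hi ⊢
        exact ⟨hi.1, lt_of_lt_of_le hi.2 (le_max_right _ _)⟩)
      exact and_congr h1 h2
    have hmeas : ∀ z ∈ Ioc M (lev p M), MeasurableSet (B ∩ FZ p M z) :=
      fun z hz => dep_measurable (hdep z hz)
    have hdisj : ∀ z ∈ Ioc M (lev p M), ∀ z' ∈ Ioc M (lev p M), z ≠ z' →
        Disjoint (B ∩ FZ p M z) (B ∩ FZ p M z') := by
      intro z _ z' _ hne
      rw [Set.disjoint_left]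
      rintro f ⟨-, h1⟩ ⟨-, h2⟩
      exact hne (FZ_unique h1 h2)
    have hsum : Pr μ T B = ∑ z ∈ Ioc M (lev p M), Pr μ T (B ∩ FZ p M z) := by
      have e : (fun (ω : Ω) (i : ℕ × ℕ) => T i ω) ⁻¹' B = ⋃ z ∈ Ioc M (lev p M),
          (fun (ω : Ω) (i : ℕ × ℕ) => T i ω) ⁻¹' (B ∩ FZ p M z) := by
        ext ω
        simp only [Set.mem_iUnion, Set.mem_preimage, exists_prop]
        constructor
        · intro hω
          obtain ⟨z, hz, hz2⟩ := exists_FZ hp1 hM3 (fun i => T i ω)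
          exact ⟨z, hz, hω, hz2⟩
        · rintro ⟨z, -, h1, -⟩
          exact h1
      rw [hPr, e, measureReal_biUnion_finset]
      · rfl
      · intro z hz z' hz' hne
        exact (hdisj z (by simpa using hz) z' (by simpa using hz') hne).preimage _
      · exact fun z hz => hF (hmeas z hz)
    have hsum2 : ∑ z ∈ Ioc M (lev p M), Pr μ T (B ∩ FZ p M z ∩ H z) ≤
        Pr μ T (B ∩ {f : ℕ × ℕ → ℕ | ∃ z ≥ m, seq p (cur f) z = 0 ∧ f ∈ H z}) := by
      have e : ∑ z ∈ Ioc M (lev p M), Pr μ T (B ∩ FZ p M z ∩ H z) =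
          μ.real (⋃ z ∈ Ioc M (lev p M),
            (fun (ω : Ω) (i : ℕ × ℕ) => T i ω) ⁻¹' (B ∩ FZ p M z ∩ H z)) := by
        rw [measureReal_biUnion_finset]
        · rfl
        · intro z hz z' hz' hne
          exact ((hdisj z (by simpa using hz) z' (by simpa using hz') hne).mono
            Set.inter_subset_left Set.inter_subset_left).preimage _
        · exact fun z hz => hF ((hmeas z hz).inter (hH z))
      rw [e, hPr]
      refine measureReal_mono ?_
      intro ω hω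
      simp only [Set.mem_iUnion, Set.mem_preimage, exists_prop] at hω
      obtain ⟨z, hz, ⟨h1, h2⟩, h3⟩ := hω
      exact ⟨h1, z, by
        have := (mem_Ioc.1 hz).1
        omega, h2.2.1, h3⟩
    rw [hsum, mul_sum]
    refine le_trans (Finset.sum_le_sum fun z hz => ?_) hsum2
    exact hP z (by
      have := (mem_Ioc.1 hz).1
      omega) _ _ (hdep z hz)
  have hall := ae_all_iff.2 key
  filter_upwards [hall] with ω hω
  rw [Filter.frequently_atTop]
  intro m
  obtain ⟨z, hz, h1, h2⟩ := hω m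
  exact ⟨z, hz, h1, h2⟩

end Pool.Agent.L5helper32.GR
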