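import Mathlib

/-!
# Tools for repeated degrees in random uniform hypergraphs

Variance of the number of members of a random subset, lower bounds for binomial coefficients near
the middle, and a product decomposition.
-/

set_option autoImplicit false

namespace Pool.Agent.L5helper41.RDeg

open Finset

/-- second moment of the number of members with property `p` of a random subset of `E` -/
lemma sum_sq {α : Type*} [DecidableEq α] (p : α → Prop) [DecidablePred p] (E : Finset α) :
    ∑ H ∈ E.powerset, (((H.filter p).card : ℝ) - ((E.filter p).card : ℝ) / 2) ^ 2 =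
      2 ^ E.card * ((E.filter p).card : ℝ) / 4 := by
  induction E using Finset.induction_on with
  | empty => simp
  | insert a E ha ih =>
    rw [sum_powerset_insert ha, card_insert_of_notMem ha]
    by_cases hp : p a
    · have h1 : ∀ H ∈ E.powerset, ((((insert a H).filter p).card : ℝ) -
          (((insert a E).filter p).card : ℝ) / 2) ^ 2 =
          (((H.filter p).card : ℝ) - ((E.filter p).card : ℝ) / 2 + 1 / 2) ^ 2 := by
        intro H hH
        have haH : a ∉ H := fun h => ha (mem_powerset.1 hH h)
        rw [filter_insert, if_pos hp, filter_insert, if_pos hp, card_insert_of_notMem,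
          card_insert_of_notMem]
        · push_cast; ring
        · intro h; exact ha (mem_filter.1 h).1
        · intro h; exact haH (mem_filter.1 h).1
      have h2 : ∀ H ∈ E.powerset, (((H.filter p).card : ℝ) -
          (((insert a E).filter p).card : ℝ) / 2) ^ 2 =
          (((H.filter p).card : ℝ) - ((E.filter p).card : ℝ) / 2 - 1 / 2) ^ 2 := by
        intro H hH
        rw [filter_insert, if_pos hp, card_insert_of_notMem]
        · push_cast; ring
        · intro h; exact ha (mem_filter.1 h).1
      rw [sum_congr rfl h1, sum_congr rfl h2, ← sum_add_distrib]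
      have h3 : ∀ H ∈ E.powerset, (((H.filter p).card : ℝ) - ((E.filter p).card : ℝ) / 2 - 1 / 2) ^ 2 +
          (((H.filter p).card : ℝ) - ((E.filter p).card : ℝ) / 2 + 1 / 2) ^ 2 =
          2 * (((H.filter p).card : ℝ) - ((E.filter p).card : ℝ) / 2) ^ 2 + 1 / 2 := by
        intro H _; ring
      rw [sum_congr rfl h3, sum_add_distrib, ← mul_sum, ih, sum_const, card_powerset,
        filter_insert, if_pos hp, card_insert_of_notMem (fun h => ha (mem_filter.1 h).1)]
      push_cast
      rw [nsmul_eq_mul]
      push_cast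
      ring
    · have h1 : ∀ H ∈ E.powerset, ((((insert a H).filter p).card : ℝ) -
          (((insert a E).filter p).card : ℝ) / 2) ^ 2 =
          (((H.filter p).card : ℝ) - ((E.filter p).card : ℝ) / 2) ^ 2 := by
        intro H _
        rw [filter_insert, if_neg hp, filter_insert, if_neg hp]
      have h2 : ∀ H ∈ E.powerset, (((H.filter p).card : ℝ) -
          (((insert a E).filter p).card : ℝ) / 2) ^ 2 =
          (((H.filter p).card : ℝ) - ((E.filter p).card : ℝ) / 2) ^ 2 := by
        intro H _
        rw [filter_insert, if_neg hp]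
      rw [sum_congr rfl h1, sum_congr rfl h2, ih, filter_insert, if_neg hp]
      ring

/-- Chebyshev -/
lemma card_far {α : Type*} [DecidableEq α] (p : α → Prop) [DecidablePred p] (E : Finset α) (L : ℝ)
    (hL : 0 < L) :
    ((E.powerset.filter (fun H => L < |((H.filter p).card : ℝ) - ((E.filter p).card : ℝ) / 2|)).card : ℝ) *
      L ^ 2 ≤ 2 ^ E.card * ((E.filter p).card : ℝ) / 4 := by
  rw [← sum_sq p E]
  calc ((E.powerset.filter (fun H => L < |((H.filter p).card : ℝ) - ((E.filter p).card : ℝ) / 2|)).card : ℝ) *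
      L ^ 2 = ∑ H ∈ E.powerset.filter
        (fun H => L < |((H.filter p).card : ℝ) - ((E.filter p).card : ℝ) / 2|), L ^ 2 := by
        rw [sum_const, nsmul_eq_mul]
    _ ≤ ∑ H ∈ E.powerset.filter
        (fun H => L < |((H.filter p).card : ℝ) - ((E.filter p).card : ℝ) / 2|),
          (((H.filter p).card : ℝ) - ((E.filter p).card : ℝ) / 2) ^ 2 := by
        apply sum_le_sum
        intro H hH
        rw [mem_filter] at hH
        rw [← sq_abs (((H.filter p).card : ℝ) - ((E.filter p).card : ℝ) / 2)]
        exact pow_le_pow_left₀ hL.le hH.2.le 2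
    _ ≤ _ := by
        apply sum_le_sum_of_subset_of_nonneg (filter_subset _ _)
        intro _ _ _
        positivity

/-- the middle binomial coefficient -/
lemma middle (M : ℕ) (hM : 1 ≤ M) : (2 : ℝ) ^ M ≤ 4 * Real.sqrt M * (M.choose (M / 2) : ℝ) := by
  classical
  have hs : 1 ≤ Real.sqrt M := by
    rw [Real.one_le_sqrt]
    exact_mod_cast hM
  have hss : Real.sqrt M ^ 2 = M := Real.sq_sqrt (by positivity)
  set E : Finset (Fin M) := univ with hE
  have hEc : E.card = M := by simp [hE]
  have hfE : (E.filter (fun _ => True)).card = M := by simp [hE]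
  have h1 := card_far (fun _ : Fin M => True) E (Real.sqrt M) (by linarith)
  rw [hfE, hEc, hss] at h1
  have hMr : (1 : ℝ) ≤ M := by exact_mod_cast hM
  -- at most a quarter is far
  have h2 : ((E.powerset.filter (fun H => Real.sqrt M <
      |((H.filter (fun _ => True)).card : ℝ) - (M : ℝ) / 2|)).card : ℝ) ≤ 2 ^ M / 4 := by
    have : (0 : ℝ) < M := by linarith
    rw [← mul_le_mul_iff_left₀ this]
    linarith
  -- split
  have h3 : (E.powerset.filter (fun H => Real.sqrt M <
      |((H.filter (fun _ => True)).card : ℝ) - (M : ℝ) / 2|)).card +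
      (E.powerset.filter (fun H => ¬ Real.sqrt M <
      |((H.filter (fun _ => True)).card : ℝ) - (M : ℝ) / 2|)).card = 2 ^ M := by
    rw [card_filter_add_card_filter_not, card_powerset, hEc]
  have h4 : ((E.powerset.filter (fun H => ¬ Real.sqrt M <
      |((H.filter (fun _ => True)).card : ℝ) - (M : ℝ) / 2|)).card : ℝ) ≤
      (2 * Real.sqrt M + 1) * (M.choose (M / 2) : ℝ) := by
    set J : Finset ℕ := Finset.Icc ⌈(M : ℝ) / 2 - Real.sqrt M⌉₊ ⌊(M : ℝ) / 2 + Real.sqrt M⌋₊ with hJ
    have h5 : E.powerset.filter (fun H => ¬ Real.sqrt M <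
        |((H.filter (fun _ => True)).card : ℝ) - (M : ℝ) / 2|) ⊆
        J.biUnion (fun j => E.powersetCard j) := by
      intro H hH
      rw [mem_filter, not_lt, filter_true_of_mem (fun _ _ => trivial), abs_le] at hH
      rw [mem_biUnion]
      refine ⟨H.card, ?_, ?_⟩
      · rw [hJ, Finset.mem_Icc]
        constructor
        · rw [Nat.ceil_le]; linarith [hH.2.1]
        · rw [Nat.le_floor_iff (by positivity)]; linarith [hH.2.2]
      · rw [mem_powersetCard]
        exact ⟨mem_powerset.1 hH.1, rfl⟩
    have h6 : (E.powerset.filter (fun H => ¬ Real.sqrt M <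
        |((H.filter (fun _ => True)).card : ℝ) - (M : ℝ) / 2|)).card ≤ J.card * M.choose (M / 2) := by
      refine (card_le_card h5).trans (card_biUnion_le_card_mul _ _ _ ?_)
      intro j _
      rw [card_powersetCard, hEc]
      exact Nat.choose_le_middle j M
    have h7 : (J.card : ℝ) ≤ 2 * Real.sqrt M + 1 := by
      rw [hJ, Nat.card_Icc]
      have h8 : (⌊(M : ℝ) / 2 + Real.sqrt M⌋₊ : ℝ) ≤ (M : ℝ) / 2 + Real.sqrt M :=
        Nat.floor_le (by positivity)
      have h9 : (M : ℝ) / 2 - Real.sqrt M ≤ (⌈(M : ℝ) / 2 - Real.sqrt M⌉₊ : ℝ) := Nat.le_ceil _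
      rcases Nat.le_total (⌊(M : ℝ) / 2 + Real.sqrt M⌋₊ + 1) ⌈(M : ℝ) / 2 - Real.sqrt M⌉₊ with h | h
      · rw [Nat.sub_eq_zero_of_le h]
        simp only [Nat.cast_zero]
        positivity
      · rw [Nat.cast_sub h]
        push_cast
        linarith
    have h10 : (0 : ℝ) ≤ (M.choose (M / 2) : ℝ) := by positivity
    calc _ ≤ (J.card : ℝ) * (M.choose (M / 2) : ℝ) := by exact_mod_cast h6
      _ ≤ _ := mul_le_mul_of_nonneg_right h7 h10
  have h5 : ((E.powerset.filter (fun H => Real.sqrt M <
      |((H.filter (fun _ => True)).card : ℝ) - (M : ℝ) / 2|)).card : ℝ) +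
      ((E.powerset.filter (fun H => ¬ Real.sqrt M <
      |((H.filter (fun _ => True)).card : ℝ) - (M : ℝ) / 2|)).card : ℝ) = 2 ^ M := by
    exact_mod_cast h3
  have h10 : (0 : ℝ) ≤ (M.choose (M / 2) : ℝ) := by positivity
  have h11 : (2 * Real.sqrt M + 1) * (M.choose (M / 2) : ℝ) ≤
      (3 * Real.sqrt M) * (M.choose (M / 2) : ℝ) :=
    mul_le_mul_of_nonneg_right (by linarith) h10
  linarith

end Pool.Agent.L5helper41.RDeg
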