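import Mathlib
import Pool.Agent.L5helper41.RDeg1

/-!
# Lower bound for binomial coefficients near the middle
-/

set_option autoImplicit false

namespace Pool.Agent.L5helper41.RDeg

open Finset

lemma exp_le_one_sub (x : ℝ) (h0 : 0 ≤ x) (h1 : x ≤ 1 / 2) : Real.exp (-(2 * x)) ≤ 1 - x := by
  have h2 : 1 / (1 - x) ≤ Real.exp (2 * x) := by
    have h3 : 1 / (1 - x) ≤ 2 * x + 1 := by
      rw [div_le_iff₀ (by linarith)]
      nlinarith
    exact h3.trans (Real.add_one_le_exp _)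
  rw [Real.exp_neg, inv_le_comm₀ (Real.exp_pos _) (by linarith), ← one_div]
  exact h2

lemma upper_side (K : ℝ) (hK : 1 ≤ K) (M : ℕ) (hM : 8 * K ≤ Real.sqrt M) (t : ℕ)
    (ht : ((M / 2 + t : ℕ) : ℝ) - (M : ℝ) / 2 ≤ K * Real.sqrt M) :
    (M.choose (M / 2) : ℝ) * (1 - 4 * K / Real.sqrt M) ^ t ≤ (M.choose (M / 2 + t) : ℝ) := by
  have hs : 0 < Real.sqrt M := by linarith
  have hss : Real.sqrt M * Real.sqrt M = M := Real.mul_self_sqrt (by positivity)
  have hx : 4 * K / Real.sqrt M ≤ 1 / 2 := by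
    rw [div_le_iff₀ hs]; linarith
  induction t with
  | zero => simp
  | succ t ih =>
    have ht' : ((M / 2 + t : ℕ) : ℝ) + 1 - (M : ℝ) / 2 ≤ K * Real.sqrt M := by
      have : ((M / 2 + (t + 1) : ℕ) : ℝ) = ((M / 2 + t : ℕ) : ℝ) + 1 := by push_cast; ring
      rw [this] at ht
      exact ht
    have ih' := ih (by linarith)
    set i : ℕ := M / 2 + t with hi
    have hiM : i ≤ M := by
      have : (i : ℝ) ≤ M := by nlinarith
      exact_mod_cast this
    have h1 : M.choose (i + 1) * (i + 1) = M.choose i * (M - i) := Nat.choose_succ_right_eq M i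
    have h2 : (M.choose (i + 1) : ℝ) * ((i : ℝ) + 1) = (M.choose i : ℝ) * ((M : ℝ) - i) := by
      rw [← Nat.cast_sub hiM]
      exact_mod_cast h1
    have h3 : (1 - 4 * K / Real.sqrt M) * ((i : ℝ) + 1) ≤ (M : ℝ) - i := by
      have h4 : (i : ℝ) + 1 ≤ (M : ℝ) / 2 + K * Real.sqrt M := by linarith
      have h5 : (1 - 4 * K / Real.sqrt M) * ((i : ℝ) + 1) ≤
          (1 - 4 * K / Real.sqrt M) * ((M : ℝ) / 2 + K * Real.sqrt M) :=
        mul_le_mul_of_nonneg_left h4 (by linarith)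
      have h6 : (1 - 4 * K / Real.sqrt M) * ((M : ℝ) / 2 + K * Real.sqrt M) =
          (M : ℝ) / 2 - K * Real.sqrt M - 4 * K * K := by
        have e1 : 4 * K / Real.sqrt M * (M : ℝ) = 4 * K * Real.sqrt M := by
          rw [div_mul_eq_mul_div, div_eq_iff hs.ne', ← hss]
          rw [Real.sqrt_mul_self hs.le]
          ring
        have e2 : 4 * K / Real.sqrt M * (K * Real.sqrt M) = 4 * K * K := by
          field_simp
        linear_combination (-1 / 2) * e1 - e2
      nlinarith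
    have h7 : (0 : ℝ) < (i : ℝ) + 1 := by positivity
    have h8 : (0 : ℝ) ≤ (M.choose i : ℝ) := by positivity
    have h9 : (M.choose i : ℝ) * (1 - 4 * K / Real.sqrt M) ≤ (M.choose (i + 1) : ℝ) := by
      rw [← mul_le_mul_iff_left₀ h7, h2, mul_assoc]
      exact mul_le_mul_of_nonneg_left h3 h8
    calc (M.choose (M / 2) : ℝ) * (1 - 4 * K / Real.sqrt M) ^ (t + 1) =
        ((M.choose (M / 2) : ℝ) * (1 - 4 * K / Real.sqrt M) ^ t) * (1 - 4 * K / Real.sqrt M) := by
          ring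
      _ ≤ (M.choose i : ℝ) * (1 - 4 * K / Real.sqrt M) :=
          mul_le_mul_of_nonneg_right ih' (by linarith)
      _ ≤ _ := h9

/-- binomial coefficients near the middle are at least a constant times `2^M / √M` -/
lemma binom_lower (K : ℝ) (hK : 1 ≤ K) : ∃ β : ℝ, 0 < β ∧ ∀ M : ℕ, 8 * K ≤ Real.sqrt M →
    ∀ j : ℕ, |(j : ℝ) - (M : ℝ) / 2| ≤ K * Real.sqrt M →
      β * 2 ^ M ≤ Real.sqrt M * (M.choose j : ℝ) := by
  refine ⟨Real.exp (-(8 * K ^ 2 + 1)) / 4, by positivity, fun M hM j hj => ?_⟩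
  have hs : 0 < Real.sqrt M := by linarith
  have hss : Real.sqrt M * Real.sqrt M = M := Real.mul_self_sqrt (by positivity)
  have hM1 : 1 ≤ M := by
    by_contra h
    have : M = 0 := by omega
    subst this
    simp at hs
  -- the upper side
  have key : ∀ j : ℕ, M / 2 ≤ j → (j : ℝ) - (M : ℝ) / 2 ≤ K * Real.sqrt M →
      Real.exp (-(8 * K ^ 2 + 1)) / 4 * 2 ^ M ≤ Real.sqrt M * (M.choose j : ℝ) := by
    intro j hj1 hj2
    obtain ⟨t, rfl⟩ := Nat.exists_eq_add_of_le hj1
    have h1 := upper_side K hK M hM t hj2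
    have hx : 4 * K / Real.sqrt M ≤ 1 / 2 := by
      rw [div_le_iff₀ hs]; linarith
    have hx0 : 0 ≤ 4 * K / Real.sqrt M := by positivity
    have h2 : Real.exp (-(8 * K ^ 2 + 1)) ≤ (1 - 4 * K / Real.sqrt M) ^ t := by
      have h3 := pow_le_pow_left₀ (Real.exp_pos _).le (exp_le_one_sub _ hx0 hx) t
      refine le_trans ?_ h3
      rw [← Real.exp_nat_mul]
      apply Real.exp_le_exp.2
      have h4 : (t : ℝ) ≤ K * Real.sqrt M + 1 / 2 := by
        have h5 : (M : ℝ) ≤ 2 * ((M / 2 : ℕ) : ℝ) + 1 := by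
          have : M ≤ 2 * (M / 2) + 1 := by omega
          exact_mod_cast this
        push_cast at hj2
        linarith
      have h6 : (t : ℝ) * (4 * K / Real.sqrt M) ≤ (K * Real.sqrt M + 1 / 2) * (4 * K / Real.sqrt M) :=
        mul_le_mul_of_nonneg_right h4 hx0
      have h7 : (K * Real.sqrt M + 1 / 2) * (4 * K / Real.sqrt M) =
          4 * K ^ 2 + (4 * K / Real.sqrt M) / 2 := by
        field_simp
      linarith
    have h8 := middle M hM1
    have h9 : (0 : ℝ) ≤ (M.choose (M / 2) : ℝ) := by positivity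
    calc Real.exp (-(8 * K ^ 2 + 1)) / 4 * 2 ^ M ≤
        Real.exp (-(8 * K ^ 2 + 1)) / 4 * (4 * Real.sqrt M * (M.choose (M / 2) : ℝ)) :=
          mul_le_mul_of_nonneg_left h8 (by positivity)
      _ = Real.sqrt M * ((M.choose (M / 2) : ℝ) * Real.exp (-(8 * K ^ 2 + 1))) := by ring
      _ ≤ Real.sqrt M * ((M.choose (M / 2) : ℝ) * (1 - 4 * K / Real.sqrt M) ^ t) := by
          apply mul_le_mul_of_nonneg_left _ hs.le
          exact mul_le_mul_of_nonneg_left h2 h9
      _ ≤ _ := mul_le_mul_of_nonneg_left h1 hs.le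
  rw [abs_le] at hj
  rcases Nat.le_total (M / 2) j with h | h
  · exact key j h hj.2
  · have hjM : j ≤ M := by omega
    rw [← Nat.choose_symm hjM]
    apply key (M - j) (by omega)
    rw [Nat.cast_sub hjM]
    linarith [hj.1]

end Pool.Agent.L5helper41.RDeg
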