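import Mathlib
import Pool.Agent.L5helper41.RDeg2

/-!
# Product decomposition
-/

set_option autoImplicit false

namespace Pool.Agent.L5helper41.RDeg

open Finset

lemma decomp {α ι : Type*} [DecidableEq α] [DecidableEq ι] (I : Finset ι)
    (P : ι → Finset α) (N G : Finset (Finset α)) (t : Finset α → ι → Finset (Finset α))
    (h1 : ∀ H ∈ N, H \ I.biUnion P ∈ G)
    (h2 : ∀ H ∈ N, ∀ w ∈ I, H ∩ P w ∈ t (H \ I.biUnion P) w) :
    N.card ≤ ∑ H0 ∈ G, ∏ w ∈ I, (t H0 w).card := by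
  classical
  have h3 : ∑ H0 ∈ G, ∏ w ∈ I, (t H0 w).card = (G.sigma (fun H0 => I.pi (t H0))).card := by
    rw [card_sigma]
    apply sum_congr rfl
    intro H0 _
    rw [card_pi]
  rw [h3]
  apply card_le_card_of_injOn (fun H => ⟨H \ I.biUnion P, fun w _ => H ∩ P w⟩)
  · intro H hH
    simp only [coe_sigma, Set.mem_sigma_iff, mem_coe, mem_pi]
    exact ⟨h1 H hH, fun w hw => h2 H hH w hw⟩
  · intro H _ H' _ h
    simp only [Sigma.mk.injEq] at h
    obtain ⟨ha, hb⟩ := h
    have hb' := eq_of_heq hb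
    have hc : ∀ w ∈ I, H ∩ P w = H' ∩ P w := by
      intro w hw
      exact congrFun (congrFun hb' w) hw
    ext e
    by_cases he : e ∈ I.biUnion P
    · obtain ⟨w, hw, hew⟩ := mem_biUnion.1 he
      have h4 := hc w hw
      have h5 : e ∈ H ∩ P w ↔ e ∈ H' ∩ P w := by rw [h4]
      simpa [hew] using h5
    · have h5 : e ∈ H \ I.biUnion P ↔ e ∈ H' \ I.biUnion P := by rw [ha]
      simpa [he] using h5

lemma decomp2 {α ι : Type*} [DecidableEq α] [DecidableEq ι] (E : Finset α) (I : Finset ι)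
    (P : ι → Finset α) (hP : ∀ w ∈ I, P w ⊆ E)
    (hd : ∀ w ∈ I, ∀ w' ∈ I, w ≠ w' → Disjoint (P w) (P w'))
    (N G : Finset (Finset α)) (t : Finset α → ι → Finset (Finset α))
    (hG : G ⊆ (E \ I.biUnion P).powerset)
    (h1 : ∀ H ∈ N, H \ I.biUnion P ∈ G)
    (h2 : ∀ H ∈ N, ∀ w ∈ I, H ∩ P w ∈ t (H \ I.biUnion P) w)
    (ht : ∀ H0 ∈ G, ∀ w ∈ I, t H0 w ⊆ (P w).powerset)
    (ρ : ℝ) (hρ0 : 0 ≤ ρ) (hρ1 : ρ ≤ 1) (r : ℕ)
    (hr : ∀ H0 ∈ G, ∃ I' ⊆ I, r ≤ I'.card ∧ ∀ w ∈ I', ((t H0 w).card : ℝ) ≤ (1 - ρ) * 2 ^ (P w).card) :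
    (N.card : ℝ) ≤ (1 - ρ) ^ r * 2 ^ E.card := by
  classical
  have h3 : (N.card : ℝ) ≤ ∑ H0 ∈ G, ∏ w ∈ I, ((t H0 w).card : ℝ) := by
    exact_mod_cast decomp I P N G t h1 h2
  have h4 : ∀ H0 ∈ G, ∏ w ∈ I, ((t H0 w).card : ℝ) ≤ (1 - ρ) ^ r * 2 ^ (I.biUnion P).card := by
    intro H0 hH0
    obtain ⟨I', hI', hcard, hI'b⟩ := hr H0 hH0
    calc ∏ w ∈ I, ((t H0 w).card : ℝ) ≤
        ∏ w ∈ I, ((if w ∈ I' then (1 - ρ) else 1) * 2 ^ (P w).card) := by
          apply prod_le_prod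
          · intro _ _; positivity
          · intro w hw
            by_cases hwI : w ∈ I'
            · rw [if_pos hwI]
              exact hI'b w hwI
            · rw [if_neg hwI, one_mul]
              have := card_le_card (ht H0 hH0 w hw)
              rw [card_powerset] at this
              exact_mod_cast this
      _ = (1 - ρ) ^ I'.card * 2 ^ (I.biUnion P).card := by
          rw [prod_mul_distrib, prod_pow_eq_pow_sum, card_biUnion hd]
          congr 1
          rw [prod_ite_mem, inter_eq_right.2 hI', prod_const]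
      _ ≤ (1 - ρ) ^ r * 2 ^ (I.biUnion P).card := by
          apply mul_le_mul_of_nonneg_right _ (by positivity)
          exact pow_le_pow_of_le_one (by linarith) (by linarith) hcard
  have hU : I.biUnion P ⊆ E := biUnion_subset.2 hP
  calc (N.card : ℝ) ≤ ∑ H0 ∈ G, ∏ w ∈ I, ((t H0 w).card : ℝ) := h3
    _ ≤ ∑ H0 ∈ G, (1 - ρ) ^ r * 2 ^ (I.biUnion P).card := sum_le_sum h4
    _ = (G.card : ℝ) * ((1 - ρ) ^ r * 2 ^ (I.biUnion P).card) := by rw [sum_const, nsmul_eq_mul]
    _ ≤ (2 ^ (E \ I.biUnion P).card : ℕ) * ((1 - ρ) ^ r * 2 ^ (I.biUnion P).card) := by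
        apply mul_le_mul_of_nonneg_right
        · have := card_le_card hG
          rw [card_powerset] at this
          exact_mod_cast this
        · have : 0 ≤ 1 - ρ := by linarith
          positivity
    _ = (1 - ρ) ^ r * 2 ^ E.card := by
        rw [← card_sdiff_add_card_eq_card hU, pow_add]
        push_cast
        ring

/-- sets whose size is in `J` -/
lemma card_sizes {α : Type*} [DecidableEq α] (Q : Finset α) (J : Finset ℕ) (b : ℝ)
    (hb : ∀ j ∈ J, b ≤ (Q.card.choose j : ℝ)) :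
    ((Q.powerset.filter (fun S => S.card ∉ J)).card : ℝ) ≤ 2 ^ Q.card - J.card * b := by
  classical
  have h1 : (Q.powerset.filter (fun S => S.card ∈ J)).card +
      (Q.powerset.filter (fun S => ¬ S.card ∈ J)).card = 2 ^ Q.card := by
    rw [card_filter_add_card_filter_not, card_powerset]
  have h2 : J.biUnion (fun j => Q.powersetCard j) ⊆ Q.powerset.filter (fun S => S.card ∈ J) := by
    intro S hS
    rw [mem_biUnion] at hS
    obtain ⟨j, hj, hS⟩ := hS
    rw [mem_powersetCard] at hS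
    rw [mem_filter, mem_powerset, hS.2]
    exact ⟨hS.1, hj⟩
  have h3 : (J.biUnion (fun j => Q.powersetCard j)).card = ∑ j ∈ J, Q.card.choose j := by
    rw [card_biUnion]
    · apply sum_congr rfl
      intro j _
      rw [card_powersetCard]
    · intro i _ j _ hij
      exact pairwise_disjoint_powersetCard Q hij
  have h4 : (J.card : ℝ) * b ≤ ((Q.powerset.filter (fun S => S.card ∈ J)).card : ℝ) := by
    calc (J.card : ℝ) * b = ∑ j ∈ J, b := by rw [sum_const, nsmul_eq_mul]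
      _ ≤ ∑ j ∈ J, (Q.card.choose j : ℝ) := sum_le_sum hb
      _ = ((J.biUnion (fun j => Q.powersetCard j)).card : ℝ) := by rw [h3]; push_cast; rfl
      _ ≤ _ := by exact_mod_cast card_le_card h2
  have h5 : ((Q.powerset.filter (fun S => S.card ∈ J)).card : ℝ) +
      ((Q.powerset.filter (fun S => ¬ S.card ∈ J)).card : ℝ) = 2 ^ Q.card := by exact_mod_cast h1
  linarith

end Pool.Agent.L5helper41.RDeg
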