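import Mathlib
import Pool.Agent.L5helper41.RDeg3

/-!
# Repeated degrees in random uniform hypergraphs: the counting argument
-/

set_option autoImplicit false

namespace Pool.Agent.L5helper41.RDeg

open Finset

/-- the degree of the vertex `v` -/
def D {n : ℕ} (H : Finset (Finset (Fin n))) (v : Fin n) : ℕ := (H.filter (fun e => v ∈ e)).card

/-- all sets of size `p + 1` -/
def EE (n p : ℕ) : Finset (Finset (Fin n)) := (univ : Finset (Fin n)).powersetCard (p + 1)

/-- first quarter of the vertices -/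
def A1 (n : ℕ) : Finset (Fin n) := univ.filter (fun v => v.val < n / 4)
/-- second quarter of the vertices -/
def A2 (n : ℕ) : Finset (Fin n) := univ.filter (fun v => n / 4 ≤ v.val ∧ v.val < 2 * (n / 4))
/-- the other vertices -/
def B (n : ℕ) : Finset (Fin n) := univ.filter (fun v => 2 * (n / 4) ≤ v.val)

lemma card_A1 (n : ℕ) : (A1 n).card = n / 4 := by
  have h : A1 n = (univ : Finset (Fin (n / 4))).map
      (Fin.castLEEmb (by omega : n / 4 ≤ n)) := by
    ext v
    simp only [A1, mem_filter, mem_univ, true_and, mem_map, Fin.castLEEmb_apply]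
    constructor
    · intro h
      exact ⟨⟨v.val, h⟩, rfl⟩
    · rintro ⟨w, rfl⟩
      exact w.2
  rw [h, card_map, card_univ, Fintype.card_fin]

lemma card_A2 (n : ℕ) : (A2 n).card = n / 4 := by
  have h : (A2 n).card = (A1 n).card := by
    apply card_nbij' (fun v => ⟨v.val - n / 4, by omega⟩)
      (fun v => if h : v.val < n / 4 then ⟨v.val + n / 4, by omega⟩ else v)
    · intro v hv
      simp only [A2, A1, coe_filter, mem_univ, true_and, Set.mem_ofPred_eq] at hv ⊢
      omega
    · intro v hv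
      simp only [A2, A1, coe_filter, mem_univ, true_and, Set.mem_ofPred_eq] at hv ⊢
      rw [dif_pos hv]
      simp only
      omega
    · intro v hv
      simp only [A2, coe_filter, mem_univ, true_and, Set.mem_ofPred_eq] at hv
      have h : v.val - n / 4 < n / 4 := by omega
      apply Fin.ext
      simp only [h, dif_pos]
      omega
    · intro v hv
      simp only [A1, coe_filter, mem_univ, true_and, Set.mem_ofPred_eq] at hv
      apply Fin.ext
      simp only [hv, dif_pos]
      omega
  rw [h, card_A1]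

lemma card_B (n : ℕ) : (B n).card = n - 2 * (n / 4) := by
  have h1 : B n = univ \ (A1 n ∪ A2 n) := by
    ext v
    simp only [B, A1, A2, mem_filter, mem_univ, true_and, mem_sdiff, mem_union]
    omega
  have h2 : Disjoint (A1 n) (A2 n) := by
    rw [disjoint_left]
    intro v h1 h2
    simp only [A1, A2, mem_filter, mem_univ, true_and] at h1 h2
    omega
  rw [h1, card_sdiff_of_subset (subset_univ _), card_union_of_disjoint h2, card_A1, card_A2,
    card_univ, Fintype.card_fin]
  omega

/-- private edges of the vertex `w` of the second quarter -/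
def P (n p : ℕ) (w : Fin n) : Finset (Finset (Fin n)) := ((B n).powersetCard p).image (insert w)

lemma mem_P {n p : ℕ} {w : Fin n} (hw : w ∈ A2 n) {e : Finset (Fin n)} :
    e ∈ P n p w ↔ w ∈ e ∧ e.erase w ⊆ B n ∧ e.card = p + 1 := by
  have hwB : w ∉ B n := by
    simp only [A2, B, mem_filter, mem_univ, true_and] at hw ⊢
    omega
  simp only [P, mem_image, mem_powersetCard]
  constructor
  · rintro ⟨T, ⟨hT, hc⟩, rfl⟩
    have hwT : w ∉ T := fun h => hwB (hT h)
    refine ⟨mem_insert_self _ _, ?_, ?_⟩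
    · rw [erase_insert hwT]; exact hT
    · rw [card_insert_of_notMem hwT, hc]
  · rintro ⟨h1, h2, h3⟩
    refine ⟨e.erase w, ⟨h2, ?_⟩, insert_erase h1⟩
    rw [card_erase_of_mem h1, h3]
    rfl

lemma card_P {n p : ℕ} {w : Fin n} (hw : w ∈ A2 n) : (P n p w).card = (n - 2 * (n / 4)).choose p := by
  have hwB : w ∉ B n := by
    simp only [A2, B, mem_filter, mem_univ, true_and] at hw ⊢
    omega
  rw [P, card_image_of_injOn, card_powersetCard, card_B]
  intro S hS T hT h
  simp only [mem_coe, mem_powersetCard] at hS hT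
  have h1 : w ∉ S := fun h => hwB (hS.1 h)
  have h2 : w ∉ T := fun h => hwB (hT.1 h)
  rw [← erase_insert h1, ← erase_insert h2, h]

lemma P_sub {n p : ℕ} {w : Fin n} (hw : w ∈ A2 n) : P n p w ⊆ EE n p := by
  intro e he
  rw [mem_P hw] at he
  rw [EE, mem_powersetCard]
  exact ⟨subset_univ _, he.2.2⟩

lemma P_own {n p : ℕ} {w w' : Fin n} (hw : w ∈ A2 n) (hw' : w' ∈ A2 n) {e : Finset (Fin n)}
    (he : e ∈ P n p w) (h : w' ∈ e) : w' = w := by
  rw [mem_P hw] at he
  by_contra hne
  have h1 := he.2.1 (mem_erase.2 ⟨hne, h⟩)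
  simp only [A2, B, mem_filter, mem_univ, true_and] at hw' h1
  omega

lemma P_A1 {n p : ℕ} {w v : Fin n} (hw : w ∈ A2 n) (hv : v ∈ A1 n) {e : Finset (Fin n)}
    (he : e ∈ P n p w) : v ∉ e := by
  intro h
  rw [mem_P hw] at he
  have hne : v ≠ w := by
    rintro rfl
    simp only [A1, A2, mem_filter, mem_univ, true_and] at hw hv
    omega
  have h1 := he.2.1 (mem_erase.2 ⟨hne, h⟩)
  simp only [A1, B, mem_filter, mem_univ, true_and] at hv h1
  omega

lemma P_disj {n p : ℕ} {w w' : Fin n} (hw : w ∈ A2 n) (hw' : w' ∈ A2 n) (hne : w ≠ w') :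
    Disjoint (P n p w) (P n p w') := by
  rw [disjoint_left]
  intro e he he'
  have h1 := (mem_P hw').1 he'
  exact hne (P_own hw hw' he h1.1).symm

/-- union of the private parts -/
def U (n p : ℕ) : Finset (Finset (Fin n)) := (A2 n).biUnion (P n p)

lemma card_star (n p : ℕ) (v : Fin n) :
    ((EE n p).filter (fun e => v ∈ e)).card = (n - 1).choose p := by
  have h : ((EE n p).filter (fun e => v ∈ e)).card = ((univ.erase v).powersetCard p).card := by
    apply card_nbij' (fun e => e.erase v) (fun e => insert v e)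
    · intro e he
      simp only [EE, coe_filter, mem_powersetCard, Set.mem_ofPred_eq, mem_coe] at he ⊢
      refine ⟨erase_subset_erase _ he.1.1, ?_⟩
      rw [card_erase_of_mem he.2, he.1.2]
      rfl
    · intro e he
      simp only [EE, coe_filter, mem_powersetCard, Set.mem_ofPred_eq, mem_coe] at he ⊢
      have hv : v ∉ e := fun h => (mem_erase.1 (he.1 h)).1 rfl
      refine ⟨⟨subset_univ _, ?_⟩, mem_insert_self _ _⟩
      rw [card_insert_of_notMem hv, he.2]
    · intro e he
      simp only [coe_filter, Set.mem_ofPred_eq] at he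
      exact insert_erase he.2
    · intro e he
      simp only [mem_powersetCard, mem_coe] at he
      have hv : v ∉ e := fun h => (mem_erase.1 (he.1 h)).1 rfl
      exact erase_insert hv
  rw [h, card_powersetCard, card_erase_of_mem (mem_univ _), card_univ, Fintype.card_fin]

lemma star_U {n p : ℕ} {w : Fin n} (hw : w ∈ A2 n) (H : Finset (Finset (Fin n))) :
    (H.filter (fun e => w ∈ e)) ∩ U n p = H ∩ P n p w := by
  ext e
  simp only [U, mem_inter, mem_filter, mem_biUnion]
  constructor
  · rintro ⟨⟨h1, h2⟩, w', hw', he⟩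
    rw [P_own hw' hw he h2]
    exact ⟨h1, he⟩
  · rintro ⟨h1, h2⟩
    exact ⟨⟨h1, ((mem_P hw).1 h2).1⟩, w, hw, h2⟩

lemma D_split {n p : ℕ} {w : Fin n} (hw : w ∈ A2 n) (H : Finset (Finset (Fin n))) :
    D H w = D (H \ U n p) w + (H ∩ P n p w).card := by
  rw [D, D, ← star_U hw H, ← card_sdiff_add_card_inter (H.filter (fun e => w ∈ e)) (U n p)]
  congr 2
  ext e
  simp only [mem_sdiff, mem_filter]
  tauto

lemma D_A1 {n p : ℕ} {v : Fin n} (hv : v ∈ A1 n) (H : Finset (Finset (Fin n))) :
    D H v = D (H \ U n p) v := by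
  rw [D, D]
  congr 1
  ext e
  simp only [mem_sdiff, mem_filter, U, mem_biUnion, not_exists, not_and]
  constructor
  · rintro ⟨h1, h2⟩
    exact ⟨⟨h1, fun w hw he => P_A1 hw hv he h2⟩, h2⟩
  · rintro ⟨⟨h1, _⟩, h2⟩
    exact ⟨h1, h2⟩

lemma D_rest (n p : ℕ) (w : Fin n) (H : Finset (Finset (Fin n))) :
    D (H \ U n p) w = (H.filter (fun e => w ∈ e ∧ e ∉ U n p)).card := by
  rw [D]
  congr 1
  ext e
  simp only [mem_sdiff, mem_filter]
  tauto

lemma card_rest {n p : ℕ} {w : Fin n} (hw : w ∈ A2 n) :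
    (((EE n p).filter (fun e => w ∈ e ∧ e ∉ U n p)).card : ℝ) =
      ((n - 1).choose p : ℝ) - ((n - 2 * (n / 4)).choose p : ℝ) := by
  have h1 := D_split (p := p) hw (EE n p)
  rw [D_rest, inter_eq_right.2 (P_sub hw), card_P hw, D, card_star] at h1
  have h2 : ((n - 1).choose p : ℝ) = (((EE n p).filter (fun e => w ∈ e ∧ e ∉ U n p)).card : ℝ) +
      ((n - 2 * (n / 4)).choose p : ℝ) := by exact_mod_cast h1
  linarith

/-- many far vertices are rare -/
lemma many_far {n : ℕ} {α : Type*} [DecidableEq α] (E : Finset α) (A : Finset (Fin n))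
    (f : Fin n → α → Prop) [∀ v, DecidablePred (f v)] (Q L : ℝ) (hL : 0 < L)
    (hQ : ∀ v ∈ A, ((E.filter (f v)).card : ℝ) ≤ Q) :
    ((E.powerset.filter (fun H => (A.card : ℝ) / 2 < ((A.filter (fun v =>
      L < |((H.filter (f v)).card : ℝ) - ((E.filter (f v)).card : ℝ) / 2|)).card : ℝ))).card : ℝ) *
      (A.card * L ^ 2) ≤ 2 ^ E.card * A.card * Q / 2 := by
  classical
  set F : Finset (Finset α) := E.powerset.filter (fun H => (A.card : ℝ) / 2 < ((A.filter (fun v =>
      L < |((H.filter (f v)).card : ℝ) - ((E.filter (f v)).card : ℝ) / 2|)).card : ℝ)) with hF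
  have h1 : (F.card : ℝ) * ((A.card : ℝ) / 2) ≤ ∑ H ∈ E.powerset, ((A.filter (fun v =>
      L < |((H.filter (f v)).card : ℝ) - ((E.filter (f v)).card : ℝ) / 2|)).card : ℝ) := by
    calc (F.card : ℝ) * ((A.card : ℝ) / 2) = ∑ H ∈ F, (A.card : ℝ) / 2 := by
          rw [sum_const, nsmul_eq_mul]
      _ ≤ ∑ H ∈ F, ((A.filter (fun v =>
          L < |((H.filter (f v)).card : ℝ) - ((E.filter (f v)).card : ℝ) / 2|)).card : ℝ) := by
          apply sum_le_sum
          intro H hH
          exact (mem_filter.1 hH).2.le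
      _ ≤ _ := by
          apply sum_le_sum_of_subset_of_nonneg (filter_subset _ _)
          intro _ _ _
          positivity
  have h2 : ∑ H ∈ E.powerset, ((A.filter (fun v =>
      L < |((H.filter (f v)).card : ℝ) - ((E.filter (f v)).card : ℝ) / 2|)).card : ℝ) =
      ∑ v ∈ A, ((E.powerset.filter (fun H =>
      L < |((H.filter (f v)).card : ℝ) - ((E.filter (f v)).card : ℝ) / 2|)).card : ℝ) := by
    have e1 : ∀ H ∈ E.powerset, ((A.filter (fun v =>
        L < |((H.filter (f v)).card : ℝ) - ((E.filter (f v)).card : ℝ) / 2|)).card : ℝ) =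
        ∑ v ∈ A, if L < |((H.filter (f v)).card : ℝ) - ((E.filter (f v)).card : ℝ) / 2| then
          (1 : ℝ) else 0 := by
      intro H _
      rw [card_filter]
      push_cast
      rfl
    rw [sum_congr rfl e1, sum_comm]
    apply sum_congr rfl
    intro v _
    have e2 := card_filter (fun H : Finset α =>
      L < |((H.filter (f v)).card : ℝ) - ((E.filter (f v)).card : ℝ) / 2|) E.powerset
    rw [e2, Nat.cast_sum]
    apply sum_congr rfl
    intro H _
    push_cast
    rfl
  have h3 : ∑ v ∈ A, ((E.powerset.filter (fun H =>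
      L < |((H.filter (f v)).card : ℝ) - ((E.filter (f v)).card : ℝ) / 2|)).card : ℝ) * L ^ 2 ≤
      ∑ v ∈ A, 2 ^ E.card * Q / 4 := by
    apply sum_le_sum
    intro v hv
    refine (card_far (f v) E L hL).trans ?_
    have := hQ v hv
    have h4 : (0 : ℝ) < 2 ^ E.card := by positivity
    have h5 : (2 : ℝ) ^ E.card * ((E.filter (f v)).card : ℝ) ≤ 2 ^ E.card * Q :=
      mul_le_mul_of_nonneg_left this h4.le
    linarith
  rw [sum_const, nsmul_eq_mul, ← sum_mul, ← h2] at h3
  have h4 : (F.card : ℝ) * ((A.card : ℝ) / 2) * L ^ 2 ≤ (∑ H ∈ E.powerset, ((A.filter (fun v =>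
      L < |((H.filter (f v)).card : ℝ) - ((E.filter (f v)).card : ℝ) / 2|)).card : ℝ)) * L ^ 2 :=
    mul_le_mul_of_nonneg_right h1 (by positivity)
  linarith

end Pool.Agent.L5helper41.RDeg
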