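import Mathlib
import Pool.Agent.L5helper41.RDeg4

/-!
# Repeated degrees in random uniform hypergraphs: the bound
-/

set_option autoImplicit false

namespace Pool.Agent.L5helper41.RDeg

open Finset

lemma choose2 (b : ℕ) (hb : 2 ≤ b) : (b.choose 2 : ℝ) * 2 = b * (b - 1) := by
  obtain ⟨c, rfl⟩ := Nat.exists_eq_add_of_le hb
  have h1 := Nat.add_one_mul_choose_eq (1 + c) 1
  rw [Nat.choose_one_right] at h1
  have h2 : (((1 + c + 1) * (1 + c) : ℕ) : ℝ) = ((1 + c + 1).choose (1 + 1) * (1 + 1) : ℕ) := by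
    exact_mod_cast h1
  have h3 : 2 + c = 1 + c + 1 := by omega
  rw [h3]
  push_cast at h2 ⊢
  linarith

lemma choose3 (b : ℕ) (hb : 3 ≤ b) : (b.choose 3 : ℝ) * 6 = b * (b - 1) * (b - 2) := by
  obtain ⟨c, rfl⟩ := Nat.exists_eq_add_of_le hb
  have h1 := Nat.add_one_mul_choose_eq (2 + c) 2
  have h0 := choose2 (2 + c) (by omega)
  have h2 : (((2 + c + 1) * (2 + c).choose 2 : ℕ) : ℝ) = ((2 + c + 1).choose (2 + 1) * (2 + 1) : ℕ) := by
    exact_mod_cast h1
  have h3 : 3 + c = 2 + c + 1 := by omega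
  rw [h3]
  push_cast at h2 h0 ⊢
  nlinarith

lemma M_lower (n p : ℕ) (hp : p = 2 ∨ p = 3) (hn : 40 ≤ n) :
    (n : ℝ) ^ p ≤ 96 * ((n - 2 * (n / 4)).choose p : ℝ) := by
  set b := n - 2 * (n / 4) with hb
  have hb1 : n ≤ 2 * b := by omega
  have hb1' : (n : ℝ) ≤ 2 * b := by exact_mod_cast hb1
  have hn' : (40 : ℝ) ≤ n := by exact_mod_cast hn
  rcases hp with rfl | rfl
  · have h := choose2 b (by omega)
    have h1 : (n : ℝ) * n ≤ 48 * (b * (b - 1)) := by nlinarith
    nlinarith
  · have h := choose3 b (by omega)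
    have h1 : (n : ℝ) / 2 ≤ b := by linarith
    have h2 : 9 / 20 * (n : ℝ) ≤ b - 1 := by linarith
    have h3 : 8 / 20 * (n : ℝ) ≤ b - 2 := by linarith
    have h4 : (n : ℝ) / 2 * (9 / 20 * n) ≤ b * (b - 1) := by
      apply mul_le_mul h1 h2 (by linarith) (by linarith)
    have h5 : (n : ℝ) / 2 * (9 / 20 * n) * (8 / 20 * n) ≤ b * (b - 1) * (b - 2) := by
      apply mul_le_mul h4 h3 (by linarith)
      nlinarith
    have h6 : (0 : ℝ) < (n : ℝ) ^ 3 := by positivity
    nlinarith

/-- hypergraphs with pairwise distinct degrees are rare -/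
theorem main_bound (K : ℝ) (hK : 1 ≤ K) (p : ℕ) (hp : p = 2 ∨ p = 3) : ∃ β : ℝ, 0 < β ∧ ∃ n0 : ℕ,
    ∀ n : ℕ, n0 ≤ n →
      (((EE n p).powerset.filter (fun H => ∀ v w : Fin n, v ≠ w → D H v ≠ D H w)).card : ℝ) ≤
        (1 / K ^ 2 + Real.exp (-(β * Real.sqrt n))) * 2 ^ (EE n p).card := by
  classical
  obtain ⟨β0, hβ0, hbin⟩ := binom_lower (20 * K) (by linarith)
  set β1 := min β0 (1 / 2) with hβ1
  have hβ1pos : 0 < β1 := lt_min hβ0 (by norm_num)
  have hβ1h : β1 ≤ 1 / 2 := min_le_right _ _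
  have hβ10 : β1 ≤ β0 := min_le_left _ _
  refine ⟨β1 / 120, by positivity, max 40 (⌈1600 * K⌉₊), fun n hn => ?_⟩
  have hn40 : 40 ≤ n := le_trans (le_max_left _ _) hn
  have hnK : 1600 * K ≤ n := (Nat.le_ceil _).trans (by exact_mod_cast le_trans (le_max_right _ _) hn)
  have hn1 : (40 : ℝ) ≤ n := by exact_mod_cast hn40
  set q := (n - 1).choose p with hq
  set M := (n - 2 * (n / 4)).choose p with hM
  set a := n / 4 with ha
  set E := EE n p with hE
  set L := K * Real.sqrt ((n : ℝ) ^ p) with hL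
  have hnp : (0 : ℝ) < (n : ℝ) ^ p := by positivity
  have hLpos : 0 < L := by
    have := Real.sqrt_pos.2 hnp
    positivity
  have hL2 : L ^ 2 = K ^ 2 * (n : ℝ) ^ p := by
    rw [hL, mul_pow, Real.sq_sqrt hnp.le]
  have hqn : (q : ℝ) ≤ (n : ℝ) ^ p := by
    have h1 : q ≤ (n - 1) ^ p := Nat.choose_le_pow (n - 1) p
    have h2 : (n - 1) ^ p ≤ n ^ p := Nat.pow_le_pow_left (by omega) p
    exact_mod_cast h1.trans h2
  have hMn : (M : ℝ) ≤ (n : ℝ) ^ p := by
    have h1 : M ≤ (n - 2 * (n / 4)) ^ p := Nat.choose_le_pow _ p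
    have h2 : (n - 2 * (n / 4)) ^ p ≤ n ^ p := Nat.pow_le_pow_left (by omega) p
    exact_mod_cast h1.trans h2
  have hMl : (n : ℝ) ^ p ≤ 96 * M := M_lower n p hp hn40
  have hsM : Real.sqrt ((n : ℝ) ^ p) ≤ 10 * Real.sqrt M := by
    have h1 : Real.sqrt ((n : ℝ) ^ p) ≤ Real.sqrt (10 ^ 2 * M) := by
      apply Real.sqrt_le_sqrt
      have : (0 : ℝ) ≤ M := by positivity
      linarith
    rw [Real.sqrt_mul (by norm_num), Real.sqrt_sq (by norm_num)] at h1
    exact h1
  have hsn : (n : ℝ) ≤ Real.sqrt ((n : ℝ) ^ p) := by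
    apply Real.le_sqrt_of_sq_le
    apply pow_le_pow_right₀ (by linarith)
    rcases hp with rfl | rfl <;> norm_num
  have hsMl : (n : ℝ) / 10 ≤ Real.sqrt M := by linarith
  have hsMpos : 0 < Real.sqrt M := by linarith
  have hsMu : Real.sqrt M ≤ n * Real.sqrt n := by
    rw [Real.sqrt_le_left (by positivity), mul_pow, Real.sq_sqrt (by positivity)]
    have h1 : (n : ℝ) ^ p ≤ (n : ℝ) ^ 3 := by
      apply pow_le_pow_right₀ (by linarith)
      rcases hp with rfl | rfl <;> norm_num
    calc (M : ℝ) ≤ (n : ℝ) ^ p := hMn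
      _ ≤ (n : ℝ) ^ 3 := h1
      _ = (n : ℝ) ^ 2 * n := by ring
  have h2L : 2 * L ≤ 20 * K * Real.sqrt M := by
    rw [hL]
    nlinarith
  have h160 : 8 * (20 * K) ≤ Real.sqrt M := by linarith
  have haR : (n : ℝ) / 4 - 1 ≤ a := by
    have h1 : n ≤ 4 * a + 3 := by omega
    have h2 : (n : ℝ) ≤ 4 * a + 3 := by exact_mod_cast h1
    linarith
  have haR2 : (a : ℝ) ≤ n / 4 := by
    have h1 : 4 * a ≤ n := by omega
    have h2 : 4 * (a : ℝ) ≤ n := by exact_mod_cast h1
    linarith
  have hapos : (0 : ℝ) < a := by linarith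
  -- the two exceptional classes
  set F1 : Finset (Finset (Finset (Fin n))) := E.powerset.filter (fun H => ((A1 n).card : ℝ) / 2 < (((A1 n).filter (fun v =>
      L < |((H.filter (fun e => v ∈ e)).card : ℝ) - ((E.filter (fun e => v ∈ e)).card : ℝ) / 2|)).card : ℝ)) with hF1
  set F2 : Finset (Finset (Finset (Fin n))) := E.powerset.filter (fun H => ((A2 n).card : ℝ) / 2 < (((A2 n).filter (fun w =>
      L < |((H.filter (fun e => w ∈ e ∧ e ∉ U n p)).card : ℝ) -
        ((E.filter (fun e => w ∈ e ∧ e ∉ U n p)).card : ℝ) / 2|)).card : ℝ)) with hF2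
  have hF1c : (F1.card : ℝ) ≤ 1 / (2 * K ^ 2) * 2 ^ E.card := by
    have h1 := many_far E (A1 n) (fun v e => v ∈ e) ((n : ℝ) ^ p) L hLpos
      (fun v _ => by rw [hE, card_star]; exact hqn)
    rw [← hF1] at h1
    simp only [card_A1, ← ha] at h1
    rw [hL2] at h1
    have h2 : (0 : ℝ) < a * (K ^ 2 * (n : ℝ) ^ p) := by positivity
    rw [← le_div_iff₀ h2] at h1
    refine h1.trans (le_of_eq ?_)
    have : (a : ℝ) ≠ 0 := hapos.ne'
    field_simp
  have hF2c : (F2.card : ℝ) ≤ 1 / (2 * K ^ 2) * 2 ^ E.card := by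
    have h1 := many_far E (A2 n) (fun w e => w ∈ e ∧ e ∉ U n p) ((n : ℝ) ^ p) L hLpos
      (fun v hv => by
        rw [hE, card_rest hv]
        have : (0 : ℝ) ≤ M := by positivity
        linarith)
    rw [← hF2] at h1
    simp only [card_A2, ← ha] at h1
    rw [hL2] at h1
    have h2 : (0 : ℝ) < a * (K ^ 2 * (n : ℝ) ^ p) := by positivity
    rw [← le_div_iff₀ h2] at h1
    refine h1.trans (le_of_eq ?_)
    have : (a : ℝ) ≠ 0 := hapos.ne'
    field_simp
  -- the main class
  set N0 : Finset (Finset (Finset (Fin n))) :=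
    E.powerset.filter (fun H => ∀ v w : Fin n, v ≠ w → D H v ≠ D H w) with hN0
  set N : Finset (Finset (Finset (Fin n))) := N0 \ (F1 ∪ F2) with hN
  set G : Finset (Finset (Finset (Fin n))) := (E \ (A2 n).biUnion (P n p)).powerset.filter (fun H0 =>
    (∀ v ∈ A1 n, ∀ v' ∈ A1 n, D H0 v = D H0 v' → v = v') ∧
    (a : ℝ) / 2 ≤ (((A1 n).filter (fun v => |(D H0 v : ℝ) - (q : ℝ) / 2| ≤ L)).card : ℝ) ∧
    (a : ℝ) / 2 ≤ (((A2 n).filter (fun w => |(D H0 w : ℝ) - ((q : ℝ) - M) / 2| ≤ L)).card : ℝ)) with hG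
  set t : Finset (Finset (Fin n)) → Fin n → Finset (Finset (Finset (Fin n))) := fun H0 w =>
    (P n p w).powerset.filter (fun S => ∀ v ∈ (A1 n).filter (fun v => |(D H0 v : ℝ) - (q : ℝ) / 2| ≤ L),
      D H0 w + S.card ≠ D H0 v) with ht
  set ρ : ℝ := (a : ℝ) / 2 * (β1 / Real.sqrt M) with hρ
  have hρ0 : 0 ≤ ρ := by positivity
  have hρ1 : ρ ≤ 1 := by
    rw [hρ, mul_div_assoc', div_le_one hsMpos]
    nlinarith
  have hmainN : (N.card : ℝ) ≤ (1 - ρ) ^ (a / 2) * 2 ^ E.card := by
    apply decomp2 E (A2 n) (P n p) (fun w hw => P_sub hw) (fun w hw w' hw' hne => P_disj hw hw' hne)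
      N G t (filter_subset _ _) ?_ ?_ ?_ ρ hρ0 hρ1 (a / 2) ?_
    · intro H hH
      rw [hN, mem_sdiff, mem_union, not_or] at hH
      obtain ⟨hH0, hH1, hH2⟩ := hH
      rw [hN0, mem_filter] at hH0
      rw [hF1, mem_filter, not_and, not_lt] at hH1
      rw [hF2, mem_filter, not_and, not_lt] at hH2
      have hH1' := hH1 hH0.1
      have hH2' := hH2 hH0.1
      rw [card_A1] at hH1'
      rw [card_A2] at hH2'
      rw [hG, mem_filter]
      change H \ U n p ∈ (E \ U n p).powerset ∧ _
      refine ⟨?_, ?_, ?_, ?_⟩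
      · rw [mem_powerset]
        exact sdiff_subset_sdiff (mem_powerset.1 hH0.1) (Subset.refl _)
      · intro v hv v' hv' h
        change D (H \ U n p) v = D (H \ U n p) v' at h
        rw [← D_A1 hv, ← D_A1 hv'] at h
        by_contra hne
        exact hH0.2 v v' hne h
      · have h1 := card_filter_add_card_filter_not (s := A1 n) (fun v => L <
          |((H.filter (fun e => v ∈ e)).card : ℝ) - ((E.filter (fun e => v ∈ e)).card : ℝ) / 2|)
        rw [card_A1] at h1
        have h2 : (((A1 n).filter (fun v => L <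
          |((H.filter (fun e => v ∈ e)).card : ℝ) - ((E.filter (fun e => v ∈ e)).card : ℝ) / 2|)).card : ℝ) +
          (((A1 n).filter (fun v => ¬ L <
          |((H.filter (fun e => v ∈ e)).card : ℝ) - ((E.filter (fun e => v ∈ e)).card : ℝ) / 2|)).card : ℝ)
          = a := by exact_mod_cast h1
        have h3 : (A1 n).filter (fun v => ¬ L <
          |((H.filter (fun e => v ∈ e)).card : ℝ) - ((E.filter (fun e => v ∈ e)).card : ℝ) / 2|) ⊆
          (A1 n).filter (fun v => |(D (H \ (A2 n).biUnion (P n p)) v : ℝ) - (q : ℝ) / 2| ≤ L) := by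
          intro v hv
          rw [mem_filter, not_lt] at hv
          rw [mem_filter]
          refine ⟨hv.1, ?_⟩
          change |(D (H \ U n p) v : ℝ) - (q : ℝ) / 2| ≤ L
          rw [← D_A1 hv.1]
          have h4 := hv.2
          rw [hE, card_star] at h4
          exact h4
        have h4 : (((A1 n).filter (fun v => ¬ L <
          |((H.filter (fun e => v ∈ e)).card : ℝ) - ((E.filter (fun e => v ∈ e)).card : ℝ) / 2|)).card : ℝ) ≤
          (((A1 n).filter (fun v => |(D (H \ (A2 n).biUnion (P n p)) v : ℝ) - (q : ℝ) / 2| ≤ L)).card : ℝ) := by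
          exact_mod_cast card_le_card h3
        linarith
      · have h1 := card_filter_add_card_filter_not (s := A2 n) (fun w => L <
          |((H.filter (fun e => w ∈ e ∧ e ∉ U n p)).card : ℝ) -
            ((E.filter (fun e => w ∈ e ∧ e ∉ U n p)).card : ℝ) / 2|)
        rw [card_A2] at h1
        have h2 : (((A2 n).filter (fun w => L <
          |((H.filter (fun e => w ∈ e ∧ e ∉ U n p)).card : ℝ) -
            ((E.filter (fun e => w ∈ e ∧ e ∉ U n p)).card : ℝ) / 2|)).card : ℝ) +
          (((A2 n).filter (fun w => ¬ L <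
          |((H.filter (fun e => w ∈ e ∧ e ∉ U n p)).card : ℝ) -
            ((E.filter (fun e => w ∈ e ∧ e ∉ U n p)).card : ℝ) / 2|)).card : ℝ)
          = a := by exact_mod_cast h1
        have h3 : (A2 n).filter (fun w => ¬ L <
          |((H.filter (fun e => w ∈ e ∧ e ∉ U n p)).card : ℝ) -
            ((E.filter (fun e => w ∈ e ∧ e ∉ U n p)).card : ℝ) / 2|) ⊆
          (A2 n).filter (fun w => |(D (H \ (A2 n).biUnion (P n p)) w : ℝ) - ((q : ℝ) - M) / 2| ≤ L) := by
          intro w hw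
          rw [mem_filter, not_lt] at hw
          rw [mem_filter]
          refine ⟨hw.1, ?_⟩
          change |(D (H \ U n p) w : ℝ) - ((q : ℝ) - M) / 2| ≤ L
          rw [D_rest]
          have h4 := hw.2
          rw [hE, card_rest hw.1] at h4
          exact h4
        have h4 : (((A2 n).filter (fun w => ¬ L <
          |((H.filter (fun e => w ∈ e ∧ e ∉ U n p)).card : ℝ) -
            ((E.filter (fun e => w ∈ e ∧ e ∉ U n p)).card : ℝ) / 2|)).card : ℝ) ≤
          (((A2 n).filter (fun w => |(D (H \ (A2 n).biUnion (P n p)) w : ℝ) - ((q : ℝ) - M) / 2| ≤ L)).card : ℝ) := by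
          exact_mod_cast card_le_card h3
        linarith
    · intro H hH w hw
      rw [hN, mem_sdiff] at hH
      obtain ⟨hH0, _⟩ := hH
      rw [hN0, mem_filter] at hH0
      rw [ht]
      simp only
      rw [mem_filter, mem_powerset]
      refine ⟨inter_subset_right, ?_⟩
      intro v hv
      rw [mem_filter] at hv
      change D (H \ U n p) w + (H ∩ P n p w).card ≠ D (H \ U n p) v
      rw [← D_split hw, ← D_A1 hv.1]
      apply hH0.2
      rintro rfl
      have h1 := hv.1
      simp only [A1, A2, mem_filter, mem_univ, true_and] at h1 hw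
      omega
    · intro H0 _ w _
      exact filter_subset _ _
    · intro H0 hH0
      rw [hG, mem_filter] at hH0
      obtain ⟨_, hinj, hg1, hg2⟩ := hH0
      refine ⟨(A2 n).filter (fun w => |(D H0 w : ℝ) - ((q : ℝ) - M) / 2| ≤ L), filter_subset _ _, ?_, ?_⟩
      · have h1 : ((a / 2 : ℕ) : ℝ) ≤ (a : ℝ) / 2 := Nat.cast_div_le
        exact_mod_cast h1.trans hg2
      · intro w hw
        rw [mem_filter] at hw
        obtain ⟨hwA, hw⟩ := hw
        set A' := (A1 n).filter (fun v => |(D H0 v : ℝ) - (q : ℝ) / 2| ≤ L) with hA'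
        have hge : ∀ v ∈ A', D H0 w ≤ D H0 v ∧
            |((D H0 v - D H0 w : ℕ) : ℝ) - (M : ℝ) / 2| ≤ 20 * K * Real.sqrt M := by
          intro v hv
          rw [hA', mem_filter] at hv
          have h1 := abs_le.1 hv.2
          have h2 := abs_le.1 hw
          have hM160 : 160 * K * Real.sqrt M ≤ M := by
            have hss : Real.sqrt M * Real.sqrt M = M := Real.mul_self_sqrt (by positivity)
            nlinarith
          have hKs : 0 < K * Real.sqrt M := by positivity
          have h3 : (D H0 w : ℝ) ≤ D H0 v := by linarith [h1.1, h2.2]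
          have h4 : D H0 w ≤ D H0 v := by exact_mod_cast h3
          refine ⟨h4, ?_⟩
          rw [Nat.cast_sub h4, abs_le]
          constructor <;> linarith [h1.1, h1.2, h2.1, h2.2]
        set J := A'.image (fun v => D H0 v - D H0 w) with hJ
        have hJc : J.card = A'.card := by
          apply card_image_of_injOn
          intro v hv v' hv' h
          simp only at h
          have h1 := (hge v hv).1
          have h2 := (hge v' hv').1
          have hv1 := (mem_filter.1 (mem_coe.1 hv)).1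
          have hv2 := (mem_filter.1 (mem_coe.1 hv')).1
          exact hinj v hv1 v' hv2 (by omega)
        have hcP : (P n p w).card = M := card_P hwA
        have h5 := card_sizes (P n p w) J (β1 / Real.sqrt M * 2 ^ M) (by
          intro j hj
          rw [hJ, mem_image] at hj
          obtain ⟨v, hv, rfl⟩ := hj
          rw [hcP]
          have h6 := hbin M h160 _ (hge v hv).2
          rw [div_mul_eq_mul_div, div_le_iff₀ hsMpos]
          have h7 : β1 * 2 ^ M ≤ β0 * 2 ^ M := mul_le_mul_of_nonneg_right hβ10 (by positivity)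
          linarith)
        have h6 : t H0 w ⊆ (P n p w).powerset.filter (fun S => S.card ∉ J) := by
          intro S hS
          rw [ht] at hS
          simp only at hS
          rw [mem_filter] at hS
          rw [mem_filter]
          refine ⟨hS.1, fun hSJ => ?_⟩
          rw [hJ, mem_image] at hSJ
          obtain ⟨v, hv, hvS⟩ := hSJ
          have h7 := (hge v hv).1
          exact hS.2 v hv (by omega)
        have h7 : ((t H0 w).card : ℝ) ≤ ((((P n p w).powerset.filter (fun S => S.card ∉ J)).card : ℕ) : ℝ) := by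
          exact_mod_cast card_le_card h6
        rw [hJc, hcP] at h5
        rw [hcP]
        have h8 : (a : ℝ) / 2 * (β1 / Real.sqrt M * 2 ^ M) ≤ (A'.card : ℝ) * (β1 / Real.sqrt M * 2 ^ M) :=
          mul_le_mul_of_nonneg_right hg1 (by positivity)
        have h9 : (1 - ρ) * 2 ^ M = 2 ^ M - (a : ℝ) / 2 * (β1 / Real.sqrt M * 2 ^ M) := by
          rw [hρ]; ring
        rw [h9]
        linarith
  have hexp : (1 - ρ) ^ (a / 2) ≤ Real.exp (-(β1 / 120 * Real.sqrt n)) := by
    have h1 : 1 - ρ ≤ Real.exp (-ρ) := by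
      have := Real.add_one_le_exp (-ρ)
      linarith
    have h2 : (1 - ρ) ^ (a / 2) ≤ Real.exp (-ρ) ^ (a / 2) :=
      pow_le_pow_left₀ (by linarith) h1 _
    rw [← Real.exp_nat_mul] at h2
    refine h2.trans (Real.exp_le_exp.2 ?_)
    have h3 : (n : ℝ) / 12 ≤ ((a / 2 : ℕ) : ℝ) := by
      have h4 : a ≤ 2 * (a / 2) + 1 := by omega
      have h5 : (a : ℝ) ≤ 2 * ((a / 2 : ℕ) : ℝ) + 1 := by exact_mod_cast h4
      linarith
    have h4 : (n : ℝ) / 10 ≤ (a : ℝ) / 2 := by linarith
    have hsnp : 0 < Real.sqrt n := Real.sqrt_pos.2 (by linarith)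
    have h5 : β1 / (n * Real.sqrt n) ≤ β1 / Real.sqrt M :=
      div_le_div_of_nonneg_left hβ1pos.le hsMpos hsMu
    have h6 : (n : ℝ) / 10 * (β1 / (n * Real.sqrt n)) ≤ ρ := by
      rw [hρ]
      apply mul_le_mul h4 h5 (by positivity) (by positivity)
    have h7 : (n : ℝ) / 12 * ((n : ℝ) / 10 * (β1 / (n * Real.sqrt n))) ≤ ((a / 2 : ℕ) : ℝ) * ρ := by
      apply mul_le_mul h3 h6 (by positivity) (by positivity)
    have h8 : (n : ℝ) / 12 * ((n : ℝ) / 10 * (β1 / (n * Real.sqrt n))) = β1 / 120 * Real.sqrt n := by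
      have hne : (n : ℝ) ≠ 0 := by linarith
      have hss : Real.sqrt n * Real.sqrt n = n := Real.mul_self_sqrt (by linarith)
      have hne2 : Real.sqrt n ≠ 0 := hsnp.ne'
      field_simp
      rw [sq, hss]
      ring
    linarith
  have hfin : (N0.card : ℝ) ≤ F1.card + F2.card + N.card := by
    have h1 : N0 ⊆ (F1 ∪ F2) ∪ N := by
      intro H hH
      by_cases h : H ∈ F1 ∪ F2
      · exact mem_union_left _ h
      · exact mem_union_right _ (mem_sdiff.2 ⟨hH, h⟩)
    have h2 := (card_le_card h1).trans ((card_union_le _ _).trans (Nat.add_le_add_right (card_union_le _ _) _))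
    exact_mod_cast h2
  have h2E : (0 : ℝ) < 2 ^ E.card := by positivity
  have hNN : (N.card : ℝ) ≤ Real.exp (-(β1 / 120 * Real.sqrt n)) * 2 ^ E.card :=
    hmainN.trans (mul_le_mul_of_nonneg_right hexp h2E.le)
  have hKK : 1 / K ^ 2 = 1 / (2 * K ^ 2) + 1 / (2 * K ^ 2) := by
    field_simp
    norm_num
  rw [hKK]
  linarith

end Pool.Agent.L5helper41.RDeg
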