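import Mathlib

set_option autoImplicit false

namespace Pool.Agent.L5helper41.Ram

open Finset

/-- Finite Ramsey for k-subsets, two colours. -/
theorem ramsey_aux (k : ℕ) :
    ∀ a b : ℕ, ∃ N : ℕ, ∀ (α : Type) [DecidableEq α] (X : Finset α) (p : Finset α → Prop),
      N ≤ X.card →
      (∃ Z ⊆ X, Z.card = a ∧ ∀ S ∈ Z.powersetCard k, p S) ∨
      (∃ Z ⊆ X, Z.card = b ∧ ∀ S ∈ Z.powersetCard k, ¬ p S) := by
  induction k with
  | zero =>
    intro a b
    refine ⟨max a b, fun α _ X p hX => ?_⟩
    by_cases hp : p ∅
    · left
      obtain ⟨Z, hZ, hc⟩ := Finset.exists_subset_card_eq ((le_max_left a b).trans hX)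
      refine ⟨Z, hZ, hc, fun S hS => ?_⟩
      simp at hS
      subst hS; exact hp
    · right
      obtain ⟨Z, hZ, hc⟩ := Finset.exists_subset_card_eq ((le_max_right a b).trans hX)
      refine ⟨Z, hZ, hc, fun S hS => ?_⟩
      simp at hS
      subst hS; exact hp
  | succ k ih =>
    intro a
    induction a with
    | zero =>
      intro b
      refine ⟨0, fun α _ X p _ => Or.inl ⟨∅, by simp, by simp, ?_⟩⟩
      intro S hS
      simp [Finset.mem_powersetCard] at hS
      obtain ⟨h1, h2⟩ := hS
      subst h1
      simp at h2
    | succ a iha =>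
      intro b
      induction b with
      | zero =>
        refine ⟨0, fun α _ X p _ => Or.inr ⟨∅, by simp, by simp, ?_⟩⟩
        intro S hS
        simp [Finset.mem_powersetCard] at hS
        obtain ⟨h1, h2⟩ := hS
        subst h1
        simp at h2
      | succ b ihb =>
        obtain ⟨N1, h1⟩ := iha (b + 1)
        obtain ⟨N2, h2⟩ := ihb
        obtain ⟨N3, h3⟩ := ih N1 N2
        refine ⟨N3 + 1, fun α _ X p hX => ?_⟩
        have hne : X.Nonempty := by
          rw [← Finset.card_pos]; omega
        obtain ⟨x, hx⟩ := hne
        have hcard : N3 ≤ (X.erase x).card := by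
          rw [Finset.card_erase_of_mem hx]; omega
        have key : ∀ (Y Z : Finset α) (q : Finset α → Prop), Y ⊆ X.erase x → Z ⊆ Y →
            (∀ S ∈ Y.powersetCard k, q (insert x S)) → (∀ S ∈ Z.powersetCard (k+1), q S) →
            (∀ S ∈ (insert x Z).powersetCard (k+1), q S) := by
          intro Y Z q hY hZ hq1 hq2 S hS
          have hxZ : x ∉ Z := fun h => by
            have := hY (hZ h); simp at this
          rw [Finset.powersetCard_succ_insert hxZ] at hS
          rw [Finset.mem_union] at hS
          rcases hS with hS | hS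
          · exact hq2 S hS
          · rw [Finset.mem_image] at hS
            obtain ⟨S', hS', rfl⟩ := hS
            exact hq1 S' (Finset.powersetCard_mono hZ hS')
        rcases h3 α (X.erase x) (fun S => p (insert x S)) hcard with ⟨Y, hY, hYc, hYp⟩ | ⟨Y, hY, hYc, hYp⟩
        · rcases h1 α Y p hYc.ge with ⟨Z, hZ, hZc, hZp⟩ | ⟨Z, hZ, hZc, hZp⟩
          · left
            have hxZ : x ∉ Z := fun h => by
              have := hY (hZ h); simp at this
            refine ⟨insert x Z, ?_, ?_, key Y Z p hY hZ hYp hZp⟩
            · intro y hy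
              rcases Finset.mem_insert.1 hy with rfl | hy
              · exact hx
              · exact Finset.mem_of_mem_erase (hY (hZ hy))
            · rw [Finset.card_insert_of_notMem hxZ, hZc]
          · right
            exact ⟨Z, hZ.trans (hY.trans (Finset.erase_subset _ _)), hZc, hZp⟩
        · rcases h2 α Y p hYc.ge with ⟨Z, hZ, hZc, hZp⟩ | ⟨Z, hZ, hZc, hZp⟩
          · left
            exact ⟨Z, hZ.trans (hY.trans (Finset.erase_subset _ _)), hZc, hZp⟩
          · right
            have hxZ : x ∉ Z := fun h => by
              have := hY (hZ h); simp at this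
            refine ⟨insert x Z, ?_, ?_, key Y Z (fun S => ¬ p S) hY hZ hYp hZp⟩
            · intro y hy
              rcases Finset.mem_insert.1 hy with rfl | hy
              · exact hx
              · exact Finset.mem_of_mem_erase (hY (hZ hy))
            · rw [Finset.card_insert_of_notMem hxZ, hZc]


end Pool.Agent.L5helper41.Ram
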