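import Pool.Agent.L5helper41.SemiFam

/-!
Embedding: from a finite family of levels to a sequence of points of the plane whose triple
relation (one fixed polynomial inequality) steps up the adjacency of the levels.
-/

set_option autoImplicit false
set_option linter.unusedVariables false
set_option linter.unusedSectionVars false

namespace Pool.Agent.L5helper41.Semi

open Finset

noncomputable def wsum {ι : Type} (κ : ι → ℕ) (U : Finset ι) : ℝ := ∑ v ∈ U, (1000 : ℝ) ^ (κ v)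

theorem wsum_nonneg {ι : Type} (κ : ι → ℕ) (U : Finset ι) : 0 ≤ wsum κ U :=
  Finset.sum_nonneg (fun _ _ => by positivity)

theorem low_sum {ι : Type} (κ : ι → ℕ) (hinj : ∀ v w, κ v = κ w → v = w) (U : Finset ι) (K : ℕ)
    (h : ∀ v ∈ U, κ v < K) : 999 * wsum κ U ≤ (1000 : ℝ) ^ K := by
  classical
  have h1 : wsum κ U = ∑ j ∈ U.image κ, (1000 : ℝ) ^ j := by
    unfold wsum
    rw [Finset.sum_image (fun a _ b _ hab => hinj a b hab)]
  have h2 : ∑ j ∈ U.image κ, (1000 : ℝ) ^ j ≤ ∑ j ∈ Finset.range K, (1000 : ℝ) ^ j := by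
    apply Finset.sum_le_sum_of_subset_of_nonneg
    · intro j hj
      rw [Finset.mem_image] at hj
      obtain ⟨v, hv, rfl⟩ := hj
      exact Finset.mem_range.2 (h v hv)
    · intro i _ _; positivity
  have h3 := geom_sum_mul (1000 : ℝ) K
  rw [h1]
  nlinarith [h2, h3]

def Top {ι : Type} (t : ι → ℕ) (U U' : Finset ι) (a : ι) : Prop :=
  a ∈ U' ∧ a ∉ U ∧ ∀ b, t a < t b → (b ∈ U ↔ b ∈ U')

theorem top_diff {ι : Type} (t κ : ι → ℕ) (hinj : ∀ v w, t v = t w → v = w)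
    (hκ : ∀ v w, t v < t w → κ v < κ w) (U U' : Finset ι) (a : ι) (h : Top t U U' a) :
    0.998 * (1000 : ℝ) ^ (κ a) ≤ wsum κ U' - wsum κ U ∧
      wsum κ U' - wsum κ U ≤ 1.002 * (1000 : ℝ) ^ (κ a) := by
  classical
  obtain ⟨h1, h2, h3⟩ := h
  have hκinj : ∀ v w, κ v = κ w → v = w := by
    intro v w hvw
    rcases lt_trichotomy (t v) (t w) with h | h | h
    · have := hκ _ _ h; omega
    · exact hinj _ _ h
    · have := hκ _ _ h; omega
  have e1 : wsum κ U = wsum κ (U.filter (fun v => t a < t v)) + wsum κ (U.filter (fun v => ¬ t a < t v)) := by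
    unfold wsum
    rw [Finset.sum_filter_add_sum_filter_not]
  have e2 : wsum κ U' = wsum κ (U'.filter (fun v => t a < t v)) + wsum κ (U'.filter (fun v => ¬ t a < t v)) := by
    unfold wsum
    rw [Finset.sum_filter_add_sum_filter_not]
  have e3 : U.filter (fun v => t a < t v) = U'.filter (fun v => t a < t v) := by
    ext v
    simp only [mem_filter]
    constructor
    · rintro ⟨x, y⟩; exact ⟨(h3 v y).1 x, y⟩
    · rintro ⟨x, y⟩; exact ⟨(h3 v y).2 x, y⟩
  have e4 : wsum κ (U'.filter (fun v => ¬ t a < t v)) =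
      (1000 : ℝ) ^ (κ a) + wsum κ ((U'.filter (fun v => ¬ t a < t v)).erase a) := by
    unfold wsum
    refine (Finset.add_sum_erase _ (fun v => (1000 : ℝ) ^ (κ v)) ?_).symm
    simp only [mem_filter]
    exact ⟨h1, lt_irrefl _⟩
  have l1 := low_sum κ hκinj (U.filter (fun v => ¬ t a < t v)) (κ a) (by
    intro v hv
    simp only [mem_filter] at hv
    apply hκ
    rcases lt_trichotomy (t v) (t a) with h | h | h
    · exact h
    · exact absurd (hinj _ _ h ▸ hv.1) h2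
    · exact absurd h hv.2)
  have l2 := low_sum κ hκinj ((U'.filter (fun v => ¬ t a < t v)).erase a) (κ a) (by
    intro v hv
    simp only [mem_erase, mem_filter] at hv
    apply hκ
    rcases lt_trichotomy (t v) (t a) with h | h | h
    · exact h
    · exact absurd (hinj _ _ h) hv.1
    · exact absurd h hv.2.2)
  have n1 := wsum_nonneg κ (U.filter (fun v => ¬ t a < t v))
  have n2 := wsum_nonneg κ ((U'.filter (fun v => ¬ t a < t v)).erase a)
  have hp : (0 : ℝ) < 1000 ^ (κ a) := by positivity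
  rw [e1, e2, e3, e4]
  constructor <;> linarith

/-- the quartic-type form whose sign encodes the adjacency -/
def FF (w1 w2 u1 u2 : ℝ) : ℝ :=
  w1 ^ 3 * w2 * u1 ^ 4 * u2 - 2 * (w1 ^ 5 * u1 ^ 5 * u2 + w1 * w2 ^ 2 * u2 ^ 2 + w1 ^ 2 * w2 * u1 ^ 8)

theorem core_pos (P1 P2 P3 Q1 Q2 Q3 : ℝ) (h1 : 0 < P1) (h2 : 0 < P2) (h3 : 0 < P3)
    (q1 : Q1 ≤ P1 / 6) (q2 : Q2 ≤ P2 / 6) (q3 : Q3 ≤ P3 / 6) :
    0 ≤ P1 * P2 * P3 - 2 * (Q1 * P2 * P3 + P1 * Q2 * P3 + P1 * P2 * Q3) := by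
  have a1 : Q1 * P2 * P3 ≤ (P1 / 6) * P2 * P3 := by gcongr
  have a2 : P1 * Q2 * P3 ≤ P1 * (P2 / 6) * P3 := by gcongr
  have a3 : P1 * P2 * Q3 ≤ P1 * P2 * (P3 / 6) := by gcongr
  nlinarith

theorem core_neg (P1 P2 P3 Q1 Q2 Q3 : ℝ) (h1 : 0 < P1) (h2 : 0 < P2) (h3 : 0 < P3)
    (p1 : 0 < Q1) (p2 : 0 < Q2) (p3 : 0 < Q3)
    (h : P1 / 2 < Q1 ∨ P2 / 2 < Q2 ∨ P3 / 2 < Q3) :
    P1 * P2 * P3 - 2 * (Q1 * P2 * P3 + P1 * Q2 * P3 + P1 * P2 * Q3) < 0 := by
  have b1 : 0 < Q1 * P2 * P3 := by positivity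
  have b2 : 0 < P1 * Q2 * P3 := by positivity
  have b3 : 0 < P1 * P2 * Q3 := by positivity
  rcases h with h | h | h
  · have : (P1 / 2) * P2 * P3 < Q1 * P2 * P3 := by gcongr
    linarith
  · have : P1 * (P2 / 2) * P3 < P1 * Q2 * P3 := by gcongr
    linarith
  · have : P1 * P2 * (P3 / 2) < P1 * P2 * Q3 := by gcongr
    linarith

theorem pow_sep (x y : ℕ) (h : x < y) : 1000 * (1000 : ℝ) ^ x ≤ 1000 ^ y := by
  rw [← pow_succ']
  exact pow_le_pow_right₀ (by norm_num) h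

theorem pow_ge (x y : ℕ) (h : x ≤ y) : (1000 : ℝ) ^ x ≤ 1000 ^ y :=
  pow_le_pow_right₀ (by norm_num) h

theorem edge_iff (ea ta eb tb : ℕ) (w1 w2 u1 u2 : ℝ)
    (hw1 : 0.998 * (1000 : ℝ) ^ ta ≤ w1) (hw1' : w1 ≤ 1.002 * (1000 : ℝ) ^ ta)
    (hw2 : 0.998 * (1000 : ℝ) ^ (2 * ta + ea) ≤ w2) (hw2' : w2 ≤ 1.002 * (1000 : ℝ) ^ (2 * ta + ea))
    (hu1 : 0.998 * (1000 : ℝ) ^ tb ≤ u1) (hu1' : u1 ≤ 1.002 * (1000 : ℝ) ^ tb)
    (hu2 : 0.998 * (1000 : ℝ) ^ (2 * tb + eb) ≤ u2) (hu2' : u2 ≤ 1.002 * (1000 : ℝ) ^ (2 * tb + eb)) :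
    0 ≤ FF w1 w2 u1 u2 ↔ Adj (eb, tb) (ea, ta) := by
  have pA : (0 : ℝ) < 1000 ^ ta := by positivity
  have pA2 : (0 : ℝ) < 1000 ^ (2 * ta + ea) := by positivity
  have pB : (0 : ℝ) < 1000 ^ tb := by positivity
  have pB2 : (0 : ℝ) < 1000 ^ (2 * tb + eb) := by positivity
  have w1p : 0 < w1 := by linarith
  have w2p : 0 < w2 := by linarith
  have u1p : 0 < u1 := by linarith
  have u2p : 0 < u2 := by linarith
  have key : FF w1 w2 u1 u2 = w2 * (w1 ^ 2 * u1 ^ 4) * (w1 * u2) -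
      2 * ((u1 * w1 ^ 2) * (w1 ^ 2 * u1 ^ 4) * (w1 * u2) + w2 * (w2 * u2) * (w1 * u2) +
        w2 * (w1 ^ 2 * u1 ^ 4) * (u1 ^ 4)) := by
    unfold FF; ring
  -- upper and lower estimates for the six monomials
  have Q1u : u1 * w1 ^ 2 ≤ (1.002 * (1000 : ℝ) ^ tb) * (1.002 * (1000 : ℝ) ^ ta) ^ 2 := by gcongr
  have Q1l : (0.998 * (1000 : ℝ) ^ tb) * (0.998 * (1000 : ℝ) ^ ta) ^ 2 ≤ u1 * w1 ^ 2 := by gcongr
  have P2u : w1 ^ 2 * u1 ^ 4 ≤ (1.002 * (1000 : ℝ) ^ ta) ^ 2 * (1.002 * (1000 : ℝ) ^ tb) ^ 4 := by gcongr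
  have P2l : (0.998 * (1000 : ℝ) ^ ta) ^ 2 * (0.998 * (1000 : ℝ) ^ tb) ^ 4 ≤ w1 ^ 2 * u1 ^ 4 := by gcongr
  have Q2u : w2 * u2 ≤ (1.002 * (1000 : ℝ) ^ (2 * ta + ea)) * (1.002 * (1000 : ℝ) ^ (2 * tb + eb)) := by gcongr
  have Q2l : (0.998 * (1000 : ℝ) ^ (2 * ta + ea)) * (0.998 * (1000 : ℝ) ^ (2 * tb + eb)) ≤ w2 * u2 := by gcongr
  have P3u : w1 * u2 ≤ (1.002 * (1000 : ℝ) ^ ta) * (1.002 * (1000 : ℝ) ^ (2 * tb + eb)) := by gcongr
  have P3l : (0.998 * (1000 : ℝ) ^ ta) * (0.998 * (1000 : ℝ) ^ (2 * tb + eb)) ≤ w1 * u2 := by gcongr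
  have Q3u : u1 ^ 4 ≤ (1.002 * (1000 : ℝ) ^ tb) ^ 4 := by gcongr
  have Q3l : (0.998 * (1000 : ℝ) ^ tb) ^ 4 ≤ u1 ^ 4 := by gcongr
  -- the monomials in the base
  have m1 : (1000 : ℝ) ^ tb * ((1000 : ℝ) ^ ta) ^ 2 = 1000 ^ (tb + 2 * ta) := by
    rw [← pow_mul, ← pow_add]; ring_nf
  have m2 : ((1000 : ℝ) ^ ta) ^ 2 * ((1000 : ℝ) ^ tb) ^ 4 = 1000 ^ (2 * ta + 4 * tb) := by
    rw [← pow_mul, ← pow_mul, ← pow_add]; ring_nf
  have m3 : (1000 : ℝ) ^ (2 * ta + ea) * (1000 : ℝ) ^ (2 * tb + eb) = 1000 ^ (2 * ta + ea + (2 * tb + eb)) := by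
    rw [← pow_add]
  have m4 : (1000 : ℝ) ^ ta * (1000 : ℝ) ^ (2 * tb + eb) = 1000 ^ (ta + (2 * tb + eb)) := by
    rw [← pow_add]
  have m5 : ((1000 : ℝ) ^ tb) ^ 4 = 1000 ^ (4 * tb) := by
    rw [← pow_mul]; ring_nf
  have Q1u' : u1 * w1 ^ 2 ≤ 1.01 * 1000 ^ (tb + 2 * ta) := by
    rw [← m1]
    have : (0 : ℝ) < 1000 ^ tb * ((1000 : ℝ) ^ ta) ^ 2 := by positivity
    nlinarith [Q1u]
  have Q1l' : 0.99 * 1000 ^ (tb + 2 * ta) ≤ u1 * w1 ^ 2 := by
    rw [← m1]
    have : (0 : ℝ) < 1000 ^ tb * ((1000 : ℝ) ^ ta) ^ 2 := by positivity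
    nlinarith [Q1l]
  have P2u' : w1 ^ 2 * u1 ^ 4 ≤ 1.02 * 1000 ^ (2 * ta + 4 * tb) := by
    rw [← m2]
    have : (0 : ℝ) < ((1000 : ℝ) ^ ta) ^ 2 * ((1000 : ℝ) ^ tb) ^ 4 := by positivity
    nlinarith [P2u]
  have P2l' : 0.98 * 1000 ^ (2 * ta + 4 * tb) ≤ w1 ^ 2 * u1 ^ 4 := by
    rw [← m2]
    have : (0 : ℝ) < ((1000 : ℝ) ^ ta) ^ 2 * ((1000 : ℝ) ^ tb) ^ 4 := by positivity
    nlinarith [P2l]
  have Q2u' : w2 * u2 ≤ 1.01 * 1000 ^ (2 * ta + ea + (2 * tb + eb)) := by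
    rw [← m3]
    have : (0 : ℝ) < (1000 : ℝ) ^ (2 * ta + ea) * (1000 : ℝ) ^ (2 * tb + eb) := by positivity
    nlinarith [Q2u]
  have Q2l' : 0.99 * 1000 ^ (2 * ta + ea + (2 * tb + eb)) ≤ w2 * u2 := by
    rw [← m3]
    have : (0 : ℝ) < (1000 : ℝ) ^ (2 * ta + ea) * (1000 : ℝ) ^ (2 * tb + eb) := by positivity
    nlinarith [Q2l]
  have P3u' : w1 * u2 ≤ 1.01 * 1000 ^ (ta + (2 * tb + eb)) := by
    rw [← m4]
    have : (0 : ℝ) < (1000 : ℝ) ^ ta * (1000 : ℝ) ^ (2 * tb + eb) := by positivity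
    nlinarith [P3u]
  have P3l' : 0.99 * 1000 ^ (ta + (2 * tb + eb)) ≤ w1 * u2 := by
    rw [← m4]
    have : (0 : ℝ) < (1000 : ℝ) ^ ta * (1000 : ℝ) ^ (2 * tb + eb) := by positivity
    nlinarith [P3l]
  have Q3u' : u1 ^ 4 ≤ 1.01 * 1000 ^ (4 * tb) := by
    rw [← m5]
    have : (0 : ℝ) < ((1000 : ℝ) ^ tb) ^ 4 := by positivity
    nlinarith [Q3u]
  have Q3l' : 0.99 * 1000 ^ (4 * tb) ≤ u1 ^ 4 := by
    rw [← m5]
    have : (0 : ℝ) < ((1000 : ℝ) ^ tb) ^ 4 := by positivity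
    nlinarith [Q3l]
  rw [key]
  constructor
  · intro h
    by_contra hc
    have hor : w2 / 2 < u1 * w1 ^ 2 ∨ (w1 ^ 2 * u1 ^ 4) / 2 < w2 * u2 ∨ (w1 * u2) / 2 < u1 ^ 4 := by
      unfold Adj at hc
      simp only [not_and_or, not_lt] at hc
      rcases hc with hc | hc | hc
      · left
        have := pow_ge (2 * ta + ea) (tb + 2 * ta) (by omega)
        linarith
      · right; left
        have := pow_ge (2 * ta + 4 * tb) (2 * ta + ea + (2 * tb + eb)) (by omega)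
        have hp : (0 : ℝ) < 1000 ^ (2 * ta + ea + (2 * tb + eb)) := by positivity
        linarith
      · right; right
        have := pow_ge (ta + (2 * tb + eb)) (4 * tb) (by omega)
        have hp : (0 : ℝ) < 1000 ^ (4 * tb) := by positivity
        linarith
    have := core_neg w2 (w1 ^ 2 * u1 ^ 4) (w1 * u2) (u1 * w1 ^ 2) (w2 * u2) (u1 ^ 4)
      w2p (by positivity) (by positivity) (by positivity) (by positivity) (by positivity) hor
    linarith
  · rintro ⟨h1, h2, h3⟩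
    simp only at h1 h2 h3
    apply core_pos
    · exact w2p
    · positivity
    · positivity
    · have := pow_sep (tb + 2 * ta) (2 * ta + ea) (by omega)
      linarith
    · have := pow_sep (2 * ta + ea + (2 * tb + eb)) (2 * ta + 4 * tb) (by omega)
      linarith
    · have := pow_sep (4 * tb) (ta + (2 * tb + eb)) (by omega)
      linarith


/-- the point of the plane attached to a set of levels -/
noncomputable def pt {ι : Type} (g : ι → ℕ × ℕ) (U : Finset ι) : ℝ × ℝ :=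
  (wsum (fun v => (g v).2) U, wsum (fun v => 2 * (g v).2 + (g v).1) U)

/-- the relation on three points -/
def Edge (a b c : ℝ × ℝ) : Prop := 0 ≤ FF (b.1 - a.1) (b.2 - a.2) (c.1 - b.1) (c.2 - b.2)

section emb

variable {ι : Type} [Fintype ι] (g : ι → ℕ × ℕ) (hinj : ∀ v w, (g v).2 = (g w).2 → v = w)
  (hmono : ∀ v w, (g v).2 < (g w).2 → 2 * (g v).2 + (g v).1 < 2 * (g w).2 + (g w).1)

include hinj hmono in
theorem top_edge (U1 U2 U3 : Finset ι) (a b : ι) (h1 : Top (fun v => (g v).2) U1 U2 a)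
    (h2 : Top (fun v => (g v).2) U2 U3 b) :
    Edge (pt g U1) (pt g U2) (pt g U3) ↔ Adj (g b) (g a) := by
  have x1 := top_diff (fun v => (g v).2) (fun v => (g v).2) hinj (fun _ _ h => h) U1 U2 a h1
  have y1 := top_diff (fun v => (g v).2) (fun v => 2 * (g v).2 + (g v).1) hinj hmono U1 U2 a h1
  have x2 := top_diff (fun v => (g v).2) (fun v => (g v).2) hinj (fun _ _ h => h) U2 U3 b h2
  have y2 := top_diff (fun v => (g v).2) (fun v => 2 * (g v).2 + (g v).1) hinj hmono U2 U3 b h2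
  have := edge_iff (g a).1 (g a).2 (g b).1 (g b).2 _ _ _ _ x1.1 x1.2 y1.1 y1.2 x2.1 x2.2 y2.1 y2.2
  exact this

include hinj in
theorem top_lt (U U' : Finset ι) (a : ι) (h : Top (fun v => (g v).2) U U' a) :
    (pt g U).1 < (pt g U').1 := by
  have x1 := top_diff (fun v => (g v).2) (fun v => (g v).2) hinj (fun _ _ h => h) U U' a h
  have hp : (0 : ℝ) < 1000 ^ (g a).2 := by positivity
  have h1 := x1.1
  simp only [pt]
  linarith

theorem exists_top' (U U' : Finset ι) (h : U ≠ U') :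
    ∃ a, Top (fun v => (g v).2) U U' a ∨ Top (fun v => (g v).2) U' U a := by
  classical
  have hne : (symmDiff U U').Nonempty := by
    rw [Finset.nonempty_iff_ne_empty]
    intro h0
    exact h (symmDiff_eq_bot.1 h0)
  obtain ⟨a, ha, hmax⟩ := Finset.exists_max_image (symmDiff U U') (fun v => (g v).2) hne
  have hb : ∀ b, (g a).2 < (g b).2 → (b ∈ U ↔ b ∈ U') := by
    intro b hb
    by_contra hc
    have : b ∈ symmDiff U U' := by
      rw [Finset.mem_symmDiff]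
      tauto
    have := hmax b this
    omega
  rw [Finset.mem_symmDiff] at ha
  refine ⟨a, ?_⟩
  rcases ha with ha | ha
  · right
    exact ⟨ha.1, ha.2, fun b h => (hb b h).symm⟩
  · left
    exact ⟨ha.1, ha.2, hb⟩

include hinj in
theorem exists_top (U U' : Finset ι) (h : (pt g U).1 < (pt g U').1) :
    ∃ a, Top (fun v => (g v).2) U U' a := by
  have hne : U ≠ U' := by
    rintro rfl
    exact lt_irrefl _ h
  obtain ⟨a, ha | ha⟩ := exists_top' g U U' hne
  · exact ⟨a, ha⟩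
  · have := top_lt g hinj U' U a ha
    exact absurd h (not_lt.2 this.le)

theorem top_trans (U1 U2 U3 : Finset ι) (a b : ι) (h1 : Top (fun v => (g v).2) U1 U2 a)
    (h2 : Top (fun v => (g v).2) U2 U3 b) (hab : (g b).2 < (g a).2) :
    Top (fun v => (g v).2) U1 U3 a := by
  refine ⟨(h2.2.2 a hab).1 h1.1, h1.2.1, ?_⟩
  intro c hc
  simp only at hc hab
  rw [h1.2.2 c hc]
  exact h2.2.2 c (by simp only; omega)

include hinj hmono in
theorem no_four (htri : ∀ x y z, Adj (g x) (g y) → Adj (g y) (g z) → Adj (g x) (g z) → False)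
    (U1 U2 U3 U4 : Finset ι) (h12 : (pt g U1).1 < (pt g U2).1) (h23 : (pt g U2).1 < (pt g U3).1)
    (h34 : (pt g U3).1 < (pt g U4).1)
    (e123 : Edge (pt g U1) (pt g U2) (pt g U3)) (e134 : Edge (pt g U1) (pt g U3) (pt g U4))
    (e234 : Edge (pt g U2) (pt g U3) (pt g U4)) : False := by
  obtain ⟨a, ha⟩ := exists_top g hinj U1 U2 h12
  obtain ⟨b, hb⟩ := exists_top g hinj U2 U3 h23
  obtain ⟨c, hc⟩ := exists_top g hinj U3 U4 h34
  have k1 := (top_edge g hinj hmono U1 U2 U3 a b ha hb).1 e123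
  have k2 := (top_edge g hinj hmono U2 U3 U4 b c hb hc).1 e234
  have hba : (g b).2 < (g a).2 := by
    obtain ⟨h1, h2, h3⟩ := k1
    omega
  have ha' := top_trans g U1 U2 U3 a b ha hb hba
  have k3 := (top_edge g hinj hmono U1 U3 U4 a c ha' hc).1 e134
  exact htri c b a k2 k1 k3

open Classical in
include hinj hmono in
theorem indep_card (r : ℕ)
    (hr : ∀ S : Finset ι, (∀ x ∈ S, ∀ y ∈ S, ¬ Adj (g x) (g y)) → S.card ≤ r)
    (𝓢 : Finset (Finset ι))
    (hS : ∀ U1 ∈ 𝓢, ∀ U2 ∈ 𝓢, ∀ U3 ∈ 𝓢, (pt g U1).1 < (pt g U2).1 → (pt g U2).1 < (pt g U3).1 →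
      ¬ Edge (pt g U1) (pt g U2) (pt g U3)) :
    𝓢.card ≤ ((univ : Finset (Finset ι)).filter (fun I => I.card ≤ r)).card := by
  set I : Finset ι → Finset ι := fun U =>
    univ.filter (fun a => ∃ U' ∈ 𝓢, Top (fun v => (g v).2) U' U a) with hI
  apply Finset.card_le_card_of_injOn I
  · intro U hU
    rw [Finset.mem_coe, mem_filter]
    refine ⟨mem_univ _, ?_⟩
    apply hr
    intro b hb a ha hab
    simp only [hI, mem_filter, mem_univ, true_and] at ha hb
    obtain ⟨U', hU', ta⟩ := ha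
    obtain ⟨U'', hU'', tb⟩ := hb
    have hba : (g b).2 < (g a).2 := by
      obtain ⟨h1, h2, h3⟩ := hab
      omega
    have t1 : Top (fun v => (g v).2) U' U'' a := by
      refine ⟨(tb.2.2 a hba).2 ta.1, ta.2.1, ?_⟩
      intro c hc
      simp only at hc hba
      rw [ta.2.2 c hc]
      exact (tb.2.2 c (by simp only; omega)).symm
    exact hS U' hU' U'' hU'' U hU (top_lt g hinj _ _ _ t1) (top_lt g hinj _ _ _ tb)
      ((top_edge g hinj hmono U' U'' U a b t1 tb).2 hab)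
  · intro U hU U' hU' hEq
    by_contra hne
    have key : ∀ V ∈ 𝓢, ∀ V' ∈ 𝓢, I V = I V' → ∀ a, ¬ Top (fun v => (g v).2) V V' a := by
      intro V hV V' hV' hVV a ha
      have h1 : a ∈ I V' := by
        simp only [hI, mem_filter, mem_univ, true_and]
        exact ⟨V, hV, ha⟩
      rw [← hVV] at h1
      simp only [hI, mem_filter, mem_univ, true_and] at h1
      obtain ⟨W, _, hW⟩ := h1
      exact ha.2.1 hW.1
    obtain ⟨a, ha | ha⟩ := exists_top' g U U' hne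
    · exact key U hU U' hU' hEq a ha
    · exact key U' hU' U hU hEq.symm a ha

end emb

open Classical in
/-- number of small subsets -/
theorem small_subsets {ι : Type} [Fintype ι] (k A : ℕ) (hk : 2 ≤ k) (hc : Fintype.card ι = k * A) :
    ((univ : Finset (Finset ι)).filter (fun I => I.card ≤ 2 * A)).card ≤ (3 * k ^ 2) ^ A := by
  have h1 : ∑ I : Finset ι, (1 : ℕ) ^ I.card * k ^ (Fintype.card ι - I.card) = (1 + k) ^ Fintype.card ι := by
    rw [Fintype.sum_pow_mul_eq_add_pow]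
  have h2 : ((univ : Finset (Finset ι)).filter (fun I => I.card ≤ 2 * A)).card * k ^ (k * A - 2 * A)
      ≤ (1 + k) ^ (k * A) := by
    rw [← hc, ← h1, hc]
    calc _ = ∑ I ∈ (univ : Finset (Finset ι)).filter (fun I => I.card ≤ 2 * A), k ^ (k * A - 2 * A) := by
          rw [Finset.sum_const, smul_eq_mul]
      _ ≤ ∑ I ∈ (univ : Finset (Finset ι)).filter (fun I => I.card ≤ 2 * A),
            (1 : ℕ) ^ I.card * k ^ (k * A - I.card) := by
          refine Finset.sum_le_sum (fun I hI => ?_)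
          rw [mem_filter] at hI
          rw [one_pow, one_mul]
          exact Nat.pow_le_pow_right (by omega) (by omega)
      _ ≤ _ := Finset.sum_le_sum_of_subset (Finset.filter_subset _ _)
  have h3 : (1 + k) ^ k ≤ 3 * k ^ k := by
    have hk0 : (0 : ℝ) < k := by
      have : 0 < k := by omega
      exact_mod_cast this
    have e1 : (1 + 1 / (k : ℝ)) ^ k ≤ 3 := by
      have e2 : 1 + 1 / (k : ℝ) ≤ Real.exp (1 / k) := by
        have := Real.add_one_le_exp (1 / (k : ℝ))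
        linarith
      calc (1 + 1 / (k : ℝ)) ^ k ≤ (Real.exp (1 / k)) ^ k := by gcongr
        _ = Real.exp 1 := by
            rw [← Real.exp_nat_mul]
            congr 1
            field_simp
        _ ≤ 3 := by linarith [Real.exp_one_lt_d9]
    have e3 : ((1 + k : ℕ) : ℝ) ^ k ≤ 3 * (k : ℝ) ^ k := by
      have e4 : ((1 + k : ℕ) : ℝ) = (1 + 1 / (k : ℝ)) * k := by
        push_cast
        field_simp
        ring
      rw [e4, mul_pow]
      exact mul_le_mul_of_nonneg_right e1 (by positivity)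
    exact_mod_cast e3
  have h4 : (1 + k) ^ (k * A) ≤ (3 * k ^ 2) ^ A * k ^ (k * A - 2 * A) := by
    have e5 : k * A - 2 * A = (k - 2) * A := by
      rw [Nat.sub_mul]
    rw [e5, pow_mul, pow_mul, ← mul_pow]
    apply Nat.pow_le_pow_left
    calc (1 + k) ^ k ≤ 3 * k ^ k := h3
      _ = 3 * k ^ 2 * k ^ (k - 2) := by
          rw [mul_assoc, ← pow_add]
          congr 2
          omega
  have h5 := h2.trans h4
  exact Nat.le_of_mul_le_mul_right h5 (Nat.pow_pos (by omega))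

/-- enumeration of a finite type in the order of an injective real function -/
theorem exists_enum {α : Type} [Fintype α] (X : α → ℝ) (hX : Function.Injective X) (N : ℕ)
    (hN : Fintype.card α = N) : ∃ e : Fin N → α, StrictMono (fun i => X (e i)) := by
  classical
  have hc : (univ.image X).card = N := by
    rw [Finset.card_image_of_injective _ hX, Finset.card_univ, hN]
  have h1 : ∀ i : Fin N, ∃ a : α, X a = (univ.image X).orderEmbOfFin hc i := by
    intro i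
    have := Finset.orderEmbOfFin_mem (univ.image X) hc i
    rw [Finset.mem_image] at this
    obtain ⟨a, _, ha⟩ := this
    exact ⟨a, ha⟩
  choose e he using h1
  refine ⟨e, ?_⟩
  intro i j hij
  simp only [he]
  exact ((univ.image X).orderEmbOfFin hc).strictMono hij

/-- the point sequences -/
theorem exists_points (k M : ℕ) (hk : 2 ≤ k) (hM : 0 < M) :
    ∃ v : Fin (2 ^ (k * ((AP k).1 * M))) → ℝ × ℝ, Function.Injective v ∧
      (∀ i₁ i₂ i₃ i₄, i₁ < i₂ → i₂ < i₃ → i₃ < i₄ → Edge (v i₁) (v i₂) (v i₃) →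
        Edge (v i₁) (v i₃) (v i₄) → Edge (v i₂) (v i₃) (v i₄) → False) ∧
      (∀ S : Finset (Fin (2 ^ (k * ((AP k).1 * M)))),
        (∀ i ∈ S, ∀ j ∈ S, ∀ l ∈ S, i < j → j < l → ¬ Edge (v i) (v j) (v l)) →
        S.card ≤ (3 * k ^ 2) ^ ((AP k).1 * M)) := by
  classical
  obtain ⟨ι, _, g, hcard, hinj, hmono, htri, hind⟩ := exists_levels k M hM
  have hX : Function.Injective (fun U : Finset ι => (pt g U).1) := by
    intro U U' h
    by_contra hne
    obtain ⟨a, ha | ha⟩ := exists_top' g U U' hne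
    · exact absurd h (ne_of_lt (top_lt g hinj _ _ _ ha))
    · exact absurd h (ne_of_gt (top_lt g hinj _ _ _ ha))
  obtain ⟨e, he⟩ := exists_enum (fun U : Finset ι => (pt g U).1) hX (2 ^ (k * ((AP k).1 * M)))
    (by rw [Fintype.card_finset, hcard])
  refine ⟨fun i => pt g (e i), ?_, ?_, ?_⟩
  · intro i j h
    exact he.injective (congrArg Prod.fst h)
  · intro i₁ i₂ i₃ i₄ h1 h2 h3 e1 e2 e3
    exact no_four g hinj hmono htri (e i₁) (e i₂) (e i₃) (e i₄) (he h1) (he h2) (he h3) e1 e2 e3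
  · intro S hS
    have h1 := indep_card g hinj hmono (2 * ((AP k).1 * M)) hind (S.image e) (by
      intro U1 h1 U2 h2 U3 h3 h12 h23
      rw [mem_image] at h1 h2 h3
      obtain ⟨i, hi, rfl⟩ := h1
      obtain ⟨j, hj, rfl⟩ := h2
      obtain ⟨l, hl, rfl⟩ := h3
      exact hS i hi j hj l hl (he.lt_iff_lt.1 h12) (he.lt_iff_lt.1 h23))
    have h2 : (S.image e).card = S.card := by
      apply Finset.card_image_of_injective
      intro i j h
      exact he.injective (by simp only [h])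
    rw [h2] at h1
    refine h1.trans ?_
    have := small_subsets (ι := ι) k ((AP k).1 * M) hk hcard
    convert this

end Pool.Agent.L5helper41.Semi
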