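import Mathlib

/-!
Families of pairs `(e, t)` of natural numbers, `e < t`, whose adjacency
`t_w < e_v < 2 t_w - e_w < t_v` is triangle-free and all of whose independent sets are small.
-/

set_option autoImplicit false
set_option linter.unusedVariables false
set_option linter.unusedSectionVars false

namespace Pool.Agent.L5helper41.Semi

open Finset

/-- adjacency of the level `w = (e, t)` with the later level `v` -/
def Adj (w v : ℕ × ℕ) : Prop := w.2 < v.1 ∧ v.1 + w.1 < 2 * w.2 ∧ 2 * w.2 < v.2 + w.1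

/-- `v` is active at the unit interval `[p, p+1]` -/
def Act (v : ℕ × ℕ) (p : ℕ) : Prop := v.2 ≤ p ∧ p + v.1 < 2 * v.2

theorem adj_affine (a b e t e' t' : ℕ) (hb : 0 < b) :
    Adj (a + b * e, a + b * t) (a + b * e', a + b * t') ↔ Adj (e, t) (e', t') := by
  unfold Adj
  simp only
  have h1 : a + b * t < a + b * e' ↔ t < e' := by
    constructor
    · intro h
      have : b * t < b * e' := by omega
      exact lt_of_mul_lt_mul_left this (Nat.zero_le b)
    · intro h
      have := Nat.mul_lt_mul_of_pos_left h hb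
      omega
  have h2 : a + b * e' + (a + b * e) < 2 * (a + b * t) ↔ e' + e < 2 * t := by
    constructor
    · intro h
      have : b * (e' + e) < b * (2 * t) := by nlinarith
      exact lt_of_mul_lt_mul_left this (Nat.zero_le b)
    · intro h
      have := Nat.mul_lt_mul_of_pos_left h hb
      nlinarith
  have h3 : 2 * (a + b * t) < a + b * t' + (a + b * e) ↔ 2 * t < t' + e := by
    constructor
    · intro h
      have : b * (2 * t) < b * (t' + e) := by nlinarith
      exact lt_of_mul_lt_mul_left this (Nat.zero_le b)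
    · intro h
      have := Nat.mul_lt_mul_of_pos_left h hb
      nlinarith
  rw [h1, h2, h3]

structure Fam (ι π : Type) where
  g : ι → ℕ × ℕ
  pos : π → ℕ
  L : ℕ
  lt : ∀ v, (g v).1 < (g v).2
  le : ∀ v, 2 * (g v).2 ≤ L + (g v).1
  posle : ∀ p, pos p + 1 ≤ L
  posinj : ∀ p q, pos p = pos q → p = q
  inj : ∀ v w, (g v).2 = (g w).2 → v = w
  mono : ∀ v w, (g v).2 < (g w).2 → 2 * (g v).2 + (g v).1 < 2 * (g w).2 + (g w).1
  buf : ∀ p v, pos p < (g v).2 → 3 * (pos p + 1) ≤ 2 * (g v).2 + (g v).1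
  tri : ∀ x y z, Adj (g x) (g y) → Adj (g y) (g z) → Adj (g x) (g z) → False
  ind : ∀ p x y, Act (g x) (pos p) → Act (g y) (pos p) → ¬ Adj (g x) (g y)

theorem cmp (s a b : ℕ) : (a ≤ b ∧ s * a ≤ s * b) ∨ (b + 1 ≤ a ∧ s * b + s ≤ s * a) := by
  rcases Nat.lt_or_ge b a with h | h
  · right
    refine ⟨h, ?_⟩
    have := Nat.mul_le_mul_left s h
    rw [Nat.mul_succ] at this
    exact this
  · left
    exact ⟨h, Nat.mul_le_mul_left s h⟩

theorem tricmp (s a b : ℕ) : (a = b) ∨ (a + 1 ≤ b ∧ s * a + s ≤ s * b) ∨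
    (b + 1 ≤ a ∧ s * b + s ≤ s * a) := by
  rcases lt_trichotomy a b with h | h | h
  · right; left
    refine ⟨h, ?_⟩
    have := Nat.mul_le_mul_left s (show a + 1 ≤ b from h)
    rw [Nat.mul_succ] at this
    exact this
  · left; exact h
  · right; right
    refine ⟨h, ?_⟩
    have := Nat.mul_le_mul_left s (show b + 1 ≤ a from h)
    rw [Nat.mul_succ] at this
    exact this

section step

variable {ι₀ π₀ ι₁ π₁ : Type} (F₀ : Fam ι₀ π₀) (F₁ : Fam ι₁ π₁) (m s σ : ℕ) (τ : ℕ → ℕ)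

def newg : ι₀ ⊕ (π₀ × ι₁) ⊕ (π₀ × π₁ × Fin m) → ℕ × ℕ
  | Sum.inl v => (s * (F₀.g v).1, s * (F₀.g v).2)
  | Sum.inr (Sum.inl (p, v)) =>
      (s * F₀.pos p + 1 + σ * (F₁.g v).1, s * F₀.pos p + 1 + σ * (F₁.g v).2)
  | Sum.inr (Sum.inr (p, q, i)) =>
      (s * F₀.pos p + 1 + (σ * F₁.pos q + 1 + i), s * F₀.pos p + 1 + (τ (F₁.pos q) + i))

def newpos : (π₀ × π₁) ⊕ (π₀ × π₁) → ℕ
  | Sum.inl (p, q) => s * F₀.pos p + 1 + (σ * F₁.pos q + m + 1)
  | Sum.inr (p, q) => s * F₀.pos p + 1 + (τ (F₁.pos q) + m)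

variable (L T : ℕ) (hL0 : F₀.L ≤ L) (hL1 : F₁.L ≤ L) (hσ : σ = m + 3) (hT : σ * L + m + 10 ≤ T)
  (t1 : ∀ q, 4 * T ≤ τ q) (t2 : ∀ q q', q < q' → 4 * τ q ≤ τ q')
  (t3 : ∀ q, q + 1 ≤ L → 2 * τ q + 2 * m + 10 ≤ s)

include hL1 hσ in
theorem fi (v : ι₁) : σ * (F₁.g v).1 + σ ≤ σ * (F₁.g v).2 ∧ 2 * (σ * (F₁.g v).2) ≤ σ * L + σ * (F₁.g v).1 := by
  have h1 := F₁.lt v
  have h2 := F₁.le v
  constructor
  · have := Nat.mul_le_mul_left σ (show (F₁.g v).1 + 1 ≤ (F₁.g v).2 from h1)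
    rw [Nat.mul_succ] at this
    exact this
  · have := Nat.mul_le_mul_left σ (show 2 * (F₁.g v).2 ≤ L + (F₁.g v).1 by omega)
    nlinarith

include hL0 in
theorem fo (v : ι₀) : s * (F₀.g v).1 + s ≤ s * (F₀.g v).2 ∧ 2 * (s * (F₀.g v).2) ≤ s * L + s * (F₀.g v).1 := by
  have h1 := F₀.lt v
  have h2 := F₀.le v
  constructor
  · have := Nat.mul_le_mul_left s (show (F₀.g v).1 + 1 ≤ (F₀.g v).2 from h1)
    rw [Nat.mul_succ] at this
    exact this
  · have := Nat.mul_le_mul_left s (show 2 * (F₀.g v).2 ≤ L + (F₀.g v).1 by omega)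
    nlinarith

include hL0 in
theorem po (p : π₀) : s * F₀.pos p + s ≤ s * L := by
  have h1 := F₀.posle p
  have := Nat.mul_le_mul_left s (show F₀.pos p + 1 ≤ L by omega)
  rw [Nat.mul_succ] at this
  exact this

include hL1 in
theorem pi1 (q : π₁) : σ * F₁.pos q + σ ≤ σ * L := by
  have h1 := F₁.posle q
  have := Nat.mul_le_mul_left σ (show F₁.pos q + 1 ≤ L by omega)
  rw [Nat.mul_succ] at this
  exact this


/-- nonlinear facts about an outer element relative to a gap -/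
theorem o2 (s t e P : ℕ) : (2 * t ≤ P + e ∧ 2 * (s * t) ≤ s * P + s * e) ∨
    (P + e + 1 ≤ 2 * t ∧ s * P + s * e + s ≤ 2 * (s * t)) := by
  have h := cmp s (2 * t) (P + e)
  rw [show s * (2 * t) = 2 * (s * t) by ring, Nat.mul_add] at h
  exact h

variable (t4 : 4 * T + 10 ≤ s)

include hL1 hσ hT t1 t3 t4 in
theorem adj_cases (hL0 : F₀.L ≤ L) (x y : ι₀ ⊕ (π₀ × ι₁) ⊕ (π₀ × π₁ × Fin m))
    (h : Adj (newg F₀ F₁ m s σ τ x) (newg F₀ F₁ m s σ τ y)) :
    (∃ v w, x = Sum.inl v ∧ y = Sum.inl w ∧ Adj (F₀.g v) (F₀.g w)) ∨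
    (∃ p v w, x = Sum.inr (Sum.inl (p, v)) ∧ y = Sum.inr (Sum.inl (p, w)) ∧ Adj (F₁.g v) (F₁.g w)) ∨
    (∃ p v q i, x = Sum.inr (Sum.inl (p, v)) ∧ y = Sum.inr (Sum.inr (p, q, i)) ∧
      Act (F₁.g v) (F₁.pos q)) := by
  rcases x with v | ⟨p, v⟩ | ⟨p, q, i⟩ <;> rcases y with w | ⟨p', w⟩ | ⟨p', q', i'⟩
  · left
    refine ⟨v, w, rfl, rfl, ?_⟩
    have := adj_affine 0 s (F₀.g v).1 (F₀.g v).2 (F₀.g w).1 (F₀.g w).2 (by omega)
    simp only [Nat.zero_add] at this
    exact this.1 h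
  · exfalso
    obtain ⟨h1, h2, h3⟩ := h
    simp only [newg] at h1 h2 h3
    have := fi F₁ m σ L hL1 hσ w
    have := o2 s (F₀.g v).2 (F₀.g v).1 (F₀.pos p')
    omega
  · exfalso
    obtain ⟨h1, h2, h3⟩ := h
    simp only [newg] at h1 h2 h3
    have := pi1 F₁ σ L hL1 q'
    have := t1 (F₁.pos q')
    have := t3 (F₁.pos q') (by have := F₁.posle q'; omega)
    have := i'.2
    have := o2 s (F₀.g v).2 (F₀.g v).1 (F₀.pos p')
    omega
  · exfalso
    obtain ⟨h1, h2, h3⟩ := h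
    simp only [newg] at h1 h2 h3
    have := fi F₁ m σ L hL1 hσ v
    have := cmp s (F₀.g w).1 (F₀.pos p)
    omega
  · right; left
    obtain ⟨h1, h2, h3⟩ := h
    simp only [newg] at h1 h2 h3
    have a1 := fi F₁ m σ L hL1 hσ v
    have a2 := fi F₁ m σ L hL1 hσ w
    rcases tricmp s (F₀.pos p) (F₀.pos p') with h4 | h4 | h4
    · have := F₀.posinj _ _ h4
      subst this
      refine ⟨p, v, w, rfl, rfl, ?_⟩
      have := adj_affine (s * F₀.pos p + 1) σ (F₁.g v).1 (F₁.g v).2 (F₁.g w).1 (F₁.g w).2 (by omega)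
      exact this.1 ⟨h1, h2, h3⟩
    · exfalso; omega
    · exfalso; omega
  · right; right
    obtain ⟨h1, h2, h3⟩ := h
    simp only [newg] at h1 h2 h3
    have a1 := fi F₁ m σ L hL1 hσ v
    have a2 := pi1 F₁ σ L hL1 q'
    have a3 := t1 (F₁.pos q')
    have a4 := t3 (F₁.pos q') (by have := F₁.posle q'; omega)
    have a5 := i'.2
    rcases tricmp s (F₀.pos p) (F₀.pos p') with h4 | h4 | h4
    · have := F₀.posinj _ _ h4
      subst this
      refine ⟨p, v, q', i', rfl, rfl, ?_⟩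
      have b1 := cmp σ (F₁.g v).2 (F₁.pos q')
      have b2 := o2 σ (F₁.g v).2 (F₁.g v).1 (F₁.pos q')
      constructor <;> omega
    · exfalso; omega
    · exfalso; omega
  · exfalso
    obtain ⟨h1, h2, h3⟩ := h
    simp only [newg] at h1 h2 h3
    have a2 := pi1 F₁ σ L hL1 q
    have a3 := t1 (F₁.pos q)
    have a4 := t3 (F₁.pos q) (by have := F₁.posle q; omega)
    have a5 := i.2
    have := cmp s (F₀.g w).1 (F₀.pos p)
    omega
  · exfalso
    obtain ⟨h1, h2, h3⟩ := h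
    simp only [newg] at h1 h2 h3
    have a1 := fi F₁ m σ L hL1 hσ w
    have a2 := pi1 F₁ σ L hL1 q
    have a3 := t1 (F₁.pos q)
    have a4 := t3 (F₁.pos q) (by have := F₁.posle q; omega)
    have a5 := i.2
    rcases tricmp s (F₀.pos p) (F₀.pos p') with h4 | h4 | h4
    · rw [h4] at h1
      omega
    · omega
    · omega
  · exfalso
    obtain ⟨h1, h2, h3⟩ := h
    simp only [newg] at h1 h2 h3
    have a2 := pi1 F₁ σ L hL1 q
    have a3 := t1 (F₁.pos q)
    have a4 := t3 (F₁.pos q) (by have := F₁.posle q; omega)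
    have a5 := i.2
    have c2 := pi1 F₁ σ L hL1 q'
    have c3 := t1 (F₁.pos q')
    have c4 := t3 (F₁.pos q') (by have := F₁.posle q'; omega)
    have c5 := i'.2
    rcases tricmp s (F₀.pos p) (F₀.pos p') with h4 | h4 | h4
    · rw [h4] at h1
      omega
    · omega
    · omega


include hσ in
theorem adj_ID (p : π₀) (v : ι₁) (q : π₁) (i : Fin m) (hL1 : F₁.L ≤ L)
    (hT : σ * L + m + 10 ≤ T) (t1 : ∀ q, 4 * T ≤ τ q)
    (h : Act (F₁.g v) (F₁.pos q)) :
    Adj (newg F₀ F₁ m s σ τ (Sum.inr (Sum.inl (p, v))))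
      (newg F₀ F₁ m s σ τ (Sum.inr (Sum.inr (p, q, i)))) := by
  obtain ⟨h1, h2⟩ := h
  have a1 := fi F₁ m σ L hL1 hσ v
  have a2 := pi1 F₁ σ L hL1 q
  have a3 := t1 (F₁.pos q)
  have a5 := i.2
  have b1 := cmp σ (F₁.g v).2 (F₁.pos q)
  have b2 := o2 σ (F₁.g v).2 (F₁.g v).1 (F₁.pos q)
  refine ⟨?_, ?_, ?_⟩ <;> simp only [newg] <;> omega

include hL1 hσ hT t1 t2 t3 t4 in
theorem act_casesU (x : ι₀ ⊕ (π₀ × ι₁) ⊕ (π₀ × π₁ × Fin m)) (p : π₀) (q : π₁)
    (h : Act (newg F₀ F₁ m s σ τ x) (newpos F₀ F₁ m s σ τ (Sum.inl (p, q)))) :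
    (∃ v, x = Sum.inl v ∧ Act (F₀.g v) (F₀.pos p)) ∨
    (∃ v, x = Sum.inr (Sum.inl (p, v)) ∧ Act (F₁.g v) (F₁.pos q)) := by
  obtain ⟨h1, h2⟩ := h
  have c2 := pi1 F₁ σ L hL1 q
  have c3 := t1 (F₁.pos q)
  have c4 := t3 (F₁.pos q) (by have := F₁.posle q; omega)
  rcases x with v | ⟨p', v⟩ | ⟨p', q', i⟩
  · simp only [newg, newpos] at h1 h2
    left
    refine ⟨v, rfl, ?_⟩
    have b1 := cmp s (F₀.g v).2 (F₀.pos p)
    have b2 := o2 s (F₀.g v).2 (F₀.g v).1 (F₀.pos p)
    constructor <;> omega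
  · simp only [newg, newpos] at h1 h2
    right
    have a1 := fi F₁ m σ L hL1 hσ v
    rcases tricmp s (F₀.pos p') (F₀.pos p) with h4 | h4 | h4
    · have := F₀.posinj _ _ h4
      subst this
      refine ⟨v, rfl, ?_⟩
      have b1 := cmp σ (F₁.g v).2 (F₁.pos q)
      have b2 := o2 σ (F₁.g v).2 (F₁.g v).1 (F₁.pos q)
      constructor <;> omega
    · exfalso; omega
    · exfalso; omega
  · exfalso
    simp only [newg, newpos] at h1 h2
    have a2 := pi1 F₁ σ L hL1 q'
    have a3 := t1 (F₁.pos q')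
    have a4 := t3 (F₁.pos q') (by have := F₁.posle q'; omega)
    have a5 := i.2
    rcases tricmp s (F₀.pos p') (F₀.pos p) with h4 | h4 | h4
    · rw [h4] at h1 h2
      omega
    · omega
    · omega

include hL1 hσ hT t1 t2 t3 t4 in
theorem act_casesW (x : ι₀ ⊕ (π₀ × ι₁) ⊕ (π₀ × π₁ × Fin m)) (p : π₀) (q : π₁)
    (h : Act (newg F₀ F₁ m s σ τ x) (newpos F₀ F₁ m s σ τ (Sum.inr (p, q)))) :
    (∃ v, x = Sum.inl v ∧ Act (F₀.g v) (F₀.pos p)) ∨
    (∃ i, x = Sum.inr (Sum.inr (p, q, i))) := by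
  obtain ⟨h1, h2⟩ := h
  have c2 := pi1 F₁ σ L hL1 q
  have c3 := t1 (F₁.pos q)
  have c4 := t3 (F₁.pos q) (by have := F₁.posle q; omega)
  rcases x with v | ⟨p', v⟩ | ⟨p', q', i⟩
  · simp only [newg, newpos] at h1 h2
    left
    refine ⟨v, rfl, ?_⟩
    have b1 := cmp s (F₀.g v).2 (F₀.pos p)
    have b2 := o2 s (F₀.g v).2 (F₀.g v).1 (F₀.pos p)
    constructor <;> omega
  · exfalso
    simp only [newg, newpos] at h1 h2
    have a1 := fi F₁ m σ L hL1 hσ v
    rcases tricmp s (F₀.pos p') (F₀.pos p) with h4 | h4 | h4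
    · rw [h4] at h1 h2
      omega
    · omega
    · omega
  · simp only [newg, newpos] at h1 h2
    right
    have a2 := pi1 F₁ σ L hL1 q'
    have a3 := t1 (F₁.pos q')
    have a4 := t3 (F₁.pos q') (by have := F₁.posle q'; omega)
    have a5 := i.2
    rcases tricmp s (F₀.pos p') (F₀.pos p) with h4 | h4 | h4
    · have := F₀.posinj _ _ h4
      subst this
      rcases lt_trichotomy (F₁.pos q') (F₁.pos q) with h5 | h5 | h5
      · exfalso
        have := t2 _ _ h5
        omega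
      · have := F₁.posinj _ _ h5
        subst this
        exact ⟨i, rfl⟩
      · exfalso
        have := t2 _ _ h5
        omega
    · exfalso; omega
    · exfalso; omega

include hL1 hσ hT t1 t2 t3 t4 in
theorem act_O (v : ι₀) (p : π₀) (q : π₁) (h : Act (F₀.g v) (F₀.pos p)) :
    Act (newg F₀ F₁ m s σ τ (Sum.inl v)) (newpos F₀ F₁ m s σ τ (Sum.inl (p, q))) ∧
    Act (newg F₀ F₁ m s σ τ (Sum.inl v)) (newpos F₀ F₁ m s σ τ (Sum.inr (p, q))) := by
  obtain ⟨h1, h2⟩ := h
  have c2 := pi1 F₁ σ L hL1 q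
  have c3 := t1 (F₁.pos q)
  have c4 := t3 (F₁.pos q) (by have := F₁.posle q; omega)
  have b1 := cmp s (F₀.g v).2 (F₀.pos p)
  have b2 := o2 s (F₀.g v).2 (F₀.g v).1 (F₀.pos p)
  refine ⟨⟨?_, ?_⟩, ⟨?_, ?_⟩⟩ <;> simp only [newg, newpos] <;> omega

include hσ in
theorem act_I (p : π₀) (v : ι₁) (q : π₁) (h : Act (F₁.g v) (F₁.pos q)) :
    Act (newg F₀ F₁ m s σ τ (Sum.inr (Sum.inl (p, v))))
      (newpos F₀ F₁ m s σ τ (Sum.inl (p, q))) := by
  obtain ⟨h1, h2⟩ := h
  have b1 := cmp σ (F₁.g v).2 (F₁.pos q)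
  have b2 := o2 σ (F₁.g v).2 (F₁.g v).1 (F₁.pos q)
  refine ⟨?_, ?_⟩ <;> simp only [newg, newpos] <;> omega

theorem act_D (p : π₀) (q : π₁) (i : Fin m) (hL1 : F₁.L ≤ L)
    (hT : σ * L + m + 10 ≤ T) (t1 : ∀ q, 4 * T ≤ τ q) :
    Act (newg F₀ F₁ m s σ τ (Sum.inr (Sum.inr (p, q, i))))
      (newpos F₀ F₁ m s σ τ (Sum.inr (p, q))) := by
  have a2 := pi1 F₁ σ L hL1 q
  have a3 := t1 (F₁.pos q)
  have a5 := i.2
  refine ⟨?_, ?_⟩ <;> simp only [newg, newpos] <;> omega

end step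

/-- the new family -/
def newFam {ι₀ π₀ ι₁ π₁ : Type} (F₀ : Fam ι₀ π₀) (F₁ : Fam ι₁ π₁) (m s σ : ℕ) (τ : ℕ → ℕ)
    (L T : ℕ) (hL0 : F₀.L ≤ L) (hL1 : F₁.L ≤ L) (hσ : σ = m + 3) (hT : σ * L + m + 10 ≤ T)
    (t1 : ∀ q, 4 * T ≤ τ q) (t2 : ∀ q q', q < q' → 4 * τ q ≤ τ q')
    (t3 : ∀ q, q + 1 ≤ L → 2 * τ q + 2 * m + 10 ≤ s) (t4 : 4 * T + 10 ≤ s) :
    Fam (ι₀ ⊕ (π₀ × ι₁) ⊕ (π₀ × π₁ × Fin m)) ((π₀ × π₁) ⊕ (π₀ × π₁)) where
  g := newg F₀ F₁ m s σ τ
  pos := newpos F₀ F₁ m s σ τ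
  L := s * L + s
  lt := by
    rintro (v | ⟨p, v⟩ | ⟨p, q, i⟩)
    · have := fo F₀ s L hL0 v
      simp only [newg]; omega
    · have := fi F₁ m σ L hL1 hσ v
      simp only [newg]; omega
    · have a2 := pi1 F₁ σ L hL1 q
      have a3 := t1 (F₁.pos q)
      have a5 := i.2
      simp only [newg]; omega
  le := by
    rintro (v | ⟨p, v⟩ | ⟨p, q, i⟩)
    · have := fo F₀ s L hL0 v
      simp only [newg]; omega
    · have := fi F₁ m σ L hL1 hσ v
      have := po F₀ s L hL0 p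
      simp only [newg]; omega
    · have a2 := pi1 F₁ σ L hL1 q
      have a3 := t1 (F₁.pos q)
      have a4 := t3 (F₁.pos q) (by have := F₁.posle q; omega)
      have a5 := i.2
      have := po F₀ s L hL0 p
      simp only [newg]; omega
  posle := by
    rintro (⟨p, q⟩ | ⟨p, q⟩)
    · have a2 := pi1 F₁ σ L hL1 q
      have := po F₀ s L hL0 p
      simp only [newpos]; omega
    · have a3 := t1 (F₁.pos q)
      have a4 := t3 (F₁.pos q) (by have := F₁.posle q; omega)
      have := po F₀ s L hL0 p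
      simp only [newpos]; omega
  posinj := by
    rintro (⟨p, q⟩ | ⟨p, q⟩) (⟨p', q'⟩ | ⟨p', q'⟩) h
    all_goals
      have a2 := pi1 F₁ σ L hL1 q
      have a3 := t1 (F₁.pos q)
      have a4 := t3 (F₁.pos q) (by have := F₁.posle q; omega)
      have c2 := pi1 F₁ σ L hL1 q'
      have c3 := t1 (F₁.pos q')
      have c4 := t3 (F₁.pos q') (by have := F₁.posle q'; omega)
      simp only [newpos] at h
      rcases tricmp s (F₀.pos p) (F₀.pos p') with h4 | h4 | h4
    all_goals try omega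
    · have := F₀.posinj _ _ h4
      subst this
      rcases tricmp σ (F₁.pos q) (F₁.pos q') with h5 | h5 | h5
      · have := F₁.posinj _ _ h5
        subst this
        rfl
      · omega
      · omega
    · rw [h4] at h; omega
    · rw [h4] at h; omega
    · have := F₀.posinj _ _ h4
      subst this
      rcases lt_trichotomy (F₁.pos q) (F₁.pos q') with h5 | h5 | h5
      · have := t2 _ _ h5
        omega
      · have := F₁.posinj _ _ h5
        subst this
        rfl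
      · have := t2 _ _ h5
        omega
  inj := by
    rintro (v | ⟨p, v⟩ | ⟨p, q, i⟩) (w | ⟨p', w⟩ | ⟨p', q', i'⟩) h
    · simp only [newg] at h
      have := Nat.eq_of_mul_eq_mul_left (by omega) h
      rw [F₀.inj _ _ this]
    · simp only [newg] at h
      have := fi F₁ m σ L hL1 hσ w
      have := cmp s (F₀.g v).2 (F₀.pos p')
      omega
    · simp only [newg] at h
      have a3 := t1 (F₁.pos q')
      have a4 := t3 (F₁.pos q') (by have := F₁.posle q'; omega)
      have := i'.2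
      have := cmp s (F₀.g v).2 (F₀.pos p')
      omega
    · simp only [newg] at h
      have := fi F₁ m σ L hL1 hσ v
      have := cmp s (F₀.g w).2 (F₀.pos p)
      omega
    · simp only [newg] at h
      have := fi F₁ m σ L hL1 hσ v
      have := fi F₁ m σ L hL1 hσ w
      rcases tricmp s (F₀.pos p) (F₀.pos p') with h4 | h4 | h4
      · have := F₀.posinj _ _ h4
        subst this
        have h6 : σ * (F₁.g v).2 = σ * (F₁.g w).2 := by omega
        have := Nat.eq_of_mul_eq_mul_left (by omega) h6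
        rw [F₁.inj _ _ this]
      · omega
      · omega
    · simp only [newg] at h
      have := fi F₁ m σ L hL1 hσ v
      have a3 := t1 (F₁.pos q')
      have a4 := t3 (F₁.pos q') (by have := F₁.posle q'; omega)
      have := i'.2
      rcases tricmp s (F₀.pos p) (F₀.pos p') with h4 | h4 | h4
      · rw [h4] at h; omega
      · omega
      · omega
    · simp only [newg] at h
      have a3 := t1 (F₁.pos q)
      have a4 := t3 (F₁.pos q) (by have := F₁.posle q; omega)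
      have := i.2
      have := cmp s (F₀.g w).2 (F₀.pos p)
      omega
    · simp only [newg] at h
      have := fi F₁ m σ L hL1 hσ w
      have a3 := t1 (F₁.pos q)
      have a4 := t3 (F₁.pos q) (by have := F₁.posle q; omega)
      have := i.2
      rcases tricmp s (F₀.pos p) (F₀.pos p') with h4 | h4 | h4
      · rw [h4] at h; omega
      · omega
      · omega
    · simp only [newg] at h
      have a3 := t1 (F₁.pos q)
      have a4 := t3 (F₁.pos q) (by have := F₁.posle q; omega)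
      have a5 := i.2
      have c3 := t1 (F₁.pos q')
      have c4 := t3 (F₁.pos q') (by have := F₁.posle q'; omega)
      have c5 := i'.2
      rcases tricmp s (F₀.pos p) (F₀.pos p') with h4 | h4 | h4
      · have := F₀.posinj _ _ h4
        subst this
        rcases lt_trichotomy (F₁.pos q) (F₁.pos q') with h5 | h5 | h5
        · have := t2 _ _ h5
          omega
        · have := F₁.posinj _ _ h5
          subst this
          have : i = i' := by apply Fin.ext; omega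
          rw [this]
        · have := t2 _ _ h5
          omega
      · omega
      · omega
  mono := by
    rintro (v | ⟨p, v⟩ | ⟨p, q, i⟩) (w | ⟨p', w⟩ | ⟨p', q', i'⟩) h
    · simp only [newg] at h ⊢
      have h1 : (F₀.g v).2 < (F₀.g w).2 := lt_of_mul_lt_mul_left h (Nat.zero_le s)
      have h2 := F₀.mono _ _ h1
      have h3 := Nat.mul_lt_mul_of_pos_left h2 (show 0 < s by omega)
      nlinarith
    · simp only [newg] at h ⊢
      have := fi F₁ m σ L hL1 hσ w
      have := fo F₀ s L hL0 v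
      have := cmp s (F₀.g v).2 (F₀.pos p')
      omega
    · simp only [newg] at h ⊢
      have a3 := t1 (F₁.pos q')
      have a4 := t3 (F₁.pos q') (by have := F₁.posle q'; omega)
      have := i'.2
      have := fo F₀ s L hL0 v
      have := cmp s (F₀.g v).2 (F₀.pos p')
      omega
    · simp only [newg] at h ⊢
      have := fi F₁ m σ L hL1 hσ v
      have h5 := cmp s (F₀.g w).2 (F₀.pos p)
      have h6 : F₀.pos p < (F₀.g w).2 := by omega
      have h7 := F₀.buf p w h6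
      have h8 := Nat.mul_le_mul_left s h7
      have h9 : 3 * (s * F₀.pos p + s) ≤ 2 * (s * (F₀.g w).2) + s * (F₀.g w).1 := by nlinarith
      omega
    · simp only [newg] at h ⊢
      have := fi F₁ m σ L hL1 hσ v
      have := fi F₁ m σ L hL1 hσ w
      rcases tricmp s (F₀.pos p) (F₀.pos p') with h4 | h4 | h4
      · have := F₀.posinj _ _ h4
        subst this
        have h6 : σ * (F₁.g v).2 < σ * (F₁.g w).2 := by omega
        have h1 : (F₁.g v).2 < (F₁.g w).2 := lt_of_mul_lt_mul_left h6 (Nat.zero_le σ)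
        have h2 := F₁.mono _ _ h1
        have h3 := Nat.mul_lt_mul_of_pos_left h2 (show 0 < σ by omega)
        nlinarith
      · omega
      · omega
    · simp only [newg] at h ⊢
      have := fi F₁ m σ L hL1 hσ v
      have a3 := t1 (F₁.pos q')
      have a4 := t3 (F₁.pos q') (by have := F₁.posle q'; omega)
      have := i'.2
      rcases tricmp s (F₀.pos p) (F₀.pos p') with h4 | h4 | h4
      · rw [h4]; omega
      · omega
      · omega
    · simp only [newg] at h ⊢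
      have a2 := pi1 F₁ σ L hL1 q
      have a3 := t1 (F₁.pos q)
      have a4 := t3 (F₁.pos q) (by have := F₁.posle q; omega)
      have := i.2
      have h5 := cmp s (F₀.g w).2 (F₀.pos p)
      have h6 : F₀.pos p < (F₀.g w).2 := by omega
      have h7 := F₀.buf p w h6
      have h8 := Nat.mul_le_mul_left s h7
      have h9 : 3 * (s * F₀.pos p + s) ≤ 2 * (s * (F₀.g w).2) + s * (F₀.g w).1 := by nlinarith
      omega
    · simp only [newg] at h ⊢
      have := fi F₁ m σ L hL1 hσ w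
      have a2 := pi1 F₁ σ L hL1 q
      have a3 := t1 (F₁.pos q)
      have a4 := t3 (F₁.pos q) (by have := F₁.posle q; omega)
      have := i.2
      rcases tricmp s (F₀.pos p) (F₀.pos p') with h4 | h4 | h4
      · rw [h4] at h; omega
      · omega
      · omega
    · simp only [newg] at h ⊢
      have a2 := pi1 F₁ σ L hL1 q
      have a3 := t1 (F₁.pos q)
      have a4 := t3 (F₁.pos q) (by have := F₁.posle q; omega)
      have a5 := i.2
      have c2 := pi1 F₁ σ L hL1 q'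
      have c3 := t1 (F₁.pos q')
      have c4 := t3 (F₁.pos q') (by have := F₁.posle q'; omega)
      have c5 := i'.2
      rcases tricmp s (F₀.pos p) (F₀.pos p') with h4 | h4 | h4
      · have := F₀.posinj _ _ h4
        subst this
        rcases lt_trichotomy (F₁.pos q) (F₁.pos q') with h5 | h5 | h5
        · have := t2 _ _ h5
          omega
        · have := F₁.posinj _ _ h5
          subst this
          omega
        · have := t2 _ _ h5
          omega
      · omega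
      · omega
  buf := by
    intro X y h
    rcases y with w | ⟨p', w⟩ | ⟨p', q', i'⟩ <;> rcases X with ⟨p, q⟩ | ⟨p, q⟩
    all_goals
      have a2 := pi1 F₁ σ L hL1 q
      have a3 := t1 (F₁.pos q)
      have a4 := t3 (F₁.pos q) (by have := F₁.posle q; omega)
    · simp only [newg, newpos] at h ⊢
      have h5 := cmp s (F₀.g w).2 (F₀.pos p)
      have h6 : F₀.pos p < (F₀.g w).2 := by omega
      have h7 := F₀.buf p w h6
      have h8 := Nat.mul_le_mul_left s h7
      have h9 : 3 * (s * F₀.pos p + s) ≤ 2 * (s * (F₀.g w).2) + s * (F₀.g w).1 := by nlinarith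
      omega
    · simp only [newg, newpos] at h ⊢
      have h5 := cmp s (F₀.g w).2 (F₀.pos p)
      have h6 : F₀.pos p < (F₀.g w).2 := by omega
      have h7 := F₀.buf p w h6
      have h8 := Nat.mul_le_mul_left s h7
      have h9 : 3 * (s * F₀.pos p + s) ≤ 2 * (s * (F₀.g w).2) + s * (F₀.g w).1 := by nlinarith
      omega
    · simp only [newg, newpos] at h ⊢
      have := fi F₁ m σ L hL1 hσ w
      rcases tricmp s (F₀.pos p) (F₀.pos p') with h4 | h4 | h4
      · rw [h4] at h ⊢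
        have h5 := cmp σ (F₁.g w).2 (F₁.pos q)
        have h6 : F₁.pos q < (F₁.g w).2 := by omega
        have h7 := F₁.buf q w h6
        have h8 := Nat.mul_le_mul_left σ h7
        have h9 : 3 * (σ * F₁.pos q + σ) ≤ 2 * (σ * (F₁.g w).2) + σ * (F₁.g w).1 := by nlinarith
        omega
      · omega
      · omega
    · simp only [newg, newpos] at h ⊢
      have := fi F₁ m σ L hL1 hσ w
      rcases tricmp s (F₀.pos p) (F₀.pos p') with h4 | h4 | h4
      · rw [h4] at h ⊢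
        omega
      · omega
      · omega
    · simp only [newg, newpos] at h ⊢
      have c2 := pi1 F₁ σ L hL1 q'
      have c3 := t1 (F₁.pos q')
      have c4 := t3 (F₁.pos q') (by have := F₁.posle q'; omega)
      have c5 := i'.2
      rcases tricmp s (F₀.pos p) (F₀.pos p') with h4 | h4 | h4
      · rw [h4] at h ⊢
        omega
      · omega
      · omega
    · simp only [newg, newpos] at h ⊢
      have c2 := pi1 F₁ σ L hL1 q'
      have c3 := t1 (F₁.pos q')
      have c4 := t3 (F₁.pos q') (by have := F₁.posle q'; omega)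
      have c5 := i'.2
      rcases tricmp s (F₀.pos p) (F₀.pos p') with h4 | h4 | h4
      · rw [h4] at h ⊢
        rcases lt_trichotomy (F₁.pos q) (F₁.pos q') with h5 | h5 | h5
        · have := t2 _ _ h5
          omega
        · rw [h5] at h
          omega
        · have := t2 _ _ h5
          omega
      · omega
      · omega
  tri := by
    intro x y z h1 h2 h3
    rcases adj_cases F₀ F₁ m s σ τ L T hL1 hσ hT t1 t3 t4 hL0 x y h1 with
      ⟨v, w, rfl, rfl, hv⟩ | ⟨p, v, w, rfl, rfl, hv⟩ | ⟨p, v, q, i, rfl, rfl, hv⟩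
    · rcases adj_cases F₀ F₁ m s σ τ L T hL1 hσ hT t1 t3 t4 hL0 _ z h2 with
        ⟨v', w', e1, rfl, hv'⟩ | ⟨p, v', w', e1, rfl, hv'⟩ | ⟨p, v', q, i, e1, rfl, hv'⟩
      · obtain rfl := Sum.inl.inj e1
        rcases adj_cases F₀ F₁ m s σ τ L T hL1 hσ hT t1 t3 t4 hL0 _ _ h3 with
          ⟨v'', w'', e1, e2, hv''⟩ | ⟨p, v'', w'', e1, e2, hv''⟩ | ⟨p, v'', q, i, e1, e2, hv''⟩
        · obtain rfl := Sum.inl.inj e1
          obtain rfl := Sum.inl.inj e2
          exact F₀.tri _ _ _ hv hv' hv''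
        · cases e1
        · cases e1
      · cases e1
      · cases e1
    · rcases adj_cases F₀ F₁ m s σ τ L T hL1 hσ hT t1 t3 t4 hL0 _ z h2 with
        ⟨v', w', e1, rfl, hv'⟩ | ⟨p', v', w', e1, rfl, hv'⟩ | ⟨p', v', q, i, e1, rfl, hv'⟩
      · cases e1
      · cases e1
        rcases adj_cases F₀ F₁ m s σ τ L T hL1 hσ hT t1 t3 t4 hL0 _ _ h3 with
          ⟨v'', w'', e1, e2, hv''⟩ | ⟨p, v'', w'', e1, e2, hv''⟩ | ⟨p, v'', q, i, e1, e2, hv''⟩
        · cases e1
        · cases e1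
          cases e2
          exact F₁.tri _ _ _ hv hv' hv''
        · cases e2
      · cases e1
        rcases adj_cases F₀ F₁ m s σ τ L T hL1 hσ hT t1 t3 t4 hL0 _ _ h3 with
          ⟨v'', w'', e1, e2, hv''⟩ | ⟨p, v'', w'', e1, e2, hv''⟩ | ⟨p, v'', q, i, e1, e2, hv''⟩
        · cases e1
        · cases e2
        · cases e1
          cases e2
          exact F₁.ind _ _ _ hv'' hv' hv
    · rcases adj_cases F₀ F₁ m s σ τ L T hL1 hσ hT t1 t3 t4 hL0 _ z h2 with
        ⟨v', w', e1, rfl, hv'⟩ | ⟨p', v', w', e1, rfl, hv'⟩ | ⟨p', v', q, i, e1, rfl, hv'⟩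
      · cases e1
      · cases e1
      · cases e1
  ind := by
    rintro (⟨p, q⟩ | ⟨p, q⟩) x y hx hy h
    · rcases adj_cases F₀ F₁ m s σ τ L T hL1 hσ hT t1 t3 t4 hL0 x y h with
        ⟨v, w, rfl, rfl, hv⟩ | ⟨p', v, w, rfl, rfl, hv⟩ | ⟨p', v, q', i, rfl, rfl, hv⟩
      · rcases act_casesU F₀ F₁ m s σ τ L T hL1 hσ hT t1 t2 t3 t4 _ p q hx with ⟨v', e1, h1⟩ | ⟨v', e1, h1⟩
        · cases e1
          rcases act_casesU F₀ F₁ m s σ τ L T hL1 hσ hT t1 t2 t3 t4 _ p q hy with ⟨w', e1, h2⟩ | ⟨w', e1, h2⟩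
          · cases e1
            exact F₀.ind _ _ _ h1 h2 hv
          · cases e1
        · cases e1
      · rcases act_casesU F₀ F₁ m s σ τ L T hL1 hσ hT t1 t2 t3 t4 _ p q hx with ⟨v', e1, h1⟩ | ⟨v', e1, h1⟩
        · cases e1
        · cases e1
          rcases act_casesU F₀ F₁ m s σ τ L T hL1 hσ hT t1 t2 t3 t4 _ p q hy with ⟨w', e1, h2⟩ | ⟨w', e1, h2⟩
          · cases e1
          · cases e1
            exact F₁.ind _ _ _ h1 h2 hv
      · rcases act_casesU F₀ F₁ m s σ τ L T hL1 hσ hT t1 t2 t3 t4 _ p q hy with ⟨v', e1, h1⟩ | ⟨v', e1, h1⟩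
        · cases e1
        · cases e1
    · rcases adj_cases F₀ F₁ m s σ τ L T hL1 hσ hT t1 t3 t4 hL0 x y h with
        ⟨v, w, rfl, rfl, hv⟩ | ⟨p', v, w, rfl, rfl, hv⟩ | ⟨p', v, q', i, rfl, rfl, hv⟩
      · rcases act_casesW F₀ F₁ m s σ τ L T hL1 hσ hT t1 t2 t3 t4 _ p q hx with ⟨v', e1, h1⟩ | ⟨v', e1⟩
        · cases e1
          rcases act_casesW F₀ F₁ m s σ τ L T hL1 hσ hT t1 t2 t3 t4 _ p q hy with ⟨w', e1, h2⟩ | ⟨w', e1⟩
          · cases e1
            exact F₀.ind _ _ _ h1 h2 hv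
          · cases e1
        · cases e1
      · rcases act_casesW F₀ F₁ m s σ τ L T hL1 hσ hT t1 t2 t3 t4 _ p q hx with ⟨v', e1, h1⟩ | ⟨v', e1⟩
        · cases e1
        · cases e1
      · rcases act_casesW F₀ F₁ m s σ τ L T hL1 hσ hT t1 t2 t3 t4 _ p q hx with ⟨v', e1, h1⟩ | ⟨v', e1⟩
        · cases e1
        · cases e1



open Classical in
/-- independent sets are controlled by the number of intervals they hit -/
def HitProp {ι π : Type} [Fintype π] (F : Fam ι π) (c : ℕ) : Prop :=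
  ∀ S : Finset ι, (∀ x ∈ S, ∀ y ∈ S, ¬ Adj (F.g x) (F.g y)) →
    S.card * Fintype.card π ≤ c * ∑ p : π, (if ∃ x ∈ S, Act (F.g x) (F.pos p) then 1 else 0)

open Classical in
theorem hit_step {ι₀ π₀ ι₁ π₁ : Type} [Fintype ι₀] [Fintype π₀] [Fintype ι₁] [Fintype π₁]
    (F₀ : Fam ι₀ π₀) (F₁ : Fam ι₁ π₁) (a M P m s σ : ℕ) (τ : ℕ → ℕ) (L T : ℕ)
    (hm : m = 2 * a * M) (hP : 0 < P) (hc0 : Fintype.card π₀ = P) (hc1 : Fintype.card π₁ = P)
    (H0 : HitProp F₀ (2 * a * (P * P * M))) (H1 : HitProp F₁ (2 * a * (P * M)))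
    (hL0 : F₀.L ≤ L) (hL1 : F₁.L ≤ L) (hσ : σ = m + 3) (hT : σ * L + m + 10 ≤ T)
    (t1 : ∀ q, 4 * T ≤ τ q) (t2 : ∀ q q', q < q' → 4 * τ q ≤ τ q')
    (t3 : ∀ q, q + 1 ≤ L → 2 * τ q + 2 * m + 10 ≤ s) (t4 : 4 * T + 10 ≤ s) :
    HitProp (newFam F₀ F₁ m s σ τ L T hL0 hL1 hσ hT t1 t2 t3 t4) (2 * (2 * P * P * a) * M) := by
  intro S hS
  set F := newFam F₀ F₁ m s σ τ L T hL0 hL1 hσ hT t1 t2 t3 t4 with hF
  have hg : ∀ x, F.g x = newg F₀ F₁ m s σ τ x := fun x => rfl
  have hpos : ∀ x, F.pos x = newpos F₀ F₁ m s σ τ x := fun x => rfl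
  -- the parts of S
  set S0 : Finset ι₀ := univ.filter (fun v => (Sum.inl v : ι₀ ⊕ (π₀ × ι₁) ⊕ (π₀ × π₁ × Fin m)) ∈ S) with hS0
  set S1 : π₀ → Finset ι₁ := fun p => univ.filter
    (fun v => (Sum.inr (Sum.inl (p, v)) : ι₀ ⊕ (π₀ × ι₁) ⊕ (π₀ × π₁ × Fin m)) ∈ S) with hS1
  set h0 : π₀ → ℕ := fun p => if ∃ x ∈ S0, Act (F₀.g x) (F₀.pos p) then 1 else 0 with hh0
  set h1 : π₀ → π₁ → ℕ := fun p q => if ∃ x ∈ S1 p, Act (F₁.g x) (F₁.pos q) then 1 else 0 with hh1
  set d : π₀ → π₁ → ℕ := fun p q =>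
    if ∃ i, (Sum.inr (Sum.inr (p, q, i)) : ι₀ ⊕ (π₀ × ι₁) ⊕ (π₀ × π₁ × Fin m)) ∈ S then 1 else 0 with hd
  have e0 : S0.card ≤ m * (P * ∑ p, h0 p) := by
    have := H0 S0 (by
      intro x hx y hy hxy
      simp only [hS0, mem_filter, mem_univ, true_and] at hx hy
      refine hS _ hx _ hy ?_
      have h2 := (adj_affine 0 s (F₀.g x).1 (F₀.g x).2 (F₀.g y).1 (F₀.g y).2 (by omega)).2 hxy
      simp only [Nat.zero_add] at h2
      exact h2)
    rw [hc0] at this
    have h3 : S0.card * P ≤ (m * (P * ∑ p, h0 p)) * P := by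
      calc S0.card * P ≤ _ := this
        _ = _ := by rw [hm]; ring
    exact Nat.le_of_mul_le_mul_right h3 hP
  have e1 : ∀ p, (S1 p).card ≤ m * ∑ q, h1 p q := by
    intro p
    have := H1 (S1 p) (by
      intro x hx y hy hxy
      simp only [hS1, mem_filter, mem_univ, true_and] at hx hy
      refine hS _ hx _ hy ?_
      exact (adj_affine (s * F₀.pos p + 1) σ (F₁.g x).1 (F₁.g x).2 (F₁.g y).1 (F₁.g y).2
        (by omega)).2 hxy)
    rw [hc1] at this
    have h3 : (S1 p).card * P ≤ (m * ∑ q, h1 p q) * P := by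
      calc (S1 p).card * P ≤ _ := this
        _ = _ := by rw [hm]; ring
    exact Nat.le_of_mul_le_mul_right h3 hP
  have e2 : S.card = S0.card + ∑ p, (S1 p).card + ∑ p, ∑ q, ∑ i : Fin m,
      (if (Sum.inr (Sum.inr (p, q, i)) : ι₀ ⊕ (π₀ × ι₁) ⊕ (π₀ × π₁ × Fin m)) ∈ S then 1 else 0) := by
    have h1 : S.card = ∑ x, (if x ∈ S then 1 else 0) := by
      rw [Finset.sum_ite_mem, Finset.univ_inter, Finset.card_eq_sum_ones]
    rw [h1, Fintype.sum_sum_type, Fintype.sum_sum_type, Fintype.sum_prod_type, Fintype.sum_prod_type]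
    simp only [Fintype.sum_prod_type, hS0, hS1, Finset.card_filter]
    rw [← Nat.add_assoc]
    congr!
  have e3 : ∀ p q, ∑ i : Fin m,
      (if (Sum.inr (Sum.inr (p, q, i)) : ι₀ ⊕ (π₀ × ι₁) ⊕ (π₀ × π₁ × Fin m)) ∈ S then 1 else 0) ≤ m * d p q := by
    intro p q
    by_cases hx : ∃ i, (Sum.inr (Sum.inr (p, q, i)) : ι₀ ⊕ (π₀ × ι₁) ⊕ (π₀ × π₁ × Fin m)) ∈ S
    · simp only [hd, hx, if_true, mul_one]
      calc _ ≤ ∑ i : Fin m, 1 := Finset.sum_le_sum (fun i _ => by split_ifs <;> omega)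
        _ = m := by simp
    · simp only [hd, hx, if_false, mul_zero]
      push Not at hx
      simp [hx]
  have e4 : S.card ≤ m * ∑ p, ∑ q, (h0 p + h1 p q + d p q) := by
    have a1 : ∑ p, ∑ q, (h0 p + h1 p q + d p q)
        = P * ∑ p, h0 p + ∑ p, ∑ q, h1 p q + ∑ p, ∑ q, d p q := by
      simp only [Finset.sum_add_distrib, Finset.sum_const, smul_eq_mul, Finset.card_univ, hc1]
      rw [Finset.mul_sum]
    rw [a1, e2]
    have a2 : ∑ p, (S1 p).card ≤ m * ∑ p, ∑ q, h1 p q := by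
      rw [Finset.mul_sum]
      exact Finset.sum_le_sum (fun p _ => e1 p)
    have a3 : ∑ p, ∑ q, ∑ i : Fin m,
      (if (Sum.inr (Sum.inr (p, q, i)) : ι₀ ⊕ (π₀ × ι₁) ⊕ (π₀ × π₁ × Fin m)) ∈ S then 1 else 0)
        ≤ m * ∑ p, ∑ q, d p q := by
      rw [Finset.mul_sum]
      refine Finset.sum_le_sum (fun p _ => ?_)
      rw [Finset.mul_sum]
      exact Finset.sum_le_sum (fun q _ => e3 p q)
    calc _ ≤ m * (P * ∑ p, h0 p) + m * ∑ p, ∑ q, h1 p q + m * ∑ p, ∑ q, d p q :=
          Nat.add_le_add (Nat.add_le_add e0 a2) a3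
      _ = _ := by ring
  -- pointwise comparison
  have e5 : ∀ p q, h0 p + h1 p q + d p q ≤
      (if ∃ x ∈ S, Act (F.g x) (F.pos (Sum.inl (p, q))) then 1 else 0) +
      (if ∃ x ∈ S, Act (F.g x) (F.pos (Sum.inr (p, q))) then 1 else 0) := by
    intro p q
    have k1 : h0 p = 1 → (∃ x ∈ S, Act (F.g x) (F.pos (Sum.inl (p, q)))) ∧
        (∃ x ∈ S, Act (F.g x) (F.pos (Sum.inr (p, q)))) := by
      intro h
      have h' : ∃ x ∈ S0, Act (F₀.g x) (F₀.pos p) := by
        by_contra hc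
        simp only [hh0, hc, if_false] at h
        omega
      obtain ⟨v, hv, hv2⟩ := h'
      simp only [hS0, mem_filter, mem_univ, true_and] at hv
      have := act_O F₀ F₁ m s σ τ L T hL1 hσ hT t1 t2 t3 t4 v p q hv2
      exact ⟨⟨_, hv, this.1⟩, ⟨_, hv, this.2⟩⟩
    have k2 : h1 p q = 1 → (∃ x ∈ S, Act (F.g x) (F.pos (Sum.inl (p, q)))) := by
      intro h
      have h' : ∃ x ∈ S1 p, Act (F₁.g x) (F₁.pos q) := by
        by_contra hc
        simp only [hh1, hc, if_false] at h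
        omega
      obtain ⟨v, hv, hv2⟩ := h'
      simp only [hS1, mem_filter, mem_univ, true_and] at hv
      exact ⟨_, hv, act_I F₀ F₁ m s σ τ hσ p v q hv2⟩
    have k3 : d p q = 1 → (∃ x ∈ S, Act (F.g x) (F.pos (Sum.inr (p, q)))) := by
      intro h
      have h' : ∃ i, (Sum.inr (Sum.inr (p, q, i)) : ι₀ ⊕ (π₀ × ι₁) ⊕ (π₀ × π₁ × Fin m)) ∈ S := by
        by_contra hc
        simp only [hd, hc, if_false] at h
        omega
      obtain ⟨i, hi⟩ := h'
      exact ⟨_, hi, act_D F₀ F₁ m s σ τ L T p q i hL1 hT t1⟩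
    have k4 : ¬ (h1 p q = 1 ∧ d p q = 1) := by
      rintro ⟨ha, hb⟩
      have h' : ∃ x ∈ S1 p, Act (F₁.g x) (F₁.pos q) := by
        by_contra hc
        simp only [hh1, hc, if_false] at ha
        omega
      have h'' : ∃ i, (Sum.inr (Sum.inr (p, q, i)) : ι₀ ⊕ (π₀ × ι₁) ⊕ (π₀ × π₁ × Fin m)) ∈ S := by
        by_contra hc
        simp only [hd, hc, if_false] at hb
        omega
      obtain ⟨v, hv, hv2⟩ := h'
      obtain ⟨i, hi⟩ := h''
      simp only [hS1, mem_filter, mem_univ, true_and] at hv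
      exact hS _ hv _ hi (adj_ID F₀ F₁ m s σ τ L T hσ p v q i hL1 hT t1 hv2)
    have b0 : h0 p = 0 ∨ h0 p = 1 := by
      simp only [hh0]; split_ifs <;> simp
    have b1 : h1 p q = 0 ∨ h1 p q = 1 := by
      simp only [hh1]; split_ifs <;> simp
    have b2 : d p q = 0 ∨ d p q = 1 := by
      simp only [hd]; split_ifs <;> simp
    rcases b0 with b0 | b0
    · rcases b1 with b1 | b1 <;> rcases b2 with b2 | b2
      · rw [b0, b1, b2]; omega
      · rw [b0, b1, b2, if_pos (k3 b2)]; omega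
      · rw [b0, b1, b2, if_pos (k2 b1)]; omega
      · exact absurd ⟨b1, b2⟩ k4
    · rw [if_pos (k1 b0).1, if_pos (k1 b0).2]
      rcases b1 with b1 | b1 <;> rcases b2 with b2 | b2
      · omega
      · omega
      · omega
      · exact absurd ⟨b1, b2⟩ k4
  have e6 : ∑ p, ∑ q, (h0 p + h1 p q + d p q) ≤
      ∑ x : (π₀ × π₁) ⊕ (π₀ × π₁), (if ∃ y ∈ S, Act (F.g y) (F.pos x) then 1 else 0) := by
    rw [Fintype.sum_sum_type, Fintype.sum_prod_type, Fintype.sum_prod_type, ← Finset.sum_add_distrib]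
    refine Finset.sum_le_sum (fun p _ => ?_)
    rw [← Finset.sum_add_distrib]
    exact Finset.sum_le_sum (fun q _ => e5 p q)
  have e7 : Fintype.card ((π₀ × π₁) ⊕ (π₀ × π₁)) = 2 * P * P := by
    rw [Fintype.card_sum, Fintype.card_prod, hc0, hc1]; ring
  rw [e7]
  have e8 := e4.trans (Nat.mul_le_mul_left m e6)
  have e9 : ∀ Z : ℕ, m * Z * (2 * P * P) = 2 * (2 * P * P * a) * M * Z := by
    intro Z; rw [hm]; ring
  exact (Nat.mul_le_mul_right _ e8).trans (e9 _).le

/-- `AP k = (A k, P k)`: the two size parameters of the `k`-th family -/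
def AP : ℕ → ℕ × ℕ
  | 0 => (1, 1)
  | k + 1 => (2 * (AP k).2 * (AP k).2 * (AP k).1, 2 * (AP k).2 * (AP k).2)

theorem AP_pos (k : ℕ) : 0 < (AP k).1 ∧ 0 < (AP k).2 := by
  induction k with
  | zero => simp [AP]
  | succ k ih =>
    obtain ⟨h1, h2⟩ := ih
    simp only [AP]
    constructor <;> positivity

theorem exists_fam (k : ℕ) : ∀ M : ℕ, 0 < M → ∃ (ι π : Type) (_ : Fintype ι) (_ : Fintype π)
    (F : Fam ι π), Fintype.card ι = k * (AP k).1 * M ∧ Fintype.card π = (AP k).2 ∧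
      HitProp F (2 * (AP k).1 * M) := by
  induction k with
  | zero =>
    intro M hM
    refine ⟨Empty, Unit, inferInstance, inferInstance,
      { g := fun x => x.elim
        pos := fun _ => 0
        L := 1
        lt := fun x => x.elim
        le := fun x => x.elim
        posle := fun _ => by simp
        posinj := fun _ _ _ => rfl
        inj := fun x => x.elim
        mono := fun x => x.elim
        buf := fun _ x => x.elim
        tri := fun x => x.elim
        ind := fun _ x => x.elim }, by simp, by simp [AP], ?_⟩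
    intro S hS
    have : S = ∅ := by
      ext x; exact x.elim
    subst this
    simp
  | succ k ih =>
    intro M hM
    obtain ⟨hA, hP⟩ := AP_pos k
    obtain ⟨ι₀, π₀, i1, i2, F₀, c1, c2, H0⟩ := ih ((AP k).2 * (AP k).2 * M) (by positivity)
    obtain ⟨ι₁, π₁, i3, i4, F₁, c3, c4, H1⟩ := ih ((AP k).2 * M) (by positivity)
    set a := (AP k).1 with ha
    set P := (AP k).2 with hPd
    set m := 2 * a * M with hm
    set σ := m + 3 with hσ
    set L := max F₀.L F₁.L with hL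
    set T := σ * L + m + 10 with hT
    set τ : ℕ → ℕ := fun q => 4 ^ (q + 1) * T with hτ
    set s := 4 ^ (L + 3) * T with hs
    have t1 : ∀ q, 4 * T ≤ τ q := by
      intro q
      simp only [hτ]
      have : 4 ≤ 4 ^ (q + 1) := by
        rw [pow_succ]; have := Nat.one_le_pow q 4 (by norm_num); omega
      exact Nat.mul_le_mul_right T this
    have t2 : ∀ q q', q < q' → 4 * τ q ≤ τ q' := by
      intro q q' h
      simp only [hτ]
      rw [← mul_assoc, ← pow_succ']
      exact Nat.mul_le_mul_right T (Nat.pow_le_pow_right (by norm_num) (by omega))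
    have t3 : ∀ q, q + 1 ≤ L → 2 * τ q + 2 * m + 10 ≤ s := by
      intro q h
      simp only [hτ, hs]
      have h1 : 4 ^ (q + 1) ≤ 4 ^ L := Nat.pow_le_pow_right (by norm_num) h
      have h2 : 1 ≤ 4 ^ L := Nat.one_le_pow _ _ (by norm_num)
      have h3 : 4 ^ (L + 3) = 64 * 4 ^ L := by rw [pow_add]; ring
      rw [h3]
      have h4 : 4 ^ (q + 1) * T ≤ 4 ^ L * T := Nat.mul_le_mul_right T h1
      have h5 : T ≤ 4 ^ L * T := Nat.le_mul_of_pos_left T (by omega)
      have h6 : m + 10 ≤ T := by rw [hT]; omega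
      have h7 : 64 * 4 ^ L * T = 64 * (4 ^ L * T) := by ring
      rw [h7]
      omega
    have t4 : 4 * T + 10 ≤ s := by
      simp only [hs]
      have h2 : 1 ≤ 4 ^ L := Nat.one_le_pow _ _ (by norm_num)
      have h3 : 4 ^ (L + 3) = 64 * 4 ^ L := by rw [pow_add]; ring
      rw [h3]
      have h5 : T ≤ 4 ^ L * T := Nat.le_mul_of_pos_left T (by omega)
      have h6 : m + 10 ≤ T := by rw [hT]; omega
      have h7 : 64 * 4 ^ L * T = 64 * (4 ^ L * T) := by ring
      rw [h7]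
      omega
    refine ⟨_, _, inferInstance, inferInstance,
      newFam F₀ F₁ m s σ τ L T (le_max_left _ _) (le_max_right _ _) rfl hT.ge t1 t2 t3 t4,
      ?_, ?_, ?_⟩
    · simp only [Fintype.card_sum, Fintype.card_prod, Fintype.card_fin, c1, c2, c3, c4, AP, hm]
      ring
    · simp only [Fintype.card_sum, Fintype.card_prod, c2, c4, AP]
      ring
    · have := hit_step F₀ F₁ a M P m s σ τ L T rfl hP c2 c4 H0 H1 (le_max_left _ _)
        (le_max_right _ _) rfl hT.ge t1 t2 t3 t4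
      exact this

open Classical in
/-- the conclusion used later: families of levels with all independent sets small -/
theorem exists_levels (k M : ℕ) (hM : 0 < M) : ∃ (ι : Type) (_ : Fintype ι) (g : ι → ℕ × ℕ),
    Fintype.card ι = k * ((AP k).1 * M) ∧
    (∀ v w, (g v).2 = (g w).2 → v = w) ∧
    (∀ v w, (g v).2 < (g w).2 → 2 * (g v).2 + (g v).1 < 2 * (g w).2 + (g w).1) ∧
    (∀ x y z, Adj (g x) (g y) → Adj (g y) (g z) → Adj (g x) (g z) → False) ∧
    (∀ S : Finset ι, (∀ x ∈ S, ∀ y ∈ S, ¬ Adj (g x) (g y)) → S.card ≤ 2 * ((AP k).1 * M)) := by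
  obtain ⟨ι, π, i1, i2, F, c1, c2, H⟩ := exists_fam k M hM
  refine ⟨ι, i1, F.g, by rw [c1]; ring, F.inj, F.mono, F.tri, ?_⟩
  intro S hS
  have h1 := H S hS
  rw [c2] at h1
  have h2 : ∑ p : π, (if ∃ x ∈ S, Act (F.g x) (F.pos p) then 1 else 0) ≤ (AP k).2 := by
    rw [← c2]
    calc _ ≤ ∑ p : π, 1 := Finset.sum_le_sum (fun i _ => by split_ifs <;> omega)
      _ = _ := by simp
  have h3 : S.card * (AP k).2 ≤ (2 * ((AP k).1 * M)) * (AP k).2 := by
    calc S.card * (AP k).2 ≤ _ := h1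
      _ ≤ 2 * (AP k).1 * M * (AP k).2 := Nat.mul_le_mul_left _ h2
      _ = _ := by ring
  exact Nat.le_of_mul_le_mul_right h3 (AP_pos k).2

end Pool.Agent.L5helper41.Semi
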