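import Pool.Agent.L5helper13.TQ.Defs

set_option autoImplicit false

namespace Pool.Agent.L5helper13.TQ

open MvPolynomial

private theorem deg_succ' {n : ℕ} (e : Fin n →₀ ℕ) (h : e ≠ 0) :
    ∃ (j : Fin n) (e' : Fin n →₀ ℕ), e = Finsupp.single j 1 + e' ∧ e'.degree + 1 = e.degree := by
  have h0 : ∃ j, e j ≠ 0 := by
    by_contra hne
    push Not at hne
    exact h (Finsupp.ext hne)
  obtain ⟨j, hj⟩ := h0
  have hle : Finsupp.single j 1 ≤ e := by
    rw [Finsupp.single_le_iff]
    omega
  obtain ⟨e', he'⟩ := exists_add_of_le hle
  refine ⟨j, e', he', ?_⟩
  rw [he', map_add, Finsupp.degree_single]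
  omega

/-- TQ6 -/
theorem quad_expand (k : Type) [Field k] [CharZero k] (n : ℕ) (p : MvPolynomial (Fin n) k)
    (hp : p.totalDegree ≤ 2) (h0 : coeff 0 p = 0) (x : Fin n → k) :
    eval x p = ∑ j, coeff (Finsupp.single j 1) p * x j +
      ∑ j, ∑ l, (coeff (Finsupp.single j 1 + Finsupp.single l 1) p *
        (if j = l then 1 else 1 / 2)) * (x j * x l) := by
  classical
  have key : ∀ (s : Finset (Fin n →₀ ℕ)) (c : (Fin n →₀ ℕ) → k),
      (∀ e ∈ s, e ≠ 0 ∧ e.degree ≤ 2) →
      eval x (∑ e ∈ s, monomial e (c e)) =
        ∑ j, coeff (Finsupp.single j 1) (∑ e ∈ s, monomial e (c e)) * x j +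
        ∑ j, ∑ l, (coeff (Finsupp.single j 1 + Finsupp.single l 1) (∑ e ∈ s, monomial e (c e)) *
          (if j = l then 1 else 1 / 2)) * (x j * x l) := by
    intro s c hs
    refine Finset.sum_induction (fun e => monomial e (c e)) (fun q => eval x q =
        ∑ j, coeff (Finsupp.single j 1) q * x j +
        ∑ j, ∑ l, (coeff (Finsupp.single j 1 + Finsupp.single l 1) q *
          (if j = l then 1 else 1 / 2)) * (x j * x l)) ?_ ?_ ?_
    · intro q r hq hr
      rw [map_add, hq, hr]
      simp only [coeff_add, add_mul, Finset.sum_add_distrib]
      ring
    · simp
    · intro e he
      obtain ⟨hne, hdeg⟩ := hs e he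
      obtain ⟨a, e', rfl, hd⟩ := deg_succ' e hne
      have hd1 : ∀ j : Fin n, (Finsupp.single j 1 : Fin n →₀ ℕ).degree = 1 := fun j => by simp
      by_cases he' : e' = 0
      · subst he'
        rw [add_zero]
        have h2 : ∀ j l : Fin n, coeff (Finsupp.single j 1 + Finsupp.single l 1)
            (monomial (Finsupp.single a 1) (c (Finsupp.single a 1)) : MvPolynomial (Fin n) k)
              = 0 := by
          intro j l
          rw [coeff_monomial, if_neg]
          intro h
          have := congrArg Finsupp.degree h
          rw [map_add, hd1, hd1, hd1] at this
          omega
        have h3 : ∀ j : Fin n, coeff (Finsupp.single j 1)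
            (monomial (Finsupp.single a 1) (c (Finsupp.single a 1)) : MvPolynomial (Fin n) k)
              = if j = a then c (Finsupp.single a 1) else 0 := by
          intro j
          rw [coeff_monomial]
          refine if_congr ?_ rfl rfl
          rw [Finsupp.single_left_inj one_ne_zero]
          exact eq_comm
        simp only [h2, h3, zero_mul, Finset.sum_const_zero, add_zero, ite_mul,
          Finset.sum_ite_eq', Finset.mem_univ, if_true, eval_monomial]
        congr 1
        rw [Finsupp.prod_single_index (by simp), pow_one]
      · obtain ⟨b, e'', rfl, hd'⟩ := deg_succ' e' he'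
        have he'' : e'' = 0 := by
          rw [← Finsupp.degree_eq_zero_iff]
          omega
        subst he''
        rw [add_zero]
        set cc : k := c (Finsupp.single a 1 + Finsupp.single b 1) with hcc
        have h3 : ∀ j : Fin n, coeff (Finsupp.single j 1)
            (monomial (Finsupp.single a 1 + Finsupp.single b 1) cc : MvPolynomial (Fin n) k)
              = 0 := by
          intro j
          rw [coeff_monomial, if_neg]
          intro h
          have := congrArg Finsupp.degree h
          rw [map_add, hd1, hd1, hd1] at this
          omega
        have h2 : ∀ j l : Fin n, coeff (Finsupp.single j 1 + Finsupp.single l 1)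
            (monomial (Finsupp.single a 1 + Finsupp.single b 1) cc : MvPolynomial (Fin n) k)
              = if (a = j ∧ b = l) ∨ (a = l ∧ b = j) then cc else 0 := by
          intro j l
          rw [coeff_monomial]
          refine if_congr ?_ rfl rfl
          rw [Finsupp.single_add_single_eq_single_add_single one_ne_zero one_ne_zero]
          simp
        have h4 : eval x (monomial (Finsupp.single a 1 + Finsupp.single b 1) cc) =
            cc * (x a * x b) := by
          rw [eval_monomial, Finsupp.prod_add_index' (by simp) (by intro i m₁ m₂; rw [pow_add]),
            Finsupp.prod_single_index (by simp), Finsupp.prod_single_index (by simp), pow_one,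
            pow_one]
        rw [h4]
        simp only [h3, h2, zero_mul, Finset.sum_const_zero, zero_add]
        by_cases hab : a = b
        · subst hab
          have h5 : ∀ j l : Fin n, ((if (a = j ∧ a = l) ∨ (a = l ∧ a = j) then cc else 0) *
              (if j = l then (1 : k) else 1 / 2)) * (x j * x l) =
              if j = a then (if l = a then cc * (x a * x a) else 0) else 0 := by
            intro j l
            by_cases hj : j = a
            · subst hj
              by_cases hl : l = j
              · subst hl
                simp
              · have hl' : ¬ j = l := fun h => hl h.symm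
                simp [hl, hl']
            · have hj' : ¬ a = j := fun h => hj h.symm
              simp [hj, hj']
          simp only [h5, Finset.sum_ite_eq', Finset.mem_univ, if_true]
          simp
        · have hba : ¬ b = a := fun h => hab h.symm
          have h5 : ∀ j l : Fin n, ((if (a = j ∧ b = l) ∨ (a = l ∧ b = j) then cc else 0) *
              (if j = l then (1 : k) else 1 / 2)) * (x j * x l) =
              (if j = a then (if l = b then cc * (1 / 2) * (x a * x b) else 0) else 0) +
              (if j = b then (if l = a then cc * (1 / 2) * (x a * x b) else 0) else 0) := by
            intro j l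
            by_cases hj : j = a
            · subst hj
              by_cases hl : l = b
              · subst hl
                simp [hab]
              · have hl' : ¬ b = l := fun h => hl h.symm
                simp [hl, hl', hab, hba]
            · have hj' : ¬ a = j := fun h => hj h.symm
              by_cases hjb : j = b
              · subst hjb
                by_cases hl : l = a
                · subst hl
                  simp [hj, hj']
                  exact Or.inl (mul_comm _ _)
                · have hl' : ¬ a = l := fun h => hl h.symm
                  simp [hl, hl', hj, hj']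
              · have hjb' : ¬ b = j := fun h => hjb h.symm
                simp [hj, hj', hjb, hjb']
          simp only [h5, Finset.sum_add_distrib]
          simp
          ring
  have h := key p.support (fun e => coeff e p) (fun e he => ⟨?_, ?_⟩)
  · rwa [← p.as_sum] at h
  · rintro rfl
    exact (mem_support_iff.1 he) h0
  · exact (le_totalDegree he).trans hp

end Pool.Agent.L5helper13.TQ
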